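import Pool.Agent.H14.VC.Total

/-!
# Differences of sets with a power saving, symmetric sieve conditions (helper14)
-/

set_option autoImplicit false

namespace Pool.Agent.H14.VC

open Finset

/-- no condition is met -/
def Gp (T : ℕ → ℤ → Prop) (y : ℝ) (n : ℤ) : Prop := ∀ p : ℕ, p.Prime → (p : ℝ) ≤ y → ¬ T p n

lemma Lam_nonneg_le (P : Finset ℕ) (L g : ℝ) (hL : 0 < L) (hg : 0 ≤ g) (T : ℕ → ℤ → Prop) (n : ℤ)
    (hgood : ∀ q ∈ P, ¬ T q n) :
    0 ≤ Lam P L g T n ∧ Lam P L g T n ≤ ∏ p ∈ P, (if (p : ℤ) ∣ n then 1 + g else 1) := by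
  classical
  have hh : ∀ p ∈ P, hn g T n p = if (p : ℤ) ∣ n then g else 0 := by
    intro p hp
    unfold hn ev
    rw [if_neg (hgood p hp)]
    simp
  have hh0 : ∀ p ∈ P, 0 ≤ hn g T n p := by
    intro p hp
    rw [hh p hp]
    split_ifs <;> linarith
  constructor
  · unfold Lam
    apply sum_nonneg
    intro U hU
    exact mul_nonneg (th_nonneg L U) (prod_nonneg fun p hp => hh0 p (mem_powerset.1 hU hp))
  · have h1 : ∏ p ∈ P, (if (p : ℤ) ∣ n then 1 + g else 1) = ∏ p ∈ P, (1 + hn g T n p) := by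
      apply prod_congr rfl
      intro p hp
      rw [hh p hp]
      split_ifs <;> ring
    rw [h1, prod_one_add]
    unfold Lam
    apply sum_le_sum
    intro U hU
    have h2 : 0 ≤ ∏ p ∈ U, hn g T n p := prod_nonneg fun p hp => hh0 p (mem_powerset.1 hU hp)
    have := th_le_one L hL U
    nlinarith

/-- the number of prime factors -/
lemma omega_bound (g : ℕ) (δ : ℝ) (hδ : 0 < δ) : ∃ C : ℝ, 1 ≤ C ∧ ∀ (P : Finset ℕ), (∀ p ∈ P, p.Prime) →
    ∀ n : ℤ, n ≠ 0 → ∏ p ∈ P, (if (p : ℤ) ∣ n then (1 + g : ℝ) else 1) ≤ C * (|n| : ℤ) ^ δ := by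
  obtain ⟨B, hB⟩ := exists_nat_ge ((1 + g : ℝ) ^ (1 / δ))
  have hg1 : (1 : ℝ) ≤ 1 + g := by
    have : (0 : ℝ) ≤ g := Nat.cast_nonneg g
    linarith
  refine ⟨(1 + g : ℝ) ^ B, one_le_pow₀ hg1, ?_⟩
  intro P hP n hn
  classical
  set S := P.filter (fun p : ℕ => (p : ℤ) ∣ n) with hS
  have h1 : ∏ p ∈ P, (if (p : ℤ) ∣ n then (1 + g : ℝ) else 1) = ∏ p ∈ S, (1 + g : ℝ) := by
    rw [hS, prod_filter]
  have h2 : ∀ p ∈ S, (1 + g : ℝ) ≤ (if p ≤ B then (1 + g : ℝ) else 1) * (p : ℝ) ^ δ := by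
    intro p hp
    have hpp := hP p (mem_filter.1 hp).1
    have hp1 : (1 : ℝ) ≤ p := by exact_mod_cast hpp.one_lt.le
    have hpd : 1 ≤ (p : ℝ) ^ δ := Real.one_le_rpow hp1 hδ.le
    split_ifs with h
    · nlinarith
    · push Not at h
      rw [one_mul]
      have h3 : (1 + g : ℝ) ^ (1 / δ) ≤ p := hB.trans (by exact_mod_cast h.le)
      calc (1 + g : ℝ) = ((1 + g : ℝ) ^ (1 / δ)) ^ δ := by
            rw [← Real.rpow_mul (by linarith), one_div_mul_cancel hδ.ne', Real.rpow_one]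
        _ ≤ (p : ℝ) ^ δ := Real.rpow_le_rpow (by positivity) h3 hδ.le
  rw [h1]
  refine (Finset.prod_le_prod (fun _ _ => by linarith) h2).trans ?_
  rw [prod_mul_distrib]
  have h4 : ∏ p ∈ S, (if p ≤ B then (1 + g : ℝ) else 1) ≤ (1 + g : ℝ) ^ B := by
    rw [← prod_filter, prod_const]
    apply pow_le_pow_right₀ hg1
    have hsub : S.filter (fun p => p ≤ B) ⊆ Icc 1 B := by
      intro p hp
      rw [mem_filter] at hp
      exact mem_Icc.2 ⟨(hP p (mem_filter.1 hp.1).1).pos, hp.2⟩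
    have := card_le_card hsub
    simpa using this
  have h5 : ∏ p ∈ S, (p : ℝ) ^ δ ≤ ((|n| : ℤ) : ℝ) ^ δ := by
    have e : ∏ p ∈ S, (p : ℝ) ^ δ = ((∏ p ∈ S, p : ℕ) : ℝ) ^ δ := by
      push_cast
      rw [Real.finset_prod_rpow]
      intro p _
      exact Nat.cast_nonneg p
    rw [e]
    apply Real.rpow_le_rpow (Nat.cast_nonneg _) _ hδ.le
    have hdv : ∏ p ∈ S, p ∣ n.natAbs := by
      apply Finset.prod_primes_dvd
      · intro p hp
        exact (hP p (mem_filter.1 hp).1).prime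
      · intro p hp
        exact Int.natCast_dvd.1 (mem_filter.1 hp).2
    have hle := Nat.le_of_dvd (Int.natAbs_pos.2 hn) hdv
    have : ((∏ p ∈ S, p : ℕ) : ℝ) ≤ (n.natAbs : ℝ) := by exact_mod_cast hle
    rw [Nat.cast_natAbs] at this
    exact this
  have h6 : 0 ≤ ∏ p ∈ S, (p : ℝ) ^ δ := prod_nonneg fun p _ => by positivity
  calc (∏ p ∈ S, (if p ≤ B then (1 + g : ℝ) else 1)) * ∏ p ∈ S, (p : ℝ) ^ δ ≤
      (1 + g : ℝ) ^ B * ((|n| : ℤ) : ℝ) ^ δ := by
        apply mul_le_mul h4 h5 h6 (by positivity)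
    _ = _ := rfl

lemma Pr_inj {U V : Finset ℕ} (hU : ∀ p ∈ U, p.Prime) (hV : ∀ p ∈ V, p.Prime)
    (h : ∏ p ∈ U, p = ∏ p ∈ V, p) : U = V := by
  ext p
  constructor
  · intro hp
    have h1 := (Pool.Agent.H14.SK.prime_dvd_Pr hU (hU p hp)).2 hp
    have h2 : Pool.Agent.H14.SK.Pr U = Pool.Agent.H14.SK.Pr V := h
    rw [h2] at h1
    exact (Pool.Agent.H14.SK.prime_dvd_Pr hV (hU p hp)).1 h1
  · intro hp
    have h1 := (Pool.Agent.H14.SK.prime_dvd_Pr hV (hV p hp)).2 hp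
    have h2 : Pool.Agent.H14.SK.Pr U = Pool.Agent.H14.SK.Pr V := h
    rw [← h2] at h1
    exact (Pool.Agent.H14.SK.prime_dvd_Pr hU (hV p hp)).1 h1

lemma Lam_zero (z s g : ℕ) (hz : 2 ≤ z) (hs : 1 ≤ s) (T : ℕ → ℤ → Prop)
    (h0 : ∀ p ∈ Pz z, ¬ T p 0) :
    0 ≤ Lam (Pz z) (s * Real.log z) g T 0 ∧ Lam (Pz z) (s * Real.log z) g T 0 ≤ (z : ℝ) ^ (s * (g + 1)) := by
  classical
  have hz0 : (1 : ℝ) < z := by exact_mod_cast (by omega : 1 < z)
  have hlz : 0 < Real.log z := Real.log_pos hz0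
  have hs0 : (0 : ℝ) < s := by exact_mod_cast hs
  have hL : 0 < s * Real.log z := by positivity
  refine ⟨(Lam_nonneg_le _ _ _ hL (Nat.cast_nonneg g) T 0 h0).1, ?_⟩
  have hP : ∀ p ∈ Pz z, p.Prime := fun p hp => (mem_filter.1 hp).2
  have hh : ∀ p ∈ Pz z, hn g T 0 p = g := by
    intro p hp
    unfold hn ev
    rw [if_neg (h0 p hp)]
    simp
  have h1 : ∀ U ∈ (Pz z).powerset, th (s * Real.log z) U * ∏ p ∈ U, hn g T 0 p ≤
      if ∏ p ∈ U, p ≤ z ^ s then ((z ^ s : ℕ) : ℝ) ^ g else 0 := by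
    intro U hU
    have hUs := mem_powerset.1 hU
    have hprod : ∏ p ∈ U, hn g T 0 p = (g : ℝ) ^ U.card := by
      rw [prod_congr rfl fun p hp => hh p (hUs hp), prod_const]
    rw [hprod]
    split_ifs with h
    · have h2 : g ^ U.card ≤ (∏ p ∈ U, p) ^ g := by
        rw [← prod_const, ← prod_pow]
        apply Finset.prod_le_prod'
        intro p hp
        have hp2 := (hP p (hUs hp)).two_le
        calc g ≤ 2 ^ g := Nat.lt_two_pow_self.le
          _ ≤ p ^ g := Nat.pow_le_pow_left hp2 g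
      have h3 : g ^ U.card ≤ (z ^ s) ^ g := h2.trans (Nat.pow_le_pow_left h g)
      have h4 : ((g : ℝ)) ^ U.card ≤ ((z ^ s : ℕ) : ℝ) ^ g := by exact_mod_cast h3
      have h5 := th_le_one _ hL U
      have h6 := th_nonneg (s * Real.log z) U
      have h7 : 0 ≤ ((g : ℝ)) ^ U.card := by positivity
      nlinarith
    · have : th (s * Real.log z) U = 0 := by
        by_contra hc
        exact h (th_ne z s hz hs U hc)
      rw [this, zero_mul]
  unfold Lam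
  refine (sum_le_sum h1).trans ?_
  rw [← sum_filter, sum_const, nsmul_eq_mul]
  have hcard : ((Pz z).powerset.filter (fun U => ∏ p ∈ U, p ≤ z ^ s)).card ≤ z ^ s := by
    have h2 : ((Pz z).powerset.filter (fun U => ∏ p ∈ U, p ≤ z ^ s)).card ≤ (Icc 1 (z ^ s)).card := by
      apply card_le_card_of_injOn (fun U => ∏ p ∈ U, p)
      · intro U hU
        rw [mem_coe, mem_filter, mem_powerset] at hU
        rw [mem_coe, mem_Icc]
        exact ⟨prod_pos fun p hp => (hP p (hU.1 hp)).pos, hU.2⟩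
      · intro U hU V hV h
        rw [mem_coe, mem_filter, mem_powerset] at hU hV
        exact Pool.Agent.H14.VC.Pr_inj (fun p hp => hP p (hU.1 hp)) (fun p hp => hP p (hV.1 hp)) h
    simpa using h2
  have hcR : (((Pz z).powerset.filter (fun U => ∏ p ∈ U, p ≤ z ^ s)).card : ℝ) ≤ ((z ^ s : ℕ) : ℝ) := by
    exact_mod_cast hcard
  calc (((Pz z).powerset.filter (fun U => ∏ p ∈ U, p ≤ z ^ s)).card : ℝ) * ((z ^ s : ℕ) : ℝ) ^ g ≤
      ((z ^ s : ℕ) : ℝ) * ((z ^ s : ℕ) : ℝ) ^ g := by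
        apply mul_le_mul_of_nonneg_right hcR (by positivity)
    _ = _ := by
        push_cast
        rw [← pow_succ', ← pow_mul]

end Pool.Agent.H14.VC
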