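import Pool.Agent.H14.VC.Wt
import Pool.Graph.R_seed8.Helper256.KM.Mertens

/-!
# Estimates of the Fourier coefficients (helper14)
-/

set_option autoImplicit false

namespace Pool.Agent.H14.VC

open Finset

/-- the Fourier coefficient of the weight at `x` -/
noncomputable def Cf (P : Finset ℕ) (L g : ℝ) (T : ℕ → ℤ → Prop) (x : ℕ → ℕ) : ℝ :=
  CC P L (fun p => LC (0, 0, 1) (T p) p (x p))
      (fun p => LC (1, 0, 0) (T p) p (x p)) (fun p => LC (0, g, -1) (T p) p (x p))
      (fun p => LC (0, g ^ 2, 1) (T p) p (x p))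

lemma LC_m0 (T : ℤ → Prop) (p x : ℕ) : LC (1, 0, 0) T p x = if x = 0 then 1 else 0 := by
  unfold LC
  simp

lemma LC_m1 (g : ℝ) (T : ℤ → Prop) (p x : ℕ) : LC (0, g, -1) T p x = (g - cT T p x) / p := by
  unfold LC
  simp
  ring

lemma LC_m2 (g : ℝ) (T : ℤ → Prop) (p x : ℕ) : LC (0, g ^ 2, 1) T p x = (g ^ 2 + cT T p x) / p := by
  unfold LC
  simp

lemma LC_t (T : ℤ → Prop) (p x : ℕ) : LC (0, 0, 1) T p x = cT T p x / p := by
  unfold LC
  simp

/-- the local product factor -/
noncomputable def Jf (g : ℝ) (T : ℕ → ℤ → Prop) (x : ℕ → ℕ) (p : ℕ) : ℝ :=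
  (if x p = 0 then 1 else 0) + (g ^ 2 + 2 * g - cT (T p) p (x p)) / p

lemma Jf_eq (g : ℝ) (T : ℕ → ℤ → Prop) (x : ℕ → ℕ) (p : ℕ) :
    LC (1, 0, 0) (T p) p (x p) + 2 * LC (0, g, -1) (T p) p (x p) + LC (0, g ^ 2, 1) (T p) p (x p) =
      Jf g T x p := by
  rw [LC_m0, LC_m1, LC_m2]
  unfold Jf
  ring

lemma exp_sub_one_le (t : ℝ) (h0 : 0 ≤ t) (h1 : t ≤ 1) : Real.exp t - 1 ≤ 2 * t := by
  have h2 := Real.abs_exp_sub_one_sub_id_le (x := t) (by rw [abs_of_nonneg h0]; exact h1)
  have h3 := (abs_le.1 h2).2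
  nlinarith

section
variable (P : Finset ℕ) (hP : ∀ p ∈ P, p.Prime) (T : ℕ → ℤ → Prop) (g : ℝ) (hg : 1 ≤ g)
  (hT : ∀ p ∈ P, cT (T p) p 0 ≤ g) (x : ℕ → ℕ)

include hP hg hT

lemma basic (p : ℕ) (hp : p ∈ P) : 0 < (p : ℝ) ∧ |cT (T p) p (x p)| ≤ g := by
  refine ⟨by exact_mod_cast (hP p hp).pos, ?_⟩
  exact (cT_abs _ _ _).trans (hT p hp)

lemma m0_nn (p : ℕ) (_hp : p ∈ P) : 0 ≤ LC (1, 0, 0) (T p) p (x p) := by
  rw [LC_m0]
  split_ifs <;> norm_num

lemma m1_nn (p : ℕ) (hp : p ∈ P) : 0 ≤ LC (0, g, -1) (T p) p (x p) := by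
  rw [LC_m1]
  obtain ⟨h1, h2⟩ := basic P hP T g hg hT x p hp
  have := (abs_le.1 h2).2
  exact div_nonneg (by linarith) h1.le

lemma m2_nn (p : ℕ) (hp : p ∈ P) : 0 ≤ LC (0, g ^ 2, 1) (T p) p (x p) := by
  rw [LC_m2]
  obtain ⟨h1, h2⟩ := basic P hP T g hg hT x p hp
  have := (abs_le.1 h2).1
  exact div_nonneg (by nlinarith) h1.le

lemma J_one (p : ℕ) (hp : p ∈ P) (h : x p = 0) : 1 ≤ Jf g T x p ∧ Jf g T x p ≤ 1 + (g ^ 2 + 3 * g) / p := by
  obtain ⟨h1, h2⟩ := basic P hP T g hg hT x p hp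
  have h3 := abs_le.1 h2
  unfold Jf
  rw [if_pos h]
  constructor
  · have : 0 ≤ (g ^ 2 + 2 * g - cT (T p) p (x p)) / p := div_nonneg (by nlinarith) h1.le
    linarith
  · have : (g ^ 2 + 2 * g - cT (T p) p (x p)) / p ≤ (g ^ 2 + 3 * g) / p :=
      div_le_div_of_nonneg_right (by linarith) h1.le
    linarith

lemma J_two (p : ℕ) (hp : p ∈ P) (h : x p ≠ 0) : g / p ≤ Jf g T x p ∧ Jf g T x p ≤ (g ^ 2 + 3 * g) / p := by
  obtain ⟨h1, h2⟩ := basic P hP T g hg hT x p hp
  have h3 := abs_le.1 h2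
  unfold Jf
  rw [if_neg h, zero_add]
  constructor
  · exact div_le_div_of_nonneg_right (by nlinarith) h1.le
  · exact div_le_div_of_nonneg_right (by linarith) h1.le

lemma J_nn (p : ℕ) (hp : p ∈ P) : 0 ≤ Jf g T x p := by
  by_cases h : x p = 0
  · linarith [(J_one P hP T g hg hT x p hp h).1]
  · have h1 := (basic P hP T g hg hT x p hp).1
    have h2 := (J_two P hP T g hg hT x p hp h).1
    have : 0 ≤ g / p := by positivity
    linarith

lemma tau_le (p : ℕ) (hp : p ∈ P) : |LC (0, 0, 1) (T p) p (x p)| ≤ (if x p = 0 then g / p else 1) *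
    (LC (1, 0, 0) (T p) p (x p) + 2 * LC (0, g, -1) (T p) p (x p) + LC (0, g ^ 2, 1) (T p) p (x p)) := by
  obtain ⟨h1, h2⟩ := basic P hP T g hg hT x p hp
  rw [Jf_eq, LC_t, abs_div, abs_of_pos h1]
  have h4 : |cT (T p) p (x p)| / p ≤ g / p := div_le_div_of_nonneg_right h2 h1.le
  split_ifs with h
  · have h3 := (J_one P hP T g hg hT x p hp h).1
    have h5 : 0 ≤ g / p := by positivity
    nlinarith
  · have h3 := (J_two P hP T g hg hT x p hp h).1
    linarith

/-- frequencies with a small denominator -/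
lemma near (z s : ℕ) (hz : 3 ≤ z) (hPz : ∀ p ∈ P, p ≤ z) (C1 κ : ℝ)
    (hC1 : ∑ p ∈ P, Real.log p / p ≤ (1 + C1) * Real.log z)
    (hs : 2 * (2 * (g ^ 2 + g) * (1 + C1) + κ + 3) ≤ s) (hs2 : 16 * (g * (1 + C1) + κ) ≤ (s : ℝ) ^ 2)
    (hq : Real.log (qx P x : ℕ) ≤ κ * Real.log z) :
    1 / 8 * ∏ p ∈ P, Jf g T x p ≤ Cf P (s * Real.log z) g T x := by
  have hz3 : (3 : ℝ) ≤ z := by exact_mod_cast hz
  have hl : 1 ≤ Real.log z := by
    rw [Real.le_log_iff_exp_le (by linarith)]
    linarith [Real.exp_one_lt_d9]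
  have hl0 : 0 < Real.log z := by linarith
  have hκ0 : 0 ≤ κ * Real.log z := (Real.log_natCast_nonneg _).trans hq
  have hκ : 0 ≤ κ := by
    by_contra hc
    push Not at hc
    nlinarith
  have hsum0 : 0 ≤ ∑ p ∈ P, Real.log p / p := sum_nonneg fun p _ =>
    div_nonneg (Real.log_natCast_nonneg _) (Nat.cast_nonneg _)
  have hC10 : 0 ≤ 1 + C1 := by
    by_contra hc
    push Not at hc
    nlinarith
  have hs0 : (0 : ℝ) < s := by
    have : 0 ≤ 2 * (g ^ 2 + g) * (1 + C1) := by positivity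
    linarith
  have hL : 0 < s * Real.log z := by positivity
  have hlq : Real.log (qx P x : ℕ) = ∑ p ∈ P, if x p = 0 then 0 else Real.log p := by
    unfold qx
    push_cast
    rw [Real.log_prod (fun p hp => by
      have := (hP p (mem_filter.1 hp).1).pos
      positivity), sum_filter]
    apply sum_congr rfl
    intro p _
    by_cases h : x p = 0 <;> simp [h]
  have hlp : ∀ p ∈ P, 0 ≤ Real.log p ∧ Real.log p ≤ Real.log z := by
    intro p hp
    refine ⟨Real.log_natCast_nonneg _, ?_⟩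
    apply Real.log_le_log (by exact_mod_cast (hP p hp).pos)
    exact_mod_cast hPz p hp
  have hη : 0 ≤ 1 / Real.log z := by positivity
  have hmain := CC_lower P hP (fun p => LC (1, 0, 0) (T p) p (x p)) (fun p => LC (0, g, -1) (T p) p (x p))
    (fun p => LC (0, g ^ 2, 1) (T p) p (x p))
    (fun p => if x p = 0 then Real.exp (2 * (g ^ 2 + g) / Real.log z * (Real.log p / p)) else
      Real.exp (1 / Real.log z * Real.log p))
    (fun p => LC (0, 0, 1) (T p) p (x p)) (fun p => if x p = 0 then g / p else 1)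
    (s * Real.log z) (1 / Real.log z) hL hη (m0_nn P hP T g hg hT x) (m1_nn P hP T g hg hT x)
    (m2_nn P hP T g hg hT x) ?_ ?_ (tau_le P hP T g hg hT x) ?_
  · unfold Cf
    rw [prod_congr rfl fun p _ => Jf_eq g T x p] at hmain
    exact hmain
  · -- local inequality
    intro p hp
    obtain ⟨h1, h2⟩ := basic P hP T g hg hT x p hp
    have hm0 := m0_nn P hP T g hg hT x p hp
    have hm1 := m1_nn P hP T g hg hT x p hp
    have hm2 := m2_nn P hP T g hg hT x p hp
    set r := Real.exp (1 / Real.log z * Real.log p) with hr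
    have ht0 : 0 ≤ 1 / Real.log z * Real.log p := mul_nonneg hη (hlp p hp).1
    have ht1 : 1 / Real.log z * Real.log p ≤ 1 := by
      rw [one_div_mul_eq_div, div_le_one hl0]
      exact (hlp p hp).2
    have hr1 : 1 ≤ r := Real.one_le_exp ht0
    have hr2 := exp_sub_one_le _ ht0 ht1
    rw [← hr] at hr2
    by_cases h : x p = 0
    · simp only [if_pos h]
      have hJ := (J_one P hP T g hg hT x p hp h).1
      rw [← Jf_eq] at hJ
      have hsum : LC (0, g, -1) (T p) p (x p) + LC (0, g ^ 2, 1) (T p) p (x p) = (g ^ 2 + g) / p := by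
        rw [LC_m1, LC_m2]
        ring
      set m0 := LC (1, 0, 0) (T p) p (x p)
      set m1 := LC (0, g, -1) (T p) p (x p)
      set m2 := LC (0, g ^ 2, 1) (T p) p (x p)
      have e1 : m0 + (r + 1) * m1 + r * m2 = (m0 + 2 * m1 + m2) + (r - 1) * ((g ^ 2 + g) / p) := by
        rw [← hsum]; ring
      rw [e1]
      have e2 : (r - 1) * ((g ^ 2 + g) / p) ≤ 2 * (g ^ 2 + g) / Real.log z * (Real.log p / p) := by
        calc (r - 1) * ((g ^ 2 + g) / p) ≤ 2 * (1 / Real.log z * Real.log p) * ((g ^ 2 + g) / p) :=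
              mul_le_mul_of_nonneg_right hr2 (by positivity)
          _ = _ := by field_simp
      have e3 : 1 + 2 * (g ^ 2 + g) / Real.log z * (Real.log p / p) ≤
          Real.exp (2 * (g ^ 2 + g) / Real.log z * (Real.log p / p)) := by
        have := Real.add_one_le_exp (2 * (g ^ 2 + g) / Real.log z * (Real.log p / p))
        linarith
      have e4 : 0 ≤ (r - 1) * ((g ^ 2 + g) / p) := mul_nonneg (by linarith) (by positivity)
      calc (m0 + 2 * m1 + m2) + (r - 1) * ((g ^ 2 + g) / p) ≤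
          (1 + 2 * (g ^ 2 + g) / Real.log z * (Real.log p / p)) * (m0 + 2 * m1 + m2) := by nlinarith
        _ ≤ _ := mul_le_mul_of_nonneg_right e3 (by linarith)
    · simp only [if_neg h]
      have e0 : LC (1, 0, 0) (T p) p (x p) = 0 := by rw [LC_m0, if_neg h]
      rw [e0]
      nlinarith
  · -- tail
    have h1 : ∏ p ∈ P, (if x p = 0 then Real.exp (2 * (g ^ 2 + g) / Real.log z * (Real.log p / p)) else
        Real.exp (1 / Real.log z * Real.log p)) ≤ Real.exp (2 * (g ^ 2 + g) * (1 + C1) + κ) := by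
      have h2 : ∏ p ∈ P, (if x p = 0 then Real.exp (2 * (g ^ 2 + g) / Real.log z * (Real.log p / p)) else
          Real.exp (1 / Real.log z * Real.log p)) =
          Real.exp (∑ p ∈ P, if x p = 0 then 2 * (g ^ 2 + g) / Real.log z * (Real.log p / p) else
            1 / Real.log z * Real.log p) := by
        rw [Real.exp_sum]
        apply prod_congr rfl
        intro p _
        split_ifs <;> rfl
      rw [h2]
      apply Real.exp_le_exp.2
      calc (∑ p ∈ P, if x p = 0 then 2 * (g ^ 2 + g) / Real.log z * (Real.log p / p) else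
            1 / Real.log z * Real.log p) ≤
          ∑ p ∈ P, (2 * (g ^ 2 + g) / Real.log z * (Real.log p / p) +
            1 / Real.log z * (if x p = 0 then 0 else Real.log p)) := by
            apply sum_le_sum
            intro p hp
            have hp0 : (0 : ℝ) < p := by exact_mod_cast (hP p hp).pos
            have := (hlp p hp).1
            have e1 : 0 ≤ 2 * (g ^ 2 + g) / Real.log z * (Real.log p / p) := by positivity
            split_ifs
            · simp
            · linarith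
        _ = 2 * (g ^ 2 + g) / Real.log z * ∑ p ∈ P, Real.log p / p + 1 / Real.log z * Real.log (qx P x : ℕ) := by
            rw [sum_add_distrib, ← mul_sum, ← mul_sum, hlq]
        _ ≤ 2 * (g ^ 2 + g) / Real.log z * ((1 + C1) * Real.log z) + 1 / Real.log z * (κ * Real.log z) := by
            gcongr
        _ = _ := by field_simp
    calc Real.exp (-(1 / Real.log z * (s * Real.log z) / 2)) *
        ∏ p ∈ P, (if x p = 0 then Real.exp (2 * (g ^ 2 + g) / Real.log z * (Real.log p / p)) else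
        Real.exp (1 / Real.log z * Real.log p)) ≤
        Real.exp (-(1 / Real.log z * (s * Real.log z) / 2)) * Real.exp (2 * (g ^ 2 + g) * (1 + C1) + κ) :=
          mul_le_mul_of_nonneg_left h1 (Real.exp_pos _).le
      _ = Real.exp (-(s / 2) + (2 * (g ^ 2 + g) * (1 + C1) + κ)) := by
          rw [← Real.exp_add]
          congr 2
          field_simp
      _ ≤ Real.exp (-3) := by
          apply Real.exp_le_exp.2
          linarith
      _ ≤ 1 / 16 := by
          rw [Real.exp_neg, one_div]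
          apply inv_anti₀ (by norm_num)
          have h3 : (2.7 : ℝ) ^ 3 ≤ Real.exp 1 ^ 3 := by
            apply pow_le_pow_left₀ (by norm_num)
            linarith [Real.exp_one_gt_d9]
          have h4 : Real.exp 3 = Real.exp 1 ^ 3 := by
            rw [← Real.exp_nat_mul]
            norm_num
          rw [h4]
          refine le_trans ?_ h3
          norm_num
  · -- the subtracted terms
    have h1 : ∀ p ∈ P, (Real.log p / (s * Real.log z)) ^ 2 * (if x p = 0 then g / p else 1) ≤
        g / ((s : ℝ) ^ 2 * Real.log z) * (Real.log p / p) +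
          1 / ((s : ℝ) ^ 2 * Real.log z) * (if x p = 0 then 0 else Real.log p) := by
      intro p hp
      have hp0 : (0 : ℝ) < p := by exact_mod_cast (hP p hp).pos
      obtain ⟨hl1, hl2⟩ := hlp p hp
      have hb : (Real.log p / (s * Real.log z)) ^ 2 ≤ 1 / ((s : ℝ) ^ 2 * Real.log z) * Real.log p := by
        rw [div_pow, mul_pow, div_mul_eq_mul_div, one_mul, div_le_div_iff₀ (by positivity) (by positivity)]
        have : Real.log p * Real.log p ≤ Real.log p * Real.log z := by gcongr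
        have hpos : 0 ≤ (s : ℝ) ^ 2 * Real.log z := by positivity
        nlinarith
      split_ifs with h
      · rw [mul_zero, add_zero]
        calc (Real.log p / (s * Real.log z)) ^ 2 * (g / p) ≤
            1 / ((s : ℝ) ^ 2 * Real.log z) * Real.log p * (g / p) :=
              mul_le_mul_of_nonneg_right hb (by positivity)
          _ = _ := by field_simp
      · rw [mul_one]
        have : 0 ≤ g / ((s : ℝ) ^ 2 * Real.log z) * (Real.log p / p) := by positivity
        linarith
    refine (sum_le_sum h1).trans ?_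
    rw [sum_add_distrib, ← mul_sum, ← mul_sum, ← hlq]
    calc g / ((s : ℝ) ^ 2 * Real.log z) * ∑ p ∈ P, Real.log p / p +
        1 / ((s : ℝ) ^ 2 * Real.log z) * Real.log (qx P x : ℕ) ≤
        g / ((s : ℝ) ^ 2 * Real.log z) * ((1 + C1) * Real.log z) +
        1 / ((s : ℝ) ^ 2 * Real.log z) * (κ * Real.log z) := by gcongr
      _ = (g * (1 + C1) + κ) / (s : ℝ) ^ 2 := by field_simp
      _ ≤ 1 / 16 := by
          rw [div_le_div_iff₀ (by positivity) (by norm_num)]
          linarith

end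

end Pool.Agent.H14.VC
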