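import Pool.Agent.H14.VC.Est

/-!
# Frequencies with a large denominator (helper14)
-/

set_option autoImplicit false

namespace Pool.Agent.H14.VC

open Finset

lemma one_add_sum_le (P : Finset ℕ) (v : ℕ → ℝ) (hv : ∀ p ∈ P, 0 ≤ v p) :
    1 + ∑ p ∈ P, v p ≤ ∏ p ∈ P, (1 + v p) := by
  classical
  induction P using Finset.induction_on with
  | empty => simp
  | insert a P ha ih =>
    rw [sum_insert ha, prod_insert ha]
    have h1 := ih fun p hp => hv p (mem_insert_of_mem hp)
    have h2 := hv a (mem_insert_self a P)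
    have h3 : 0 ≤ ∑ p ∈ P, v p := sum_nonneg fun p hp => hv p (mem_insert_of_mem hp)
    nlinarith

section
variable (P : Finset ℕ) (hP : ∀ p ∈ P, p.Prime) (T : ℕ → ℤ → Prop) (g : ℝ) (hg : 1 ≤ g)
  (hT : ∀ p ∈ P, cT (T p) p 0 ≤ g) (x : ℕ → ℕ)

include hP hg hT

lemma far (L G0 H : ℝ) (B : ℕ) (hL : 0 < L) (hG0 : G0 = g ^ 2 + 3 * g) (hB : 4 * G0 ^ 2 ≤ B)
    (hH : ∑ p ∈ P, 1 / (p : ℝ) ≤ H) :
    |Cf P L g T x| ≤ Real.exp ((g + G0) * H) * (2 * G0) ^ B / Real.sqrt (qx P x : ℕ) := by
  have hG01 : 1 ≤ G0 := by rw [hG0]; nlinarith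
  have hp0 : ∀ p ∈ P, (0 : ℝ) < p := fun p hp => by exact_mod_cast (hP p hp).pos
  have h1 := CC_abs P hP (fun p => LC (1, 0, 0) (T p) p (x p)) (fun p => LC (0, g, -1) (T p) p (x p))
    (fun p => LC (0, g ^ 2, 1) (T p) p (x p)) (fun p => LC (0, 0, 1) (T p) p (x p))
    (fun p => if x p = 0 then g / p else 1) L hL (m0_nn P hP T g hg hT x) (m1_nn P hP T g hg hT x)
    (m2_nn P hP T g hg hT x) (tau_le P hP T g hg hT x)
  have hv0 : ∀ p ∈ P, 0 ≤ (if x p = 0 then g / p else 1) := by
    intro p hp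
    have := hp0 p hp
    split_ifs <;> positivity
  have h2 := one_add_sum_le P (fun p => if x p = 0 then g / p else 1) hv0
  rw [prod_congr rfl fun p _ => Jf_eq g T x p] at h1
  have hJ0 : ∀ p ∈ P, 0 ≤ Jf g T x p := J_nn P hP T g hg hT x
  have h3 : |Cf P L g T x| ≤ ∏ p ∈ P, ((1 + (if x p = 0 then g / p else 1)) * Jf g T x p) := by
    rw [prod_mul_distrib]
    exact h1.trans (mul_le_mul_of_nonneg_right h2 (prod_nonneg hJ0))
  refine h3.trans ?_
  have h4 : ∀ p ∈ P, (1 + (if x p = 0 then g / p else 1)) * Jf g T x p ≤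
      Real.exp ((g + G0) * (1 / p)) * (if p ≤ B then 2 * G0 else 1) * (if x p = 0 then 1 else 1 / Real.sqrt p) := by
    intro p hp
    have hpp := hp0 p hp
    have hb1 : (1 : ℝ) ≤ (if p ≤ B then 2 * G0 else 1) := by split_ifs <;> linarith
    have hexp1 : 1 ≤ Real.exp ((g + G0) * (1 / p)) := Real.one_le_exp (by positivity)
    by_cases h : x p = 0
    · simp only [if_pos h]
      have hJ := J_one P hP T g hg hT x p hp h
      rw [← hG0] at hJ
      have e1 : 1 + g / p ≤ Real.exp (g * (1 / p)) := by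
        have := Real.add_one_le_exp (g * (1 / p))
        have e : g / p = g * (1 / p) := by ring
        linarith
      have e2 : Jf g T x p ≤ Real.exp (G0 * (1 / p)) := by
        have := Real.add_one_le_exp (G0 * (1 / p))
        have e : G0 / p = G0 * (1 / p) := by ring
        linarith [hJ.2]
      have e3 : (1 + g / p) * Jf g T x p ≤ Real.exp ((g + G0) * (1 / p)) := by
        have e0 : (g + G0) * (1 / (p : ℝ)) = g * (1 / p) + G0 * (1 / p) := by ring
        rw [e0, Real.exp_add]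
        exact mul_le_mul e1 e2 (by linarith [hJ.1]) (Real.exp_pos _).le
      rw [mul_one]
      have e4 : Real.exp ((g + G0) * (1 / p)) ≤ Real.exp ((g + G0) * (1 / p)) * (if p ≤ B then 2 * G0 else 1) := by
        have := Real.exp_pos ((g + G0) * (1 / p))
        nlinarith
      exact e3.trans e4
    · simp only [if_neg h]
      have hJ := J_two P hP T g hg hT x p hp h
      rw [← hG0] at hJ
      have hsq : 0 < Real.sqrt p := Real.sqrt_pos.2 hpp
      have hss : Real.sqrt p * Real.sqrt p = p := Real.mul_self_sqrt hpp.le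
      have e1 : (1 + 1) * Jf g T x p ≤ 2 * G0 / p := by
        have : 2 * G0 / p = 2 * (G0 / p) := by ring
        rw [this]
        linarith [hJ.2]
      have e2 : 2 * G0 / p ≤ (if p ≤ B then 2 * G0 else 1) * (1 / Real.sqrt p) := by
        rw [mul_one_div, div_le_div_iff₀ hpp hsq]
        split_ifs with hpB
        · have : Real.sqrt p ≤ p := by
            have h1p : (1 : ℝ) ≤ p := by exact_mod_cast (hP p hp).one_lt.le
            have : 1 ≤ Real.sqrt p := by rw [Real.one_le_sqrt]; exact h1p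
            nlinarith
          exact mul_le_mul_of_nonneg_left this (by linarith)
        · push Not at hpB
          have h5 : 4 * G0 ^ 2 ≤ p := hB.trans (by exact_mod_cast hpB.le)
          have h6 : 2 * G0 ≤ Real.sqrt p := by
            apply Real.le_sqrt_of_sq_le
            nlinarith
          nlinarith
      have e3 : (if p ≤ B then 2 * G0 else 1) * (1 / Real.sqrt p) ≤
          Real.exp ((g + G0) * (1 / p)) * ((if p ≤ B then 2 * G0 else 1) * (1 / Real.sqrt p)) := by
        have : 0 ≤ (if p ≤ B then 2 * G0 else 1) * (1 / Real.sqrt p) := by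
          have : 0 ≤ 1 / Real.sqrt p := by positivity
          exact mul_nonneg (by linarith) this
        nlinarith
      calc (1 + 1) * Jf g T x p ≤ _ := e1.trans (e2.trans e3)
        _ = _ := by ring
  refine (Finset.prod_le_prod (fun p hp => mul_nonneg (by linarith [hv0 p hp]) (hJ0 p hp)) h4).trans ?_
  rw [prod_mul_distrib, prod_mul_distrib]
  have e1 : ∏ p ∈ P, Real.exp ((g + G0) * (1 / p)) ≤ Real.exp ((g + G0) * H) := by
    rw [← Real.exp_sum, ← mul_sum]
    apply Real.exp_le_exp.2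
    exact mul_le_mul_of_nonneg_left hH (by linarith)
  have e2 : ∏ p ∈ P, (if p ≤ B then 2 * G0 else (1 : ℝ)) ≤ (2 * G0) ^ B := by
    rw [← prod_filter, prod_const]
    apply pow_le_pow_right₀ (by linarith)
    have hsub : P.filter (fun p => p ≤ B) ⊆ Icc 1 B := by
      intro p hp
      rw [mem_filter] at hp
      exact mem_Icc.2 ⟨(hP p hp.1).pos, hp.2⟩
    have := card_le_card hsub
    simpa using this
  have e3 : ∏ p ∈ P, (if x p = 0 then (1 : ℝ) else 1 / Real.sqrt p) = 1 / Real.sqrt (qx P x : ℕ) := by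
    have : ∏ p ∈ P, (if x p = 0 then (1 : ℝ) else 1 / Real.sqrt p) =
        ∏ p ∈ P.filter (fun p => x p ≠ 0), 1 / Real.sqrt p := by
      rw [prod_filter]
      apply prod_congr rfl
      intro p _
      by_cases h : x p = 0 <;> simp [h]
    rw [this]
    unfold qx
    push_cast
    have hs : ∀ S : Finset ℕ, ∏ p ∈ S, 1 / Real.sqrt p = 1 / Real.sqrt (∏ p ∈ S, (p : ℝ)) := by
      intro S
      classical
      induction S using Finset.induction_on with
      | empty => simp
      | insert a S ha ih =>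
        rw [prod_insert ha, prod_insert ha, ih, Real.sqrt_mul (Nat.cast_nonneg a)]
        rw [one_div_mul_one_div]
    exact hs _
  rw [e3]
  have e4 : 0 ≤ ∏ p ∈ P, (if p ≤ B then 2 * G0 else (1 : ℝ)) := prod_nonneg fun p _ => by
    split_ifs <;> linarith
  calc (∏ p ∈ P, Real.exp ((g + G0) * (1 / p))) * (∏ p ∈ P, (if p ≤ B then 2 * G0 else (1 : ℝ))) *
      (1 / Real.sqrt (qx P x : ℕ)) ≤
      (Real.exp ((g + G0) * H) * (2 * G0) ^ B) * (1 / Real.sqrt (qx P x : ℕ)) := by
        apply mul_le_mul_of_nonneg_right _ (by positivity)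
        exact mul_le_mul e1 e2 e4 (Real.exp_pos _).le
    _ = _ := by ring

end

lemma th_ne (z s : ℕ) (hz : 2 ≤ z) (hs : 1 ≤ s) (U : Finset ℕ)
    (h : th (s * Real.log z) U ≠ 0) : ∏ p ∈ U, p ≤ z ^ s := by
  by_contra hc
  push Not at hc
  apply h
  unfold th
  apply max_eq_left
  have hz0 : (1 : ℝ) < z := by exact_mod_cast (by omega : 1 < z)
  have hlz : 0 < Real.log z := Real.log_pos hz0
  have hs0 : (0 : ℝ) < s := by exact_mod_cast hs
  have hL : 0 < s * Real.log z := by positivity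
  have h1 : s * Real.log z ≤ Real.log ((∏ p ∈ U, p : ℕ) : ℝ) := by
    rw [← Real.log_pow]
    apply Real.log_le_log (by positivity)
    exact_mod_cast hc.le
  have h2 : 1 ≤ Real.log ((∏ p ∈ U, p : ℕ) : ℝ) / (s * Real.log z) := by
    rw [le_div_iff₀ hL]
    linarith
  linarith

lemma qx_le (P : Finset ℕ) (hP : ∀ p ∈ P, p.Prime) (x : ℕ → ℕ) (U V W : Finset ℕ) (hU : U ⊆ P) (hV : V ⊆ P)
    (hW : W ⊆ P) (h : ∀ p ∈ P, x p ≠ 0 → p ∈ U ∨ p ∈ V ∨ p ∈ W) :
    qx P x ≤ (∏ p ∈ U, p) * (∏ p ∈ V, p) * ∏ p ∈ W, p := by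
  classical
  have hone : ∀ p ∈ P, 1 ≤ p := fun p hp => (hP p hp).pos
  have h1 : ∀ (A B : Finset ℕ), A ⊆ P → B ⊆ P → ∏ p ∈ A ∪ B, p ≤ (∏ p ∈ A, p) * ∏ p ∈ B, p := by
    intro A B hA hB
    rw [← prod_union_inter]
    have : 1 ≤ ∏ p ∈ A ∩ B, p := by
      have : 0 < ∏ p ∈ A ∩ B, p := prod_pos fun p hp => hone p (hA (mem_inter.1 hp).1)
      exact this
    exact Nat.le_mul_of_pos_right _ this
  have h2 : P.filter (fun p => x p ≠ 0) ⊆ (U ∪ V) ∪ W := by
    intro p hp
    rw [mem_filter] at hp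
    rcases h p hp.1 hp.2 with h | h | h
    · exact mem_union_left _ (mem_union_left _ h)
    · exact mem_union_left _ (mem_union_right _ h)
    · exact mem_union_right _ h
  calc qx P x ≤ ∏ p ∈ (U ∪ V) ∪ W, p := by
        unfold qx
        apply Finset.prod_le_prod_of_subset_of_one_le' h2
        intro p hp _
        rw [mem_union, mem_union] at hp
        rcases hp with (h | h) | h
        · exact hone p (hU h)
        · exact hone p (hV h)
        · exact hone p (hW h)
    _ ≤ (∏ p ∈ U ∪ V, p) * ∏ p ∈ W, p := h1 _ _ (union_subset hU hV) hW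
    _ ≤ _ := Nat.mul_le_mul_right _ (h1 _ _ hU hV)

lemma Cf_zero (P : Finset ℕ) (hP : ∀ p ∈ P, p.Prime) (T : ℕ → ℤ → Prop) (g : ℝ) (x : ℕ → ℕ) (z s : ℕ)
    (hz : 2 ≤ z) (hs : 1 ≤ s) (hPz : ∀ p ∈ P, p ≤ z) (h : z ^ (2 * s + 1) < qx P x) :
    Cf P (s * Real.log z) g T x = 0 := by
  classical
  have hz0 : (1 : ℝ) < z := by exact_mod_cast (by omega : 1 < z)
  have hlz : 0 < Real.log z := Real.log_pos hz0
  have hs0 : (0 : ℝ) < s := by exact_mod_cast hs
  have hL : 0 < s * Real.log z := by positivity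
  have hmm : ∀ (Q U V : Finset ℕ), Q ⊆ P → (∏ p ∈ Q, mm (fun p => LC (1, 0, 0) (T p) p (x p))
      (fun p => LC (0, g, -1) (T p) p (x p)) (fun p => LC (0, g ^ 2, 1) (T p) p (x p)) U V p) ≠ 0 →
      ∀ p ∈ Q, x p ≠ 0 → p ∈ U ∨ p ∈ V := by
    intro Q U V _ hne p hp hx
    by_contra hc
    push Not at hc
    apply hne
    apply prod_eq_zero hp
    unfold mm
    rw [if_neg hc.1, if_neg hc.2]
    simp only [LC_m0, if_neg hx]
  unfold Cf CC
  have e1 : BB P (th (s * Real.log z)) (fun p => LC (1, 0, 0) (T p) p (x p))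
      (fun p => LC (0, g, -1) (T p) p (x p)) (fun p => LC (0, g ^ 2, 1) (T p) p (x p)) = 0 := by
    unfold BB
    apply sum_eq_zero
    intro U hU
    apply sum_eq_zero
    intro V hV
    by_contra hc
    have hc1 := left_ne_zero_of_mul hc
    have hc2 := right_ne_zero_of_mul hc
    have hU2 := th_ne z s hz hs U (left_ne_zero_of_mul hc1)
    have hV2 := th_ne z s hz hs V (right_ne_zero_of_mul hc1)
    have h1 := hmm P U V (Subset.refl _) hc2
    have h2 := qx_le P hP x U V ∅ (mem_powerset.1 hU) (mem_powerset.1 hV) (empty_subset _)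
      (fun p hp hx => by
        rcases h1 p hp hx with h | h
        · exact Or.inl h
        · exact Or.inr (Or.inl h))
    rw [prod_empty, mul_one] at h2
    have h3 : (∏ p ∈ U, p) * (∏ p ∈ V, p) ≤ z ^ (2 * s) := by
      calc (∏ p ∈ U, p) * (∏ p ∈ V, p) ≤ z ^ s * z ^ s := Nat.mul_le_mul hU2 hV2
        _ = _ := by rw [← pow_add]; congr 1; ring
    have h4 : z ^ (2 * s) ≤ z ^ (2 * s + 1) := Nat.pow_le_pow_right (by omega) (by omega)
    omega
  have e2 : ∑ q ∈ P, LC (0, 0, 1) (T q) q (x q) * BB (P.erase q)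
      (fun U => th (s * Real.log z) U - th (s * Real.log z) (insert q U)) (fun p => LC (1, 0, 0) (T p) p (x p))
      (fun p => LC (0, g, -1) (T p) p (x p)) (fun p => LC (0, g ^ 2, 1) (T p) p (x p)) = 0 := by
    apply sum_eq_zero
    intro q hq
    apply mul_eq_zero_of_right
    unfold BB
    apply sum_eq_zero
    intro U hU
    apply sum_eq_zero
    intro V hV
    by_contra hc
    have hUs := mem_powerset.1 hU
    have hVs := mem_powerset.1 hV
    have hc1 := left_ne_zero_of_mul hc
    have hc2 := right_ne_zero_of_mul hc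
    have hth : ∀ W ⊆ P.erase q, th (s * Real.log z) W - th (s * Real.log z) (insert q W) ≠ 0 →
        th (s * Real.log z) W ≠ 0 := by
      intro W hW hne h0
      apply hne
      have h5 := (th_insert (s * Real.log z) hL W (fun p hp => hP p (mem_of_mem_erase (hW hp))) q (hP q hq)
        (fun h => (notMem_erase q P) (hW h))).1
      have h6 := th_nonneg (s * Real.log z) (insert q W)
      linarith
    have hU2 := th_ne z s hz hs U (hth U hUs (left_ne_zero_of_mul hc1))
    have hV2 := th_ne z s hz hs V (hth V hVs (right_ne_zero_of_mul hc1))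
    have h1 := hmm (P.erase q) U V (erase_subset _ _) hc2
    have h2 := qx_le P hP x U V {q} (hUs.trans (erase_subset _ _)) (hVs.trans (erase_subset _ _))
      (singleton_subset_iff.2 hq) (fun p hp hx => by
        by_cases hpq : p = q
        · exact Or.inr (Or.inr (mem_singleton.2 hpq))
        · rcases h1 p (mem_erase.2 ⟨hpq, hp⟩) hx with h | h
          · exact Or.inl h
          · exact Or.inr (Or.inl h))
    rw [prod_singleton] at h2
    have h3 : (∏ p ∈ U, p) * (∏ p ∈ V, p) * q ≤ z ^ (2 * s + 1) := by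
      calc (∏ p ∈ U, p) * (∏ p ∈ V, p) * q ≤ z ^ s * z ^ s * z :=
            Nat.mul_le_mul (Nat.mul_le_mul hU2 hV2) (hPz q hq)
        _ = _ := by rw [← pow_add, ← pow_succ]; congr 1; ring
    omega
  rw [e1, e2, sub_zero]

end Pool.Agent.H14.VC
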