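import Mathlib

/-!
# Positive definite sieve weights: the inequality for one frequency (helper14)
-/

set_option autoImplicit false

namespace Pool.Agent.H14.VC

open Finset

/-- the local factor attached to a pair of sets -/
def mm (m0 m1 m2 : ℕ → ℝ) (U V : Finset ℕ) (p : ℕ) : ℝ :=
  if p ∈ U then (if p ∈ V then m2 p else m1 p) else (if p ∈ V then m1 p else m0 p)

lemma sum_two (P : Finset ℕ) (f11 f10 f01 f00 : ℕ → ℝ) :
    ∑ U ∈ P.powerset, ∑ V ∈ P.powerset, ∏ p ∈ P,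
      (if p ∈ U then (if p ∈ V then f11 p else f10 p) else (if p ∈ V then f01 p else f00 p)) =
      ∏ p ∈ P, (f11 p + f10 p + f01 p + f00 p) := by
  classical
  induction P using Finset.induction_on with
  | empty => simp
  | insert a P ha ih =>
    rw [sum_powerset_insert ha]
    have key : ∀ (U V : Finset ℕ), U ∈ P.powerset → V ∈ P.powerset → ∀ (s t : Bool),
        ∏ p ∈ P, (if p ∈ (if s then insert a U else U) then
          (if p ∈ (if t then insert a V else V) then f11 p else f10 p) else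
          (if p ∈ (if t then insert a V else V) then f01 p else f00 p)) =
        ∏ p ∈ P, (if p ∈ U then (if p ∈ V then f11 p else f10 p) else (if p ∈ V then f01 p else f00 p)) := by
      intro U V _ _ s t
      apply prod_congr rfl
      intro p hp
      have hne : p ≠ a := fun h => ha (h ▸ hp)
      have e1 : (p ∈ (if s then insert a U else U)) ↔ p ∈ U := by
        cases s <;> simp [hne]
      have e2 : (p ∈ (if t then insert a V else V)) ↔ p ∈ V := by
        cases t <;> simp [hne]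
      simp only [e1, e2]
    have h00 : ∀ U ∈ P.powerset, ∀ V ∈ P.powerset, ∏ p ∈ insert a P,
        (if p ∈ U then (if p ∈ V then f11 p else f10 p) else (if p ∈ V then f01 p else f00 p)) =
        f00 a * ∏ p ∈ P, (if p ∈ U then (if p ∈ V then f11 p else f10 p) else (if p ∈ V then f01 p else f00 p)) := by
      intro U hU V hV
      have hU' : a ∉ U := fun h => ha (mem_powerset.1 hU h)
      have hV' : a ∉ V := fun h => ha (mem_powerset.1 hV h)
      rw [prod_insert ha]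
      simp [hU', hV']
    have h10 : ∀ U ∈ P.powerset, ∀ V ∈ P.powerset, ∏ p ∈ insert a P,
        (if p ∈ insert a U then (if p ∈ V then f11 p else f10 p) else (if p ∈ V then f01 p else f00 p)) =
        f10 a * ∏ p ∈ P, (if p ∈ U then (if p ∈ V then f11 p else f10 p) else (if p ∈ V then f01 p else f00 p)) := by
      intro U hU V hV
      have hV' : a ∉ V := fun h => ha (mem_powerset.1 hV h)
      have h1 := key U V hU hV true false
      simp only [if_true, Bool.false_eq_true, if_false] at h1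
      rw [prod_insert ha, h1]
      simp [hV']
    have h01 : ∀ U ∈ P.powerset, ∀ V ∈ P.powerset, ∏ p ∈ insert a P,
        (if p ∈ U then (if p ∈ insert a V then f11 p else f10 p) else (if p ∈ insert a V then f01 p else f00 p)) =
        f01 a * ∏ p ∈ P, (if p ∈ U then (if p ∈ V then f11 p else f10 p) else (if p ∈ V then f01 p else f00 p)) := by
      intro U hU V hV
      have hU' : a ∉ U := fun h => ha (mem_powerset.1 hU h)
      have h1 := key U V hU hV false true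
      simp only [if_true, Bool.false_eq_true, if_false] at h1
      rw [prod_insert ha, h1]
      simp [hU']
    have h11 : ∀ U ∈ P.powerset, ∀ V ∈ P.powerset, ∏ p ∈ insert a P,
        (if p ∈ insert a U then (if p ∈ insert a V then f11 p else f10 p) else
          (if p ∈ insert a V then f01 p else f00 p)) =
        f11 a * ∏ p ∈ P, (if p ∈ U then (if p ∈ V then f11 p else f10 p) else (if p ∈ V then f01 p else f00 p)) := by
      intro U hU V hV
      have h1 := key U V hU hV true true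
      simp only [if_true] at h1
      rw [prod_insert ha, h1]
      simp
    have e1 : ∀ U ∈ P.powerset, ∑ V ∈ (insert a P).powerset, ∏ p ∈ insert a P,
        (if p ∈ U then (if p ∈ V then f11 p else f10 p) else (if p ∈ V then f01 p else f00 p)) =
        (f00 a + f01 a) * ∑ V ∈ P.powerset, ∏ p ∈ P,
          (if p ∈ U then (if p ∈ V then f11 p else f10 p) else (if p ∈ V then f01 p else f00 p)) := by
      intro U hU
      rw [sum_powerset_insert ha, sum_congr rfl (h00 U hU), sum_congr rfl (h01 U hU), ← mul_sum,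
        ← mul_sum]
      ring
    have e2 : ∀ U ∈ P.powerset, ∑ V ∈ (insert a P).powerset, ∏ p ∈ insert a P,
        (if p ∈ insert a U then (if p ∈ V then f11 p else f10 p) else (if p ∈ V then f01 p else f00 p)) =
        (f10 a + f11 a) * ∑ V ∈ P.powerset, ∏ p ∈ P,
          (if p ∈ U then (if p ∈ V then f11 p else f10 p) else (if p ∈ V then f01 p else f00 p)) := by
      intro U hU
      rw [sum_powerset_insert ha, sum_congr rfl (h10 U hU), sum_congr rfl (h11 U hU), ← mul_sum,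
        ← mul_sum]
      ring
    rw [sum_congr rfl e1, sum_congr rfl e2, ← mul_sum, ← mul_sum, ih, prod_insert ha]
    ring

lemma sum_mm (P : Finset ℕ) (m0 m1 m2 : ℕ → ℝ) :
    ∑ U ∈ P.powerset, ∑ V ∈ P.powerset, ∏ p ∈ P, mm m0 m1 m2 U V p =
      ∏ p ∈ P, (m0 p + 2 * m1 p + m2 p) := by
  unfold mm
  rw [sum_two]
  apply prod_congr rfl
  intro p _
  ring

/-- weighted form -/
lemma sum_mm_r (P : Finset ℕ) (m0 m1 m2 r : ℕ → ℝ) :
    ∑ U ∈ P.powerset, ∑ V ∈ P.powerset, (∏ p ∈ U, r p) * ∏ p ∈ P, mm m0 m1 m2 U V p =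
      ∏ p ∈ P, (m0 p + (r p + 1) * m1 p + r p * m2 p) := by
  classical
  have h1 : ∀ U ∈ P.powerset, ∀ V ∈ P.powerset, (∏ p ∈ U, r p) * ∏ p ∈ P, mm m0 m1 m2 U V p =
      ∏ p ∈ P, (if p ∈ U then (if p ∈ V then r p * m2 p else r p * m1 p) else
        (if p ∈ V then m1 p else m0 p)) := by
    intro U hU V _
    have h2 : ∏ p ∈ U, r p = ∏ p ∈ P, (if p ∈ U then r p else 1) := by
      rw [prod_ite_mem, inter_eq_right.2 (mem_powerset.1 hU)]
    rw [h2, ← prod_mul_distrib]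
    apply prod_congr rfl
    intro p _
    unfold mm
    split_ifs <;> ring
  rw [sum_congr rfl fun U hU => sum_congr rfl (h1 U hU), sum_two]
  apply prod_congr rfl
  intro p _
  ring

/-- the weight of a set -/
noncomputable def th (L : ℝ) (U : Finset ℕ) : ℝ := max 0 (1 - Real.log ((∏ p ∈ U, p : ℕ) : ℝ) / L)

lemma th_nonneg (L : ℝ) (U : Finset ℕ) : 0 ≤ th L U := le_max_left _ _

lemma log_prod_nonneg (U : Finset ℕ) : 0 ≤ Real.log ((∏ p ∈ U, p : ℕ) : ℝ) := Real.log_natCast_nonneg _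

lemma th_le_one (L : ℝ) (hL : 0 < L) (U : Finset ℕ) : th L U ≤ 1 := by
  unfold th
  apply max_le (by norm_num)
  have := div_nonneg (log_prod_nonneg U) hL.le
  linarith

lemma th_half (L : ℝ) (hL : 0 < L) (U : Finset ℕ) (h : Real.log ((∏ p ∈ U, p : ℕ) : ℝ) ≤ L / 2) :
    1 / 2 ≤ th L U := by
  unfold th
  apply le_trans _ (le_max_right _ _)
  have : Real.log ((∏ p ∈ U, p : ℕ) : ℝ) / L ≤ 1 / 2 := by
    rw [div_le_iff₀ hL]
    linarith
  linarith

lemma th_insert (L : ℝ) (hL : 0 < L) (U : Finset ℕ) (hU : ∀ p ∈ U, p.Prime) (q : ℕ) (hq : q.Prime)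
    (hqU : q ∉ U) : 0 ≤ th L U - th L (insert q U) ∧ th L U - th L (insert q U) ≤ Real.log q / L ∧
      th L U - th L (insert q U) ≤ 1 := by
  have h0 : ((∏ p ∈ U, p : ℕ) : ℝ) ≠ 0 := by
    have : 0 < ∏ p ∈ U, p := prod_pos fun p hp => (hU p hp).pos
    exact_mod_cast this.ne'
  have hq0 : (q : ℝ) ≠ 0 := by exact_mod_cast hq.pos.ne'
  have h1 : Real.log ((∏ p ∈ insert q U, p : ℕ) : ℝ) = Real.log q + Real.log ((∏ p ∈ U, p : ℕ) : ℝ) := by
    rw [prod_insert hqU]
    push_cast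
    push_cast at h0
    rw [Real.log_mul hq0 h0]
  have hlq : 0 ≤ Real.log q := Real.log_natCast_nonneg _
  set a := Real.log ((∏ p ∈ U, p : ℕ) : ℝ) / L with ha
  have h2 : Real.log ((∏ p ∈ insert q U, p : ℕ) : ℝ) / L = Real.log q / L + a := by
    rw [h1, add_div]
  have hb : 0 ≤ Real.log q / L := div_nonneg hlq hL.le
  have ha0 : 0 ≤ a := div_nonneg (log_prod_nonneg U) hL.le
  unfold th
  rw [h2, ← ha]
  refine ⟨?_, ?_, ?_⟩
  · rcases le_total 0 (1 - a) with h | h
    · rw [max_eq_right h]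
      rcases le_total 0 (1 - (Real.log q / L + a)) with h' | h'
      · rw [max_eq_right h']; linarith
      · rw [max_eq_left h']; linarith
    · rw [max_eq_left h, max_eq_left (by linarith)]; linarith
  · rcases le_total 0 (1 - a) with h | h
    · rw [max_eq_right h]
      rcases le_total 0 (1 - (Real.log q / L + a)) with h' | h'
      · rw [max_eq_right h']; linarith
      · rw [max_eq_left h']; linarith
    · rw [max_eq_left h, max_eq_left (by linarith)]; linarith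
  · rcases le_total 0 (1 - a) with h | h
    · rw [max_eq_right h]
      have := le_max_left 0 (1 - (Real.log q / L + a))
      linarith
    · rw [max_eq_left h, max_eq_left (by linarith)]; linarith

/-- the quadratic form -/
noncomputable def BB (P : Finset ℕ) (θ : Finset ℕ → ℝ) (m0 m1 m2 : ℕ → ℝ) : ℝ :=
  ∑ U ∈ P.powerset, ∑ V ∈ P.powerset, θ U * θ V * ∏ p ∈ P, mm m0 m1 m2 U V p

lemma mm_nonneg {m0 m1 m2 : ℕ → ℝ} {U V : Finset ℕ} {p : ℕ} (h0 : 0 ≤ m0 p) (h1 : 0 ≤ m1 p) (h2 : 0 ≤ m2 p) :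
    0 ≤ mm m0 m1 m2 U V p := by
  unfold mm
  split_ifs <;> assumption

lemma mm_comm (m0 m1 m2 : ℕ → ℝ) (U V : Finset ℕ) (p : ℕ) : mm m0 m1 m2 U V p = mm m0 m1 m2 V U p := by
  unfold mm
  split_ifs <;> rfl

lemma BB_le (P : Finset ℕ) (θ : Finset ℕ → ℝ) (m0 m1 m2 : ℕ → ℝ) (c : ℝ)
    (hθ : ∀ U ∈ P.powerset, 0 ≤ θ U ∧ θ U ≤ c)
    (h0 : ∀ p ∈ P, 0 ≤ m0 p) (h1 : ∀ p ∈ P, 0 ≤ m1 p) (h2 : ∀ p ∈ P, 0 ≤ m2 p) :
    BB P θ m0 m1 m2 ≤ c ^ 2 * ∏ p ∈ P, (m0 p + 2 * m1 p + m2 p) := by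
  rw [← sum_mm, mul_sum]
  unfold BB
  apply sum_le_sum
  intro U hU
  rw [mul_sum]
  apply sum_le_sum
  intro V hV
  have hk : 0 ≤ ∏ p ∈ P, mm m0 m1 m2 U V p := prod_nonneg fun p hp => mm_nonneg (h0 p hp) (h1 p hp) (h2 p hp)
  apply mul_le_mul_of_nonneg_right _ hk
  rw [sq]
  exact mul_le_mul (hθ U hU).2 (hθ V hV).2 (hθ V hV).1 ((hθ U hU).1.trans (hθ U hU).2)

lemma BB_nonneg (P : Finset ℕ) (θ : Finset ℕ → ℝ) (m0 m1 m2 : ℕ → ℝ)
    (hθ : ∀ U ∈ P.powerset, 0 ≤ θ U)
    (h0 : ∀ p ∈ P, 0 ≤ m0 p) (h1 : ∀ p ∈ P, 0 ≤ m1 p) (h2 : ∀ p ∈ P, 0 ≤ m2 p) :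
    0 ≤ BB P θ m0 m1 m2 := by
  unfold BB
  apply sum_nonneg
  intro U hU
  apply sum_nonneg
  intro V hV
  exact mul_nonneg (mul_nonneg (hθ U hU) (hθ V hV))
    (prod_nonneg fun p hp => mm_nonneg (h0 p hp) (h1 p hp) (h2 p hp))

/-- Rankin's trick -/
lemma BB_lower (P : Finset ℕ) (hP : ∀ p ∈ P, p.Prime) (m0 m1 m2 a : ℕ → ℝ) (L η : ℝ) (hL : 0 < L)
    (hη : 0 ≤ η) (h0 : ∀ p ∈ P, 0 ≤ m0 p) (h1 : ∀ p ∈ P, 0 ≤ m1 p) (h2 : ∀ p ∈ P, 0 ≤ m2 p)
    (ha : ∀ p ∈ P, m0 p + (Real.exp (η * Real.log p) + 1) * m1 p + Real.exp (η * Real.log p) * m2 p ≤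
      a p * (m0 p + 2 * m1 p + m2 p))
    (htail : Real.exp (-(η * L / 2)) * ∏ p ∈ P, a p ≤ 1 / 16) :
    7 / 32 * ∏ p ∈ P, (m0 p + 2 * m1 p + m2 p) ≤ BB P (th L) m0 m1 m2 := by
  classical
  set K : Finset ℕ → Finset ℕ → ℝ := fun U V => ∏ p ∈ P, mm m0 m1 m2 U V p with hK
  have hK0 : ∀ U V, 0 ≤ K U V := fun U V => prod_nonneg fun p hp => mm_nonneg (h0 p hp) (h1 p hp) (h2 p hp)
  set G := ∏ p ∈ P, (m0 p + 2 * m1 p + m2 p) with hG
  have hG0 : 0 ≤ G := prod_nonneg fun p hp => by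
    have := h0 p hp; have := h1 p hp; have := h2 p hp; positivity
  have hGs : ∑ U ∈ P.powerset, ∑ V ∈ P.powerset, K U V = G := sum_mm P m0 m1 m2
  set sm : Finset ℕ → ℝ := fun U => if Real.log ((∏ p ∈ U, p : ℕ) : ℝ) ≤ L / 2 then 1 else 0 with hsm
  have hsm01 : ∀ U, sm U = 0 ∨ sm U = 1 := by
    intro U
    simp only [hsm]
    split_ifs
    · right; rfl
    · left; rfl
  -- the tail
  have htl : ∑ U ∈ P.powerset, ∑ V ∈ P.powerset, (1 - sm U) * K U V ≤ G / 16 := by
    have hpt : ∀ U ∈ P.powerset, ∀ V ∈ P.powerset, (1 - sm U) * K U V ≤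
        Real.exp (-(η * L / 2)) * ((∏ p ∈ U, Real.exp (η * Real.log p)) * K U V) := by
      intro U hU V _
      rw [← mul_assoc]
      apply mul_le_mul_of_nonneg_right _ (hK0 U V)
      have hpe : ∏ p ∈ U, Real.exp (η * Real.log p) = Real.exp (η * Real.log ((∏ p ∈ U, p : ℕ) : ℝ)) := by
        rw [← Real.exp_sum, ← mul_sum]
        congr 2
        push_cast
        rw [Real.log_prod]
        intro p hp
        have := (hP p (mem_powerset.1 hU hp)).pos
        positivity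
      rw [hpe, ← Real.exp_add]
      simp only [hsm]
      split_ifs with h
      · simp only [sub_self]
        positivity
      · rw [sub_zero]
        apply Real.one_le_exp
        push Not at h
        nlinarith
    calc ∑ U ∈ P.powerset, ∑ V ∈ P.powerset, (1 - sm U) * K U V ≤
        ∑ U ∈ P.powerset, ∑ V ∈ P.powerset,
          Real.exp (-(η * L / 2)) * ((∏ p ∈ U, Real.exp (η * Real.log p)) * K U V) :=
          sum_le_sum fun U hU => sum_le_sum fun V hV => hpt U hU V hV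
      _ = Real.exp (-(η * L / 2)) * ∑ U ∈ P.powerset, ∑ V ∈ P.powerset,
          ((∏ p ∈ U, Real.exp (η * Real.log p)) * K U V) := by
          rw [mul_sum]
          apply sum_congr rfl
          intro U _
          rw [mul_sum]
      _ = Real.exp (-(η * L / 2)) * ∏ p ∈ P, (m0 p + (Real.exp (η * Real.log p) + 1) * m1 p +
          Real.exp (η * Real.log p) * m2 p) := by
          rw [← sum_mm_r P m0 m1 m2 (fun p => Real.exp (η * Real.log p))]
      _ ≤ Real.exp (-(η * L / 2)) * ∏ p ∈ P, (a p * (m0 p + 2 * m1 p + m2 p)) := by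
          apply mul_le_mul_of_nonneg_left _ (Real.exp_pos _).le
          apply Finset.prod_le_prod
          · intro p hp
            have := h0 p hp; have := h1 p hp; have := h2 p hp
            positivity
          · exact ha
      _ = (Real.exp (-(η * L / 2)) * ∏ p ∈ P, a p) * G := by rw [prod_mul_distrib]; ring
      _ ≤ 1 / 16 * G := mul_le_mul_of_nonneg_right htail hG0
      _ = G / 16 := by ring
  have htl2 : ∑ U ∈ P.powerset, ∑ V ∈ P.powerset, (1 - sm V) * K U V ≤ G / 16 := by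
    rw [sum_comm]
    refine le_trans (le_of_eq ?_) htl
    apply sum_congr rfl
    intro U _
    apply sum_congr rfl
    intro V _
    congr 1
    simp only [hK]
    exact prod_congr rfl fun p _ => mm_comm _ _ _ _ _ _
  have hpt2 : ∀ U ∈ P.powerset, ∀ V ∈ P.powerset,
      1 / 4 * (K U V - (1 - sm U) * K U V - (1 - sm V) * K U V) ≤ th L U * th L V * K U V := by
    intro U _ V _
    have hk := hK0 U V
    have hu0 := th_nonneg L U
    have hv0 := th_nonneg L V
    have huv : 0 ≤ th L U * th L V * K U V := mul_nonneg (mul_nonneg hu0 hv0) hk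
    rcases hsm01 U with hU | hU
    · rw [hU]
      rcases hsm01 V with hV | hV
      · rw [hV]; nlinarith
      · rw [hV]; nlinarith
    · rcases hsm01 V with hV | hV
      · rw [hU, hV]; nlinarith
      · rw [hU, hV]
        have h3 : 1 / 2 ≤ th L U := by
          apply th_half L hL
          by_contra hc
          simp only [hsm, if_neg hc] at hU
          norm_num at hU
        have h4 : 1 / 2 ≤ th L V := by
          apply th_half L hL
          by_contra hc
          simp only [hsm, if_neg hc] at hV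
          norm_num at hV
        have h5 : (1 / 4 : ℝ) ≤ th L U * th L V := by nlinarith
        nlinarith
  calc 7 / 32 * G ≤ 1 / 4 * (G - G / 16 - G / 16) := by linarith
    _ ≤ 1 / 4 * (∑ U ∈ P.powerset, ∑ V ∈ P.powerset, K U V -
        ∑ U ∈ P.powerset, ∑ V ∈ P.powerset, (1 - sm U) * K U V -
        ∑ U ∈ P.powerset, ∑ V ∈ P.powerset, (1 - sm V) * K U V) := by
        rw [hGs]
        linarith
    _ = ∑ U ∈ P.powerset, ∑ V ∈ P.powerset, 1 / 4 * (K U V - (1 - sm U) * K U V - (1 - sm V) * K U V) := by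
        rw [← sum_sub_distrib, ← sum_sub_distrib, mul_sum]
        apply sum_congr rfl
        intro U _
        rw [← sum_sub_distrib, ← sum_sub_distrib, mul_sum]
    _ ≤ _ := by
        unfold BB
        exact sum_le_sum fun U hU => sum_le_sum fun V hV => hpt2 U hU V hV

/-- the Fourier coefficient of the weight -/
noncomputable def CC (P : Finset ℕ) (L : ℝ) (τ m0 m1 m2 : ℕ → ℝ) : ℝ :=
  BB P (th L) m0 m1 m2 - ∑ q ∈ P, τ q * BB (P.erase q) (fun U => th L U - th L (insert q U)) m0 m1 m2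

/-- one subtracted term -/
lemma sub_term (P : Finset ℕ) (hP : ∀ p ∈ P, p.Prime) (L c : ℝ) (hL : 0 < L) (τ m0 m1 m2 : ℕ → ℝ)
    (h0 : ∀ p ∈ P, 0 ≤ m0 p) (h1 : ∀ p ∈ P, 0 ≤ m1 p) (h2 : ∀ p ∈ P, 0 ≤ m2 p) (q : ℕ) (hq : q ∈ P)
    (hc : Real.log q / L ≤ c ∨ 1 ≤ c) (v : ℝ) (hv : |τ q| ≤ v * (m0 q + 2 * m1 q + m2 q)) :
    |τ q * BB (P.erase q) (fun U => th L U - th L (insert q U)) m0 m1 m2| ≤
      c ^ 2 * v * ∏ p ∈ P, (m0 p + 2 * m1 p + m2 p) := by
  have hsub : ∀ p ∈ P.erase q, p ∈ P := fun p hp => mem_of_mem_erase hp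
  have hθ : ∀ U ∈ (P.erase q).powerset, 0 ≤ th L U - th L (insert q U) ∧
      th L U - th L (insert q U) ≤ c := by
    intro U hU
    have hUs := mem_powerset.1 hU
    have h3 := th_insert L hL U (fun p hp => hP p (hsub p (hUs hp))) q (hP q hq)
      (fun h => (notMem_erase q P) (hUs h))
    refine ⟨h3.1, ?_⟩
    rcases hc with h | h
    · exact h3.2.1.trans h
    · exact h3.2.2.trans h
  have hb0 := BB_nonneg (P.erase q) (fun U => th L U - th L (insert q U)) m0 m1 m2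
    (fun U hU => (hθ U hU).1) (fun p hp => h0 p (hsub p hp)) (fun p hp => h1 p (hsub p hp))
    (fun p hp => h2 p (hsub p hp))
  have hb := BB_le (P.erase q) (fun U => th L U - th L (insert q U)) m0 m1 m2 c hθ
    (fun p hp => h0 p (hsub p hp)) (fun p hp => h1 p (hsub p hp)) (fun p hp => h2 p (hsub p hp))
  rw [abs_mul, abs_of_nonneg hb0]
  have hG0 : 0 ≤ ∏ p ∈ P.erase q, (m0 p + 2 * m1 p + m2 p) := prod_nonneg fun p hp => by
    have := h0 p (hsub p hp); have := h1 p (hsub p hp); have := h2 p (hsub p hp); positivity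
  calc |τ q| * BB (P.erase q) (fun U => th L U - th L (insert q U)) m0 m1 m2 ≤
      (v * (m0 q + 2 * m1 q + m2 q)) * (c ^ 2 * ∏ p ∈ P.erase q, (m0 p + 2 * m1 p + m2 p)) :=
        mul_le_mul hv hb hb0 ((abs_nonneg _).trans hv)
    _ = c ^ 2 * v * ((m0 q + 2 * m1 q + m2 q) * ∏ p ∈ P.erase q, (m0 p + 2 * m1 p + m2 p)) := by ring
    _ = _ := by rw [mul_prod_erase P (fun p => m0 p + 2 * m1 p + m2 p) hq]

lemma CC_lower (P : Finset ℕ) (hP : ∀ p ∈ P, p.Prime) (m0 m1 m2 a τ v : ℕ → ℝ) (L η : ℝ) (hL : 0 < L)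
    (hη : 0 ≤ η) (h0 : ∀ p ∈ P, 0 ≤ m0 p) (h1 : ∀ p ∈ P, 0 ≤ m1 p) (h2 : ∀ p ∈ P, 0 ≤ m2 p)
    (ha : ∀ p ∈ P, m0 p + (Real.exp (η * Real.log p) + 1) * m1 p + Real.exp (η * Real.log p) * m2 p ≤
      a p * (m0 p + 2 * m1 p + m2 p))
    (htail : Real.exp (-(η * L / 2)) * ∏ p ∈ P, a p ≤ 1 / 16)
    (hv : ∀ p ∈ P, |τ p| ≤ v p * (m0 p + 2 * m1 p + m2 p))
    (hs : ∑ p ∈ P, (Real.log p / L) ^ 2 * v p ≤ 1 / 16) :
    1 / 8 * ∏ p ∈ P, (m0 p + 2 * m1 p + m2 p) ≤ CC P L τ m0 m1 m2 := by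
  have hb := BB_lower P hP m0 m1 m2 a L η hL hη h0 h1 h2 ha htail
  have hG0 : 0 ≤ ∏ p ∈ P, (m0 p + 2 * m1 p + m2 p) := prod_nonneg fun p hp => by
    have := h0 p hp; have := h1 p hp; have := h2 p hp; positivity
  have hsum : ∑ q ∈ P, τ q * BB (P.erase q) (fun U => th L U - th L (insert q U)) m0 m1 m2 ≤
      (1 / 16) * ∏ p ∈ P, (m0 p + 2 * m1 p + m2 p) := by
    calc ∑ q ∈ P, τ q * BB (P.erase q) (fun U => th L U - th L (insert q U)) m0 m1 m2 ≤
        ∑ q ∈ P, (Real.log q / L) ^ 2 * v q * ∏ p ∈ P, (m0 p + 2 * m1 p + m2 p) := by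
          apply sum_le_sum
          intro q hq
          exact (le_abs_self _).trans (sub_term P hP L _ hL τ m0 m1 m2 h0 h1 h2 q hq (Or.inl le_rfl) _ (hv q hq))
      _ = (∑ q ∈ P, (Real.log q / L) ^ 2 * v q) * ∏ p ∈ P, (m0 p + 2 * m1 p + m2 p) := by rw [sum_mul]
      _ ≤ _ := mul_le_mul_of_nonneg_right hs hG0
  unfold CC
  linarith

lemma CC_abs (P : Finset ℕ) (hP : ∀ p ∈ P, p.Prime) (m0 m1 m2 τ v : ℕ → ℝ) (L : ℝ) (hL : 0 < L)
    (h0 : ∀ p ∈ P, 0 ≤ m0 p) (h1 : ∀ p ∈ P, 0 ≤ m1 p) (h2 : ∀ p ∈ P, 0 ≤ m2 p)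
    (hv : ∀ p ∈ P, |τ p| ≤ v p * (m0 p + 2 * m1 p + m2 p)) :
    |CC P L τ m0 m1 m2| ≤ (1 + ∑ p ∈ P, v p) * ∏ p ∈ P, (m0 p + 2 * m1 p + m2 p) := by
  have hb := BB_le P (th L) m0 m1 m2 1 (fun U _ => ⟨th_nonneg L U, th_le_one L hL U⟩) h0 h1 h2
  have hb0 := BB_nonneg P (th L) m0 m1 m2 (fun U _ => th_nonneg L U) h0 h1 h2
  unfold CC
  refine (abs_sub _ _).trans ?_
  rw [abs_of_nonneg hb0, add_mul]
  apply add_le_add (by simpa using hb)
  refine (abs_sum_le_sum_abs _ _).trans ?_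
  rw [sum_mul]
  apply sum_le_sum
  intro q hq
  have := sub_term P hP L 1 hL τ m0 m1 m2 h0 h1 h2 q hq (Or.inr le_rfl) _ (hv q hq)
  simpa using this

end Pool.Agent.H14.VC
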