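import Pool.Agent.H14.SK.Four
import Pool.Agent.H14.VC.Ineq

/-!
# Fourier expansion of products of local functions (helper14)
-/

set_option autoImplicit false

namespace Pool.Agent.H14.VC

open Finset
open Pool.Agent.Helper112 (ee ls_ee_zero ls_ee_add ls_ee_int)
open Pool.Agent.H14.SK (sum_ee norm_ee pair_ee ee_eq_one_iff)

open Classical in
/-- the cosine sum of a set of residues -/
noncomputable def cT (T : ℤ → Prop) (p x : ℕ) : ℝ :=
  ∑ r ∈ (range p).filter (fun r : ℕ => T r), Real.cos (2 * Real.pi * ((r : ℝ) * x / p))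

open Classical in
/-- a local function with three parameters -/
noncomputable def ev (c : ℝ × ℝ × ℝ) (T : ℤ → Prop) (p : ℕ) (n : ℤ) : ℝ :=
  c.1 + (if (p : ℤ) ∣ n then c.2.1 else 0) + (if T n then c.2.2 else 0)

/-- its Fourier coefficients -/
noncomputable def LC (c : ℝ × ℝ × ℝ) (T : ℤ → Prop) (p x : ℕ) : ℝ :=
  (if x = 0 then c.1 else 0) + (c.2.1 + c.2.2 * cT T p x) / p

lemma cos_ee (t : ℝ) : ((Real.cos (2 * Real.pi * t) : ℝ) : ℂ) = (ee t + ee (-t)) / 2 := by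
  unfold ee
  rw [Complex.ofReal_cos, Complex.cos]
  congr 2
  · congr 1
    push_cast
    ring
  · congr 1
    push_cast
    ring

lemma cT_abs (T : ℤ → Prop) (p x : ℕ) : |cT T p x| ≤ cT T p 0 := by
  classical
  unfold cT
  refine (abs_sum_le_sum_abs _ _).trans ?_
  apply sum_le_sum
  intro r _
  have : Real.cos (2 * Real.pi * ((r : ℝ) * (0 : ℕ) / p)) = 1 := by simp
  rw [this]
  exact Real.abs_cos_le_one _

open Classical in
lemma cT_zero (T : ℤ → Prop) (p : ℕ) : cT T p 0 = ((range p).filter (fun r : ℕ => T r)).card := by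
  unfold cT
  simp

lemma cT_eq (T : ℤ → Prop) (p : ℕ) (hp : 0 < p) (per : ∀ n m : ℤ, (p : ℤ) ∣ n - m → (T n ↔ T m))
    (even : ∀ n : ℤ, T n ↔ T (-n)) (n : ℤ) :
    ∑ x ∈ range p, ((cT T p x : ℝ) : ℂ) * ee ((n : ℝ) * x / p) = by classical exact if T n then (p : ℂ) else 0 := by
  classical
  have hp0 : (p : ℝ) ≠ 0 := by exact_mod_cast hp.ne'
  have hpc : (p : ℂ) ≠ 0 := by exact_mod_cast hp.ne'
  have h1 : ∀ x ∈ range p, ((cT T p x : ℝ) : ℂ) * ee ((n : ℝ) * x / p) =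
      ∑ r ∈ (range p).filter (fun r : ℕ => T r),
        (ee (((n + r : ℤ) : ℝ) * x / p) + ee (((n - r : ℤ) : ℝ) * x / p)) / 2 := by
    intro x _
    unfold cT
    rw [Complex.ofReal_sum, sum_mul]
    apply sum_congr rfl
    intro r _
    rw [cos_ee, div_mul_eq_mul_div, add_mul, ← ls_ee_add, ← ls_ee_add]
    congr 3
    · push_cast; ring
    · push_cast; ring
  rw [sum_congr rfl h1, sum_comm]
  have h2 : ∀ r ∈ (range p).filter (fun r : ℕ => T r), ∑ x ∈ range p,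
      (ee (((n + r : ℤ) : ℝ) * x / p) + ee (((n - r : ℤ) : ℝ) * x / p)) / 2 =
      (p : ℂ) / 2 * ((if (p : ℤ) ∣ n + r then 1 else 0) + (if (p : ℤ) ∣ n - r then 1 else 0)) := by
    intro r _
    rw [← sum_div, sum_add_distrib, sum_ee p hp, sum_ee p hp]
    split_ifs <;> ring
  rw [sum_congr rfl h2, ← mul_sum, sum_add_distrib]
  -- counting the residues
  have hcount : ∀ m : ℤ, ∑ r ∈ (range p).filter (fun r : ℕ => T r), (if (p : ℤ) ∣ m - r then (1 : ℂ) else 0) =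
      if T m then 1 else 0 := by
    intro m
    have hm0 : 0 ≤ m % (p : ℤ) := Int.emod_nonneg m (by exact_mod_cast hp.ne')
    have hm1 : m % (p : ℤ) < p := Int.emod_lt_of_pos m (by exact_mod_cast hp)
    set r0 : ℕ := (m % (p : ℤ)).toNat with hr0
    have hr0' : (r0 : ℤ) = m % (p : ℤ) := Int.toNat_of_nonneg hm0
    have hr0p : r0 < p := by omega
    have hdv : (p : ℤ) ∣ m - r0 := by
      rw [hr0']
      exact Int.dvd_self_sub_emod
    have huniq : ∀ r : ℕ, r < p → ((p : ℤ) ∣ m - r) → r = r0 := by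
      intro r hr hd
      have h3 : (p : ℤ) ∣ (r : ℤ) - r0 := by
        have := dvd_sub hdv hd
        have e : (m - r0 : ℤ) - (m - r) = r - r0 := by ring
        rwa [e] at this
      obtain ⟨k, hk⟩ := h3
      have hk0 : k = 0 := by
        by_contra hne
        have h4 : (p : ℤ) ≤ |(r : ℤ) - r0| := by
          rw [hk, abs_mul, abs_of_nonneg (by positivity : (0 : ℤ) ≤ p)]
          have := Int.one_le_abs hne
          nlinarith
        have h5 : |(r : ℤ) - r0| < p := by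
          rw [abs_lt]
          constructor <;> omega
        omega
      rw [hk0] at hk
      omega
    by_cases hT : T m
    · rw [if_pos hT]
      have hTr : T r0 := (per m r0 hdv).1 hT
      rw [sum_eq_single r0]
      · rw [if_pos hdv]
      · intro r hr hne
        rw [if_neg]
        intro hd
        exact hne (huniq r (mem_range.1 (mem_filter.1 hr).1) hd)
      · intro h
        exact absurd (mem_filter.2 ⟨mem_range.2 hr0p, hTr⟩) h
    · rw [if_neg hT]
      apply sum_eq_zero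
      intro r hr
      rw [if_neg]
      intro hd
      exact hT ((per m r hd).2 (mem_filter.1 hr).2)
  have h3 : ∑ r ∈ (range p).filter (fun r : ℕ => T r), (if (p : ℤ) ∣ n + r then (1 : ℂ) else 0) =
      if T n then 1 else 0 := by
    have h4 := hcount (-n)
    have e : ∀ r : ℕ, ((p : ℤ) ∣ n + r) ↔ (p : ℤ) ∣ -n - r := by
      intro r
      have : -n - (r : ℤ) = -(n + r) := by ring
      rw [this, dvd_neg]
    simp only [e]
    rw [h4]
    simp only [← even n]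
  rw [h3, hcount n]
  split_ifs
  · ring
  · ring

lemma ev_eq (c : ℝ × ℝ × ℝ) (T : ℤ → Prop) (p : ℕ) (hp : 0 < p)
    (per : ∀ n m : ℤ, (p : ℤ) ∣ n - m → (T n ↔ T m)) (even : ∀ n : ℤ, T n ↔ T (-n)) (n : ℤ) :
    ((ev c T p n : ℝ) : ℂ) = ∑ x ∈ range p, ((LC c T p x : ℝ) : ℂ) * ee ((n : ℝ) * x / p) := by
  classical
  have hp0 : (p : ℝ) ≠ 0 := by exact_mod_cast hp.ne'
  have hpc : (p : ℂ) ≠ 0 := by exact_mod_cast hp.ne'
  have h1 : ∀ x ∈ range p, ((LC c T p x : ℝ) : ℂ) * ee ((n : ℝ) * x / p) =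
      (if x = 0 then (c.1 : ℂ) else 0) + (c.2.1 : ℂ) / p * ee ((n : ℝ) * x / p) +
        (c.2.2 : ℂ) / p * (((cT T p x : ℝ) : ℂ) * ee ((n : ℝ) * x / p)) := by
    intro x _
    unfold LC
    split_ifs with h
    · subst h
      have : ee ((n : ℝ) * ((0 : ℕ) : ℝ) / p) = 1 := by
        rw [Nat.cast_zero, mul_zero, zero_div, ls_ee_zero]
      rw [this]
      push_cast
      ring
    · push_cast
      ring
  rw [sum_congr rfl h1, sum_add_distrib, sum_add_distrib, ← mul_sum, ← mul_sum, sum_ee p hp,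
    cT_eq T p hp per even n, sum_ite_eq' (range p) 0, if_pos (mem_range.2 hp)]
  unfold ev
  split_ifs <;> push_cast <;> field_simp <;> ring

lemma exists_X (P : Finset ℕ) (hP : ∀ p ∈ P, p.Prime) : ∃ X : Finset (ℕ → ℕ),
    (∀ x ∈ X, ∀ p ∈ P, x p < p) ∧ (∀ x ∈ X, ∀ p, p ∉ P → x p = 0) ∧ (fun _ => 0) ∈ X ∧
    ∀ f : ℕ → ℕ → ℂ, ∏ p ∈ P, ∑ j ∈ range p, f p j = ∑ x ∈ X, ∏ p ∈ P, f p (x p) := by
  classical
  let ext : (∀ p ∈ P, ℕ) → ℕ → ℕ := fun q p => if h : p ∈ P then q p h else 0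
  have hinj : ∀ q q' : (∀ p ∈ P, ℕ), ext q = ext q' → q = q' := by
    intro q q' h
    funext p hp
    have := congrFun h p
    simpa [ext, hp] using this
  refine ⟨(P.pi (fun p => range p)).image ext, ?_, ?_, ?_, ?_⟩
  · intro x hx p hp
    obtain ⟨q, hq, rfl⟩ := mem_image.1 hx
    have := mem_range.1 ((mem_pi.1 hq) p hp)
    simpa [ext, hp] using this
  · intro x hx p hp
    obtain ⟨q, _, rfl⟩ := mem_image.1 hx
    simp [ext, hp]
  · rw [mem_image]
    refine ⟨fun _ _ => 0, ?_, ?_⟩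
    · rw [mem_pi]
      intro p hp
      exact mem_range.2 (hP p hp).pos
    · funext p
      simp [ext]
  · intro f
    rw [prod_sum, sum_image (fun q _ q' _ h => hinj q q' h)]
    apply sum_congr rfl
    intro q _
    rw [← prod_attach P (fun p => f p (ext q p))]
    apply prod_congr rfl
    intro p _
    simp [ext]

/-- the frequency of `x` -/
noncomputable def xi (P : Finset ℕ) (x : ℕ → ℕ) : ℝ := ∑ p ∈ P, (x p : ℝ) / p

lemma ee_sum (s : Finset ℕ) (f : ℕ → ℝ) : ee (∑ i ∈ s, f i) = ∏ i ∈ s, ee (f i) := by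
  classical
  induction s using Finset.induction_on with
  | empty => simp [ls_ee_zero]
  | insert a s ha ih => rw [sum_insert ha, prod_insert ha, ls_ee_add, ih]

/-- the energy at `x` -/
noncomputable def En (A : Finset ℕ) (P : Finset ℕ) (x : ℕ → ℕ) : ℝ := ‖∑ a ∈ A, ee (a * xi P x)‖ ^ 2

lemma prod_ev_pairs (A P : Finset ℕ) (hP : ∀ p ∈ P, p.Prime) (T : ℕ → ℤ → Prop)
    (per : ∀ p : ℕ, ∀ n m : ℤ, (p : ℤ) ∣ n - m → (T p n ↔ T p m)) (even : ∀ p : ℕ, ∀ n : ℤ, T p n ↔ T p (-n))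
    (X : Finset (ℕ → ℕ))
    (hX : ∀ f : ℕ → ℕ → ℂ, ∏ p ∈ P, ∑ j ∈ range p, f p j = ∑ x ∈ X, ∏ p ∈ P, f p (x p))
    (c : ℕ → ℝ × ℝ × ℝ) :
    ∑ a ∈ A, ∑ b ∈ A, ∏ p ∈ P, ev (c p) (T p) p ((b : ℤ) - a) =
      ∑ x ∈ X, (∏ p ∈ P, LC (c p) (T p) p (x p)) * En A P x := by
  have h1 : ∀ n : ℤ, ((∏ p ∈ P, ev (c p) (T p) p n : ℝ) : ℂ) =
      ∑ x ∈ X, ((∏ p ∈ P, LC (c p) (T p) p (x p) : ℝ) : ℂ) * ee ((n : ℝ) * xi P x) := by
    intro n
    rw [Complex.ofReal_prod, prod_congr rfl fun p hp =>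
      ev_eq (c p) (T p) p (hP p hp).pos (per p) (even p) n, hX]
    apply sum_congr rfl
    intro x _
    rw [prod_mul_distrib, Complex.ofReal_prod]
    congr 1
    unfold xi
    rw [mul_sum, ee_sum]
    apply prod_congr rfl
    intro p _
    congr 1
    ring
  have h2 : ((∑ a ∈ A, ∑ b ∈ A, ∏ p ∈ P, ev (c p) (T p) p ((b : ℤ) - a) : ℝ) : ℂ) =
      ((∑ x ∈ X, (∏ p ∈ P, LC (c p) (T p) p (x p)) * En A P x : ℝ) : ℂ) := by
    push_cast
    have h3 : ∀ a b : ℕ, ∏ p ∈ P, ((ev (c p) (T p) p ((b : ℤ) - a) : ℝ) : ℂ) =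
        ∑ x ∈ X, ((∏ p ∈ P, LC (c p) (T p) p (x p) : ℝ) : ℂ) * ee (((b : ℤ) - a : ℤ) * xi P x) := by
      intro a b
      rw [← Complex.ofReal_prod, h1]
    rw [sum_congr rfl fun a _ => sum_congr rfl fun b _ => h3 a b]
    rw [sum_congr rfl fun a _ => sum_comm, sum_comm]
    apply sum_congr rfl
    intro x _
    rw [sum_congr rfl fun a _ => (mul_sum _ _ _).symm, ← mul_sum]
    have h4 := pair_ee A (xi P x) 0
    simp only [sub_zero, Int.cast_zero, zero_mul, neg_zero, ls_ee_zero, one_mul] at h4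
    rw [Complex.ofReal_prod]
    congr 1
  exact_mod_cast h2

end Pool.Agent.H14.VC
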