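import Pool.Agent.H14.VC.Four

/-!
# The large sieve at the frequencies (helper14)
-/

set_option autoImplicit false

namespace Pool.Agent.H14.VC

open Finset
open Pool.Agent.Helper112 (ee ls_ee_zero ls_ee_add ls_ee_int lsSep)

/-- the denominator of the frequency -/
def qx (P : Finset ℕ) (x : ℕ → ℕ) : ℕ := ∏ p ∈ P.filter (fun p => x p ≠ 0), p

lemma qx_pos (P : Finset ℕ) (hP : ∀ p ∈ P, p.Prime) (x : ℕ → ℕ) : 0 < qx P x :=
  prod_pos fun p hp => (hP p (mem_filter.1 hp).1).pos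

lemma xi_mul (P : Finset ℕ) (hP : ∀ p ∈ P, p.Prime) (x : ℕ → ℕ) :
    ∃ k : ℤ, xi P x * (qx P x : ℕ) = k := by
  classical
  have h1 : xi P x = ∑ p ∈ P.filter (fun p => x p ≠ 0), (x p : ℝ) / p := by
    unfold xi
    rw [sum_filter]
    apply sum_congr rfl
    intro p _
    split_ifs with h
    · rfl
    · push Not at h
      rw [h]
      simp
  rw [h1, sum_mul]
  have h2 : ∀ p ∈ P.filter (fun p => x p ≠ 0), (x p : ℝ) / p * (qx P x : ℕ) =
      ((x p * ∏ r ∈ (P.filter (fun p => x p ≠ 0)).erase p, r : ℕ) : ℝ) := by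
    intro p hp
    have hp0 : (p : ℝ) ≠ 0 := by exact_mod_cast (hP p (mem_filter.1 hp).1).pos.ne'
    unfold qx
    rw [← mul_prod_erase (P.filter (fun p => x p ≠ 0)) (fun p => p) hp]
    push_cast
    field_simp
  rw [sum_congr rfl h2]
  refine ⟨∑ p ∈ P.filter (fun p => x p ≠ 0), ((x p * ∏ r ∈ (P.filter (fun p => x p ≠ 0)).erase p, r : ℕ) : ℤ), ?_⟩
  push_cast
  rfl

/-- distinct vectors give frequencies whose difference is no integer -/
lemma xi_ne (P : Finset ℕ) (hP : ∀ p ∈ P, p.Prime) (x y : ℕ → ℕ) (hx : ∀ p ∈ P, x p < p)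
    (hy : ∀ p ∈ P, y p < p) (q : ℕ) (hq : q ∈ P) (hne : x q ≠ y q) (m : ℤ) : xi P y - xi P x ≠ m := by
  classical
  intro h
  have hq0 : (q : ℝ) ≠ 0 := by exact_mod_cast (hP q hq).pos.ne'
  set M : ℕ := ∏ r ∈ P.erase q, r with hM
  have hMq : ¬ (q : ℤ) ∣ (M : ℤ) := by
    intro hd
    have hd' : q ∣ M := by exact_mod_cast hd
    obtain ⟨r, hr, h2⟩ := (Prime.dvd_finsetProd_iff (hP q hq).prime _).1 hd'
    have h3 := (Nat.prime_dvd_prime_iff_eq (hP q hq) (hP r (mem_of_mem_erase hr))).1 h2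
    exact (ne_of_mem_erase hr) h3.symm
  set w : ℕ → ℕ := fun p => ∏ r ∈ (P.erase q).erase p, r with hw
  have hMw : ∀ p ∈ P.erase q, M = p * w p := fun p hp => (mul_prod_erase (P.erase q) (fun r => r) hp).symm
  clear_value w
  -- multiply by the product of all primes
  have h1 : (xi P y - xi P x) * (q * M : ℕ) = (((y q : ℤ) - x q) * M : ℤ) +
      (q : ℝ) * ∑ p ∈ P.erase q, (((y p : ℤ) - x p) * (w p : ℤ) : ℤ) := by
    unfold xi
    rw [← sum_sub_distrib, ← add_sum_erase P _ hq, add_mul, sum_mul]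
    congr 1
    · push_cast
      field_simp
    · push_cast
      rw [mul_sum]
      apply sum_congr rfl
      intro p hp
      have hp0 : (p : ℝ) ≠ 0 := by exact_mod_cast (hP p (mem_of_mem_erase hp)).pos.ne'
      rw [hMw p hp]
      push_cast
      field_simp
  rw [h] at h1
  have h2 : (m * (q * M : ℕ) : ℤ) = ((y q : ℤ) - x q) * M +
      q * ∑ p ∈ P.erase q, (((y p : ℤ) - x p) * (w p : ℤ) : ℤ) := by
    have h3 : ((m * (q * M : ℕ) : ℤ) : ℝ) = ((((y q : ℤ) - x q) * M +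
      q * ∑ p ∈ P.erase q, (((y p : ℤ) - x p) * (w p : ℤ) : ℤ) : ℤ) : ℝ) := by
      push_cast
      push_cast at h1
      linarith
    exact_mod_cast h3
  have h3 : (q : ℤ) ∣ ((y q : ℤ) - x q) * M := by
    have e : ((y q : ℤ) - x q) * M = q * (m * M - ∑ p ∈ P.erase q, (((y p : ℤ) - x p) * (w p : ℤ) : ℤ)) := by
      push_cast at h2
      push_cast
      linarith
    rw [e]
    exact dvd_mul_right _ _
  rcases (Nat.prime_iff_prime_int.1 (hP q hq)).dvd_or_dvd h3 with h4 | h4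
  · obtain ⟨k, hk⟩ := h4
    have hk0 : k ≠ 0 := by
      rintro rfl
      rw [mul_zero] at hk
      apply hne
      omega
    have h5 : (q : ℤ) ≤ |(y q : ℤ) - x q| := by
      rw [hk, abs_mul, abs_of_nonneg (by positivity : (0 : ℤ) ≤ q)]
      have := Int.one_le_abs hk0
      nlinarith
    have h6 : |(y q : ℤ) - x q| < q := by
      have := hx q hq
      have := hy q hq
      rw [abs_lt]
      constructor <;> omega
    omega
  · exact hMq h4

lemma sep (P : Finset ℕ) (hP : ∀ p ∈ P, p.Prime) (x y : ℕ → ℕ) (hx : ∀ p ∈ P, x p < p)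
    (hy : ∀ p ∈ P, y p < p) (R : ℕ) (hxR : qx P x ≤ R) (hyR : qx P y ≤ R) (q : ℕ) (hq : q ∈ P)
    (hne : x q ≠ y q) : lsSep (R ^ 2) (xi P y - xi P x) := by
  obtain ⟨k, hk⟩ := xi_mul P hP x
  obtain ⟨l, hl⟩ := xi_mul P hP y
  set t := xi P y - xi P x with ht
  set Q : ℕ := qx P x * qx P y with hQ
  have hQ0 : 0 < Q := Nat.mul_pos (qx_pos P hP x) (qx_pos P hP y)
  have hQR : Q ≤ R ^ 2 := by rw [sq]; exact Nat.mul_le_mul hxR hyR
  have hQ0' : (0 : ℝ) < Q := by exact_mod_cast hQ0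
  have hQR' : (Q : ℝ) ≤ ((R ^ 2 : ℕ) : ℝ) := by exact_mod_cast hQR
  have htQ : ∃ j : ℤ, t * Q = j := by
    refine ⟨l * qx P x - k * qx P y, ?_⟩
    push_cast
    rw [← hk, ← hl, ht, hQ]
    push_cast
    ring
  obtain ⟨j, hj⟩ := htQ
  have hfr0 : 0 < Int.fract t := by
    rw [Int.fract_pos]
    exact xi_ne P hP x y hx hy q hq hne ⌊t⌋
  have hfr1 := Int.fract_lt_one t
  have hjf : Int.fract t * Q = ((j - ⌊t⌋ * Q : ℤ) : ℝ) := by
    rw [← Int.self_sub_floor, sub_mul, hj]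
    push_cast
    ring
  have h1 : (1 : ℤ) ≤ j - ⌊t⌋ * Q := by
    have : (0 : ℝ) < ((j - ⌊t⌋ * Q : ℤ) : ℝ) := by rw [← hjf]; positivity
    have : 0 < j - ⌊t⌋ * Q := by exact_mod_cast this
    omega
  have h2 : j - ⌊t⌋ * Q ≤ (Q : ℤ) - 1 := by
    have : ((j - ⌊t⌋ * Q : ℤ) : ℝ) < ((Q : ℤ) : ℝ) := by
      rw [← hjf]
      push_cast
      nlinarith
    have : j - ⌊t⌋ * Q < (Q : ℤ) := by exact_mod_cast this
    omega
  have h1' : (1 : ℝ) ≤ Int.fract t * Q := by rw [hjf]; exact_mod_cast h1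
  have h2' : Int.fract t * Q ≤ Q - 1 := by
    rw [hjf]
    have : ((j - ⌊t⌋ * Q : ℤ) : ℝ) ≤ (((Q : ℤ) - 1 : ℤ) : ℝ) := by exact_mod_cast h2
    refine this.trans (le_of_eq ?_)
    push_cast
    ring
  have h3 : 1 / (((R ^ 2 : ℕ)) : ℝ) ≤ 1 / (Q : ℝ) := one_div_le_one_div_of_le hQ0' hQR'
  have h4 : 1 / (Q : ℝ) ≤ Int.fract t := by
    rw [div_le_iff₀ hQ0']
    exact h1'
  have h5 : Int.fract t ≤ 1 - 1 / (Q : ℝ) := by
    have : (1 - 1 / (Q : ℝ)) * Q = Q - 1 := by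
      field_simp
    nlinarith
  exact ⟨h3.trans h4, by linarith⟩

lemma large (A P : Finset ℕ) (hP : ∀ p ∈ P, p.Prime) (M R : ℕ) (hA : A ⊆ Icc 1 M) (hR : 1 ≤ R)
    (X : Finset (ℕ → ℕ)) (hX1 : ∀ x ∈ X, ∀ p ∈ P, x p < p) (hX2 : ∀ x ∈ X, ∀ p, p ∉ P → x p = 0)
    (hXR : ∀ x ∈ X, qx P x ≤ R) :
    ∑ x ∈ X, En A P x ≤ 6 * ((M : ℝ) + (R : ℝ) ^ 2) * A.card := by
  classical
  have h1 := Pool.Agent.Helper112.ls_general X (xi P) (R ^ 2) M (by nlinarith) (by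
    intro x hx y hy hne
    have : ∃ q ∈ P, x q ≠ y q := by
      by_contra hc
      push Not at hc
      apply hne
      funext p
      by_cases hp : p ∈ P
      · exact hc p hp
      · rw [hX2 x hx p hp, hX2 y hy p hp]
    obtain ⟨q, hq, hxy⟩ := this
    exact sep P hP x y (hX1 x hx) (hX1 y hy) R (hXR x hx) (hXR y hy) q hq hxy)
    (fun n => if n ∈ A then (1 : ℂ) else 0)
  have h2 : ∑ n ∈ Icc 1 M, ‖(if n ∈ A then (1 : ℂ) else 0)‖ ^ 2 = A.card := by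
    have : ∀ n ∈ Icc 1 M, ‖(if n ∈ A then (1 : ℂ) else 0)‖ ^ 2 = if n ∈ A then (1 : ℝ) else 0 := by
      intro n _
      split_ifs <;> simp
    rw [sum_congr rfl this, ← sum_filter, filter_mem_eq_inter, inter_eq_right.2 hA]
    simp
  rw [h2] at h1
  have h3 : ∀ x : ℕ → ℕ, ∑ n ∈ Icc 1 M, (if n ∈ A then (1 : ℂ) else 0) * ee ((n : ℝ) * xi P x) =
      ∑ a ∈ A, ee ((a : ℝ) * xi P x) := by
    intro x
    have : ∀ n ∈ Icc 1 M, (if n ∈ A then (1 : ℂ) else 0) * ee ((n : ℝ) * xi P x) =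
        if n ∈ A then ee ((n : ℝ) * xi P x) else 0 := by
      intro n _
      split_ifs <;> simp
    rw [sum_congr rfl this, ← sum_filter, filter_mem_eq_inter, inter_eq_right.2 hA]
  simp only [h3] at h1
  unfold En
  refine h1.trans (le_of_eq ?_)
  push_cast
  rfl

end Pool.Agent.H14.VC
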