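import Pool.Agent.H14.VC.Rough

/-!
# Linear forms at shifted differences, power saving (helper14)
-/

set_option autoImplicit false

namespace Pool.Agent.H14.VC

open Finset Polynomial
open Pool.Agent.H14.SK (rho AP omega_le unif_shift PV)

lemma lin_coeff (a b Y : ℤ) (ha : |a| ≤ Y) (hb : |b| ≤ Y) (i : ℕ) : |(C a * X + C b : ℤ[X]).coeff i| ≤ Y := by
  have hY : 0 ≤ Y := (abs_nonneg _).trans ha
  have e : (C a * X + C b : ℤ[X]).coeff i = if i = 1 then a else if i = 0 then b else 0 := by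
    simp only [coeff_add, coeff_C_mul, coeff_X, coeff_C]
    rcases i with _ | _ | i
    · simp
    · simp
    · simp
  rw [e]
  split_ifs
  · exact ha
  · exact hb
  · rw [abs_zero]
    exact hY

lemma lin_eval (a b n : ℤ) : (C a * X + C b : ℤ[X]).eval n = a * n + b := by simp

open Classical in
/-- **Linear forms at shifted differences, power saving.** -/
theorem lin_vc (K : ℕ) (θ : ℝ) (hθ : 0 < θ) (hθ1 : θ ≤ 1) : ∃ κ : ℝ, 0 < κ ∧ κ ≤ 1 ∧ ∀ B : ℕ, ∃ r : ℕ,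
    ∀ ε : ℝ, 0 < ε → ∃ N₀ : ℕ,
    ∀ N : ℕ, N₀ ≤ N → ∀ a b : Fin K → ℤ, (∀ i, |a i| ≤ (N : ℤ) ^ B ∧ |b i| ≤ (N : ℤ) ^ B) →
    (∀ p : ℕ, p.Prime → ∃ n : ℤ, ∀ i, ¬ (p : ℤ) ∣ a i * n + b i) →
    ∃ h : ℕ, 0 < h ∧ (h : ℝ) ≤ (N : ℝ) ^ θ ∧
    ∀ (u : ℕ) (A : Finset ℕ), A ⊆ Ioc u (u + N) → (N : ℝ) ^ (1 - κ) ≤ A.card →
      (A.card : ℝ) ^ 2 * (N : ℝ) ^ (-ε) ≤
        ((A ×ˢ A).filter (fun x : ℕ × ℕ => x.1 < x.2 ∧ ∀ i,
          AP ((N : ℝ) ^ κ) r (a i * ((x.2 : ℤ) - x.1 + h) + b i) ∧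
          AP ((N : ℝ) ^ κ) r (a i * (h - ((x.2 : ℤ) - x.1)) + b i))).card := by
  obtain ⟨κ, hκ, hκ1, h1⟩ := sys_vc K K θ hθ hθ1
  refine ⟨κ, hκ, hκ1, ?_⟩
  intro B
  obtain ⟨r, hr⟩ := h1 B
  refine ⟨r, ?_⟩
  intro ε hε
  obtain ⟨N₀, hN₀⟩ := hr ε hε
  refine ⟨N₀, ?_⟩
  intro N hN a b hab hadm
  obtain ⟨h, hh0, hh1, _, hA⟩ := hN₀ N hN (fun i => C (a i) * X + C (b i))
    (by
      refine (sum_le_sum (g := fun _ => 1) fun i _ => natDegree_linear_le).trans ?_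
      simp)
    (fun i j => lin_coeff _ _ _ (hab i).1 (hab i).2 j)
    (by
      intro p hp
      obtain ⟨n, hn⟩ := hadm p hp
      refine ⟨n, fun i => ?_⟩
      rw [lin_eval]
      exact hn i)
  refine ⟨h, hh0, hh1, ?_⟩
  intro u A hAu hcard
  refine (hA u A hAu hcard).trans ?_
  apply Nat.cast_le.2
  apply card_le_card
  intro x hx
  rw [mem_filter] at hx ⊢
  refine ⟨hx.1, hx.2.1, fun i => ?_⟩
  have h3 := hx.2.2 i
  rw [lin_eval, lin_eval] at h3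
  have e1 : a i * ((h : ℤ) + ((x.2 : ℤ) - x.1)) + b i = a i * ((x.2 : ℤ) - x.1 + h) + b i := by ring
  rw [e1] at h3
  exact h3

/-- admissibility of the pair of forms `x + c`, `S - c - x` for even `S` -/
lemma sum_adm (S c : ℤ) (hS : (2 : ℤ) ∣ S) (p : ℕ) (hp : p.Prime) :
    ∃ n : ℤ, ∀ i : Fin 2, ¬ (p : ℤ) ∣ (![1, -1] : Fin 2 → ℤ) i * n + (![c, S - c] : Fin 2 → ℤ) i := by
  have hcore : ∃ m : ℤ, ¬ (p : ℤ) ∣ m ∧ ¬ (p : ℤ) ∣ S - m := by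
    by_cases hpS : (p : ℤ) ∣ S
    · refine ⟨1, ?_, ?_⟩
      · intro h
        have := Int.natAbs_dvd_natAbs.2 h
        simp at this
        exact hp.one_lt.ne' this
      · intro h
        have h2 := dvd_sub hpS h
        rw [sub_sub_cancel] at h2
        have := Int.natAbs_dvd_natAbs.2 h2
        simp at this
        exact hp.one_lt.ne' this
    · by_cases hp1 : (p : ℤ) ∣ S - 1
      · -- then `S ≡ 1`, take `m = 2`
        refine ⟨2, ?_, ?_⟩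
        · intro h
          exact hpS (h.trans hS)
        · intro h
          have h2 := dvd_sub hp1 h
          have e : S - 1 - (S - 2) = 1 := by ring
          rw [e] at h2
          have := Int.natAbs_dvd_natAbs.2 h2
          simp at this
          exact hp.one_lt.ne' this
      · refine ⟨1, ?_, hp1⟩
        intro h
        have := Int.natAbs_dvd_natAbs.2 h
        simp at this
        exact hp.one_lt.ne' this
  obtain ⟨m, hm1, hm2⟩ := hcore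
  refine ⟨m - c, ?_⟩
  intro i
  fin_cases i
  · change ¬ (p : ℤ) ∣ 1 * (m - c) + c
    have e : (1 : ℤ) * (m - c) + c = m := by ring
    rwa [e]
  · change ¬ (p : ℤ) ∣ -1 * (m - c) + (S - c)
    have e : (-1 : ℤ) * (m - c) + (S - c) = S - m := by ring
    rwa [e]

lemma AP_mono {y y' : ℝ} {r : ℕ} {m : ℤ} (h : y' ≤ y) (hm : AP y r m) : AP y' r m :=
  ⟨fun p hp hd => lt_of_le_of_lt h (hm.1 p hp hd), hm.2⟩

open Classical in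
/-- **Pairs with a given even sum at shifted differences, power saving.** -/
theorem sum_vc (θ : ℝ) (hθ : 0 < θ) (hθ1 : θ ≤ 1) : ∃ κ : ℝ, 0 < κ ∧ κ ≤ 1 ∧ ∀ B : ℕ, ∃ r : ℕ,
    ∀ ε : ℝ, 0 < ε → ∃ M₀ : ℕ,
    ∀ M : ℕ, M₀ ≤ M → ∀ S c : ℤ, (2 : ℤ) ∣ S → |c| ≤ (M : ℤ) ^ B → |S - c| ≤ (M : ℤ) ^ B →
    ∃ h : ℕ, (h : ℝ) ≤ (M : ℝ) ^ θ ∧
    ∀ (v : ℕ) (A : Finset ℕ), A ⊆ Ioc v (v + M) → (M : ℝ) ^ (1 - κ) ≤ A.card →
      (A.card : ℝ) ^ 2 * (M : ℝ) ^ (-ε) ≤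
        ((A ×ˢ A).filter (fun x : ℕ × ℕ => x.1 < x.2 ∧
          AP ((M : ℝ) ^ κ) r (c + ((x.2 : ℤ) - x.1 + h)) ∧
          AP ((M : ℝ) ^ κ) r (S - (c + ((x.2 : ℤ) - x.1 + h))))).card := by
  obtain ⟨κ, hκ, hκ1, h1⟩ := lin_vc 2 θ hθ hθ1
  refine ⟨κ, hκ, hκ1, ?_⟩
  intro B
  obtain ⟨r, hr⟩ := h1 B
  refine ⟨r, ?_⟩
  intro ε hε
  obtain ⟨N₀, hN₀⟩ := hr ε hε
  refine ⟨max N₀ 1, ?_⟩
  intro M hM S c hS hc hSc
  have hM1 : 1 ≤ M := (le_max_right _ _).trans hM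
  have h1B : (1 : ℤ) ≤ (M : ℤ) ^ B := one_le_pow₀ (by exact_mod_cast hM1)
  obtain ⟨h, _, hh1, hA⟩ := hN₀ M ((le_max_left _ _).trans hM) ![1, -1] ![c, S - c]
    (by
      intro i
      fin_cases i
      · exact ⟨by simpa using h1B, hc⟩
      · exact ⟨by simpa using h1B, hSc⟩)
    (sum_adm S c hS)
  refine ⟨h, hh1, ?_⟩
  intro v A hAu hcard
  refine (hA v A hAu hcard).trans ?_
  apply Nat.cast_le.2
  apply card_le_card
  intro x hx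
  rw [mem_filter] at hx ⊢
  refine ⟨hx.1, hx.2.1, ?_, ?_⟩
  · have h3 := (hx.2.2 0).1
    have e1 : (![1, -1] : Fin 2 → ℤ) 0 * ((x.2 : ℤ) - x.1 + h) + (![c, S - c] : Fin 2 → ℤ) 0 =
        c + ((x.2 : ℤ) - x.1 + h) := by
      simp
      ring
    rwa [e1] at h3
  · have h3 := (hx.2.2 1).1
    have e1 : (![1, -1] : Fin 2 → ℤ) 1 * ((x.2 : ℤ) - x.1 + h) + (![c, S - c] : Fin 2 → ℤ) 1 =
        S - (c + ((x.2 : ℤ) - x.1 + h)) := by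
      simp
      ring
    rwa [e1] at h3

open Classical in
/-- **Pairs in short windows `M ≥ N ^ η`, all quantities measured by `N`.** -/
theorem sum_vc_win (θ η : ℝ) (hθ : 0 < θ) (hθ1 : θ ≤ 1) (hη : 0 < η) (D : ℕ) : ∃ (κ : ℝ) (r : ℕ), 0 < κ ∧
    ∀ ε : ℝ, 0 < ε → ∃ N₀ : ℕ,
    ∀ N M : ℕ, N₀ ≤ N → (N : ℝ) ^ η ≤ M → ∀ S c : ℤ, (2 : ℤ) ∣ S → |c| ≤ (N : ℤ) ^ D → |S - c| ≤ (N : ℤ) ^ D →
    ∃ h : ℕ, (h : ℝ) ≤ (M : ℝ) ^ θ ∧
    ∀ (v : ℕ) (A : Finset ℕ), A ⊆ Ioc v (v + M) → (M : ℝ) ^ (1 - κ) ≤ A.card →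
      (A.card : ℝ) ^ 2 * (M : ℝ) ^ (-ε) ≤
        ((A ×ˢ A).filter (fun x : ℕ × ℕ => x.1 < x.2 ∧
          AP ((N : ℝ) ^ κ) r (c + ((x.2 : ℤ) - x.1 + h)) ∧
          AP ((N : ℝ) ^ κ) r (S - (c + ((x.2 : ℤ) - x.1 + h))))).card := by
  obtain ⟨κ, hκ, hκ1, h1⟩ := sum_vc θ hθ hθ1
  obtain ⟨B, hB⟩ : ∃ B : ℕ, D / η ≤ B := exists_nat_ge _
  obtain ⟨r, hr⟩ := h1 B
  refine ⟨min κ (η * κ), r, by positivity, ?_⟩
  intro ε hε
  obtain ⟨M₀, hM₀⟩ := hr ε hε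
  obtain ⟨N₂, hN₂⟩ := Filter.eventually_atTop.1
    (((tendsto_rpow_atTop hη).comp tendsto_natCast_atTop_atTop).eventually_ge_atTop ((max M₀ 1 : ℕ) : ℝ))
  refine ⟨max N₂ 1, ?_⟩
  intro N M hN hM S c hS hc hSc
  have hN1 : 1 ≤ N := (le_max_right _ _).trans hN
  have hN1R : (1 : ℝ) ≤ N := by exact_mod_cast hN1
  have hM1 : ((max M₀ 1 : ℕ) : ℝ) ≤ M := (hN₂ N ((le_max_left _ _).trans hN)).trans hM
  have hM2 : max M₀ 1 ≤ M := by exact_mod_cast hM1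
  have hM3 : (1 : ℝ) ≤ M := by exact_mod_cast (le_max_right _ _).trans hM2
  have hDB : (N : ℤ) ^ D ≤ (M : ℤ) ^ B := by
    have : (N : ℝ) ^ D ≤ (M : ℝ) ^ B := by
      rw [div_le_iff₀ hη] at hB
      calc (N : ℝ) ^ D = (N : ℝ) ^ (D : ℝ) := (Real.rpow_natCast _ _).symm
        _ ≤ (N : ℝ) ^ (η * B) := Real.rpow_le_rpow_of_exponent_le hN1R (by linarith)
        _ = ((N : ℝ) ^ η) ^ B := by rw [Real.rpow_mul (by linarith), Real.rpow_natCast]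
        _ ≤ (M : ℝ) ^ B := by
            apply pow_le_pow_left₀ (by positivity) hM
    exact_mod_cast this
  obtain ⟨h, hh1, hA⟩ := hM₀ M ((le_max_left _ _).trans hM2) S c hS (hc.trans hDB) (hSc.trans hDB)
  refine ⟨h, hh1, ?_⟩
  intro v A hAu hcard
  have hcard' : (M : ℝ) ^ (1 - κ) ≤ A.card := by
    refine le_trans ?_ hcard
    apply Real.rpow_le_rpow_of_exponent_le hM3
    have := min_le_left κ (η * κ)
    linarith
  refine (hA v A hAu hcard').trans ?_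
  have hNM : (N : ℝ) ^ min κ (η * κ) ≤ (M : ℝ) ^ κ := by
    calc (N : ℝ) ^ min κ (η * κ) ≤ (N : ℝ) ^ (η * κ) :=
          Real.rpow_le_rpow_of_exponent_le hN1R (min_le_right _ _)
      _ = ((N : ℝ) ^ η) ^ κ := by rw [Real.rpow_mul (by linarith)]
      _ ≤ (M : ℝ) ^ κ := Real.rpow_le_rpow (by positivity) hM hκ.le
  apply Nat.cast_le.2
  apply card_le_card
  intro x hx
  rw [mem_filter] at hx ⊢
  exact ⟨hx.1, hx.2.1, AP_mono hNM hx.2.2.1, AP_mono hNM hx.2.2.2⟩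

end Pool.Agent.H14.VC
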