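import Pool.Agent.H14.VC.Abs

/-!
# Differences of sets with a power saving: the theorem for symmetric and for arbitrary conditions (helper14)
-/

set_option autoImplicit false

namespace Pool.Agent.H14.VC

open Finset

lemma PS_upper (A P : Finset ℕ) (L g D E : ℝ) (T : ℕ → ℤ → Prop) (hE : 0 ≤ E)
    (h0 : |Lam P L g T 0| ≤ D)
    (h1 : ∀ n : ℤ, n ≠ 0 → (∃ a ∈ A, ∃ b ∈ A, n = (b : ℤ) - a) → (∀ q ∈ P, ¬ T q n) → |Lam P L g T n| ≤ E)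
    (S : Finset (ℕ × ℕ)) (hS : ∀ a b : ℕ, (a, b) ∈ S ↔ (a ∈ A ∧ b ∈ A) ∧ a ≠ b ∧ ∀ q ∈ P, ¬ T q ((b : ℤ) - a)) :
    PS A (wt P L g T) ≤ D ^ 2 * A.card + E ^ 2 * S.card := by
  classical
  have hwt : ∀ n : ℤ, wt P L g T n ≤ if (∀ q ∈ P, ¬ T q n) then |Lam P L g T n| ^ 2 else 0 := by
    intro n
    unfold wt
    split_ifs with h
    · have : ∑ q ∈ P, (if T q n then (1 : ℝ) else 0) = 0 := by
        apply sum_eq_zero
        intro q hq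
        rw [if_neg (h q hq)]
      rw [this, sub_zero, mul_one, sq_abs]
    · push Not at h
      obtain ⟨q, hq, hT⟩ := h
      have : (1 : ℝ) ≤ ∑ q ∈ P, (if T q n then (1 : ℝ) else 0) := by
        have h2 : (if T q n then (1 : ℝ) else 0) ≤ ∑ q ∈ P, (if T q n then (1 : ℝ) else 0) := by
          apply single_le_sum (f := fun q => if T q n then (1 : ℝ) else 0) _ hq
          intro i _
          positivity
        rw [if_pos hT] at h2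
        exact h2
      have := sq_nonneg (Lam P L g T n)
      nlinarith
  have hpt : ∀ a ∈ A, ∀ b ∈ A, wt P L g T ((b : ℤ) - a) ≤ (if a = b then D ^ 2 else 0) +
      (if (a, b) ∈ S then E ^ 2 else 0) := by
    intro a ha b hb
    refine (hwt _).trans ?_
    by_cases hab : a = b
    · subst hab
      rw [if_pos rfl, if_neg (fun h => ((hS a a).1 h).2.1 rfl), add_zero, sub_self]
      split_ifs
      · exact pow_le_pow_left₀ (abs_nonneg _) h0 2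
      · positivity
    · rw [if_neg hab, zero_add]
      by_cases hg : ∀ q ∈ P, ¬ T q ((b : ℤ) - a)
      · rw [if_pos hg, if_pos ((hS a b).2 ⟨⟨ha, hb⟩, hab, hg⟩)]
        apply pow_le_pow_left₀ (abs_nonneg _)
        apply h1 _ _ ⟨a, ha, b, hb, rfl⟩ hg
        intro h
        apply hab
        omega
      · rw [if_neg hg, if_neg (fun h => hg ((hS a b).1 h).2.2)]
  unfold PS
  refine (sum_le_sum fun a ha => sum_le_sum fun b hb => hpt a ha b hb).trans ?_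
  rw [sum_congr rfl fun a _ => sum_add_distrib, sum_add_distrib]
  apply add_le_add
  · have : ∀ a ∈ A, ∑ b ∈ A, (if a = b then D ^ 2 else 0) = D ^ 2 := by
      intro a ha
      rw [sum_ite_eq A a, if_pos ha]
    rw [sum_congr rfl this, sum_const, nsmul_eq_mul, mul_comm]
  · have hsub : S ⊆ A ×ˢ A := by
      rintro ⟨a, b⟩ h
      exact mem_product.2 ((hS a b).1 h).1
    have h2 := sum_product A A (fun ab : ℕ × ℕ => if ab ∈ S then E ^ 2 else 0)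
    rw [← h2, ← sum_filter, filter_mem_eq_inter, inter_eq_right.2 hsub, sum_const, nsmul_eq_mul, mul_comm]

/-- unordered versus ordered pairs -/
lemma half_pairs (A : Finset ℕ) (Q : ℤ → Prop) (hQ : ∀ n, Q n ↔ Q (-n)) (S1 S2 : Finset (ℕ × ℕ))
    (hS1 : ∀ a b : ℕ, (a, b) ∈ S1 ↔ (a ∈ A ∧ b ∈ A) ∧ a ≠ b ∧ Q ((b : ℤ) - a))
    (hS2 : ∀ a b : ℕ, (a, b) ∈ S2 ↔ (a ∈ A ∧ b ∈ A) ∧ a < b ∧ Q ((b : ℤ) - a)) : S1.card = 2 * S2.card := by
  classical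
  have e1 : S1 = (A ×ˢ A).filter (fun ab : ℕ × ℕ => ab.1 ≠ ab.2 ∧ Q ((ab.2 : ℤ) - ab.1)) := by
    ext ⟨a, b⟩
    rw [hS1, mem_filter, mem_product]
  have e2 : S2 = (A ×ˢ A).filter (fun ab : ℕ × ℕ => ab.1 < ab.2 ∧ Q ((ab.2 : ℤ) - ab.1)) := by
    ext ⟨a, b⟩
    rw [hS2, mem_filter, mem_product]
  rw [e1, e2]
  have h1 : (A ×ˢ A).filter (fun ab : ℕ × ℕ => ab.1 ≠ ab.2 ∧ Q ((ab.2 : ℤ) - ab.1)) =
      (A ×ˢ A).filter (fun ab : ℕ × ℕ => ab.1 < ab.2 ∧ Q ((ab.2 : ℤ) - ab.1)) ∪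
      (A ×ˢ A).filter (fun ab : ℕ × ℕ => ab.2 < ab.1 ∧ Q ((ab.2 : ℤ) - ab.1)) := by
    ext ⟨a, b⟩
    simp only [mem_union, mem_filter, mem_product]
    constructor
    · rintro ⟨hA, hne, hq⟩
      rcases lt_or_gt_of_ne hne with h | h
      · exact Or.inl ⟨hA, h, hq⟩
      · exact Or.inr ⟨hA, h, hq⟩
    · rintro (⟨hA, h, hq⟩ | ⟨hA, h, hq⟩)
      · exact ⟨hA, h.ne, hq⟩
      · exact ⟨hA, h.ne', hq⟩
  have h2 : ((A ×ˢ A).filter (fun ab : ℕ × ℕ => ab.2 < ab.1 ∧ Q ((ab.2 : ℤ) - ab.1))).card =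
      ((A ×ˢ A).filter (fun ab : ℕ × ℕ => ab.1 < ab.2 ∧ Q ((ab.2 : ℤ) - ab.1))).card := by
    apply card_bij (fun ab _ => (ab.2, ab.1))
    · rintro ⟨a, b⟩ h
      simp only [mem_filter, mem_product] at h ⊢
      refine ⟨⟨h.1.2, h.1.1⟩, h.2.1, ?_⟩
      rw [hQ, neg_sub]
      exact h.2.2
    · rintro ⟨a, b⟩ _ ⟨c, d⟩ _ h
      simp only [Prod.mk.injEq] at h
      rw [Prod.mk.injEq]
      exact ⟨h.2, h.1⟩
    · rintro ⟨a, b⟩ h
      simp only [mem_filter, mem_product] at h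
      refine ⟨(b, a), ?_, rfl⟩
      simp only [mem_filter, mem_product]
      refine ⟨⟨h.1.2, h.1.1⟩, h.2.1, ?_⟩
      rw [hQ, neg_sub]
      exact h.2.2
  rw [h1, card_union_of_disjoint, h2, two_mul]
  rw [disjoint_left]
  rintro ⟨a, b⟩ h h'
  simp only [mem_filter] at h h'
  omega

open Classical in
/-- **Symmetric conditions, sets in `[1, M]`.** -/
theorem sym (g : ℕ) (hg : 1 ≤ g) : ∃ κ : ℝ, 0 < κ ∧ κ ≤ 1 ∧ ∀ ε : ℝ, 0 < ε → ∃ M₀ : ℕ, ∀ M : ℕ, M₀ ≤ M →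
    ∀ T : ℕ → ℤ → Prop, (∀ p : ℕ, ∀ n m : ℤ, (p : ℤ) ∣ n - m → (T p n ↔ T p m)) →
      (∀ p : ℕ, ∀ n : ℤ, T p n ↔ T p (-n)) →
      (∀ p : ℕ, p.Prime → (p : ℝ) ≤ (M : ℝ) ^ κ → ¬ T p 0) →
      (∀ p : ℕ, p.Prime → (p : ℝ) ≤ (M : ℝ) ^ κ → ((range p).filter (fun r : ℕ => T p r)).card ≤ g) →
      ∀ A ⊆ Icc 1 M, (M : ℝ) ^ (1 - κ) ≤ A.card →
        (A.card : ℝ) ^ 2 * (M : ℝ) ^ (-ε) ≤
          ((A ×ˢ A).filter (fun ab : ℕ × ℕ => ab.1 < ab.2 ∧ Gp T ((M : ℝ) ^ κ) ((ab.2 : ℤ) - ab.1))).card := by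
  obtain ⟨s, z₀, hs, hz₀, H⟩ := total g hg
  obtain ⟨E, hE⟩ : ∃ E : ℕ, E = 4 * s + 2 + 8 * s * (g + 1) := ⟨_, rfl⟩
  have hE2 : 2 ≤ E := by omega
  have hE0 : (0 : ℝ) < E := by exact_mod_cast (by omega : 0 < E)
  have hE2R : (2 : ℝ) ≤ E := by exact_mod_cast hE2
  set κ : ℝ := 1 / (2 * E) with hκ
  have hκ0 : 0 < κ := by positivity
  have hκ1 : κ ≤ 1 / 4 := by
    rw [hκ]
    apply one_div_le_one_div_of_le (by norm_num)
    linarith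
  refine ⟨κ, hκ0, by linarith, ?_⟩
  intro ε hε
  obtain ⟨C, hC1, hC⟩ := omega_bound g (ε / 4) (by positivity)
  obtain ⟨M₁, hM₁⟩ := exists_nat_ge ((768 : ℝ) ^ (1 / κ))
  obtain ⟨M₂, hM₂⟩ := exists_nat_ge ((32 * C ^ 2 : ℝ) ^ (2 / ε))
  obtain ⟨M₃, hM₃⟩ := exists_nat_ge ((z₀ : ℝ) ^ (1 / κ))
  refine ⟨max (max M₁ M₂) (max M₃ 3), ?_⟩
  intro M hM T per even h0 hρ A hA hAc
  have hMM1 : M₁ ≤ M := (le_max_left _ _).trans ((le_max_left _ _).trans hM)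
  have hMM2 : M₂ ≤ M := (le_max_right _ _).trans ((le_max_left _ _).trans hM)
  have hMM3 : M₃ ≤ M := (le_max_left _ _).trans ((le_max_right _ _).trans hM)
  have hM3 : 3 ≤ M := (le_max_right _ _).trans ((le_max_right _ _).trans hM)
  have hMpos : (0 : ℝ) < M := by exact_mod_cast (by omega : 0 < M)
  have hM1 : (1 : ℝ) ≤ M := by exact_mod_cast (by omega : 1 ≤ M)
  -- sizes
  have hpow : ∀ (c : ℝ) (N : ℕ) (t : ℝ), 0 ≤ c → 0 < t → c ^ (1 / t) ≤ N → N ≤ M → c ≤ (M : ℝ) ^ t := by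
    intro c N t hc ht h1 h2
    have h3 : c ^ (1 / t) ≤ (M : ℝ) := h1.trans (by exact_mod_cast h2)
    calc c = (c ^ (1 / t)) ^ t := by rw [← Real.rpow_mul hc, one_div_mul_cancel ht.ne', Real.rpow_one]
      _ ≤ _ := Real.rpow_le_rpow (by positivity) h3 ht.le
  have hs1 : (768 : ℝ) ≤ (M : ℝ) ^ κ := hpow 768 M₁ κ (by norm_num) hκ0 hM₁ hMM1
  have hs2 : 32 * C ^ 2 ≤ (M : ℝ) ^ (ε / 2) := by
    apply hpow _ M₂ (ε / 2) (by positivity) (by positivity) _ hMM2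
    have : 1 / (ε / 2) = 2 / ε := by field_simp
    rw [this]
    exact hM₂
  have hs3 : (z₀ : ℝ) ≤ (M : ℝ) ^ κ := hpow _ M₃ κ (Nat.cast_nonneg _) hκ0 hM₃ hMM3
  -- the sieving level
  obtain ⟨z, hz⟩ : ∃ z : ℕ, z = ⌊(M : ℝ) ^ (2 * κ)⌋₊ := ⟨_, rfl⟩
  have hκE : 2 * κ * E = 1 := by rw [hκ]; field_simp
  have h2κ : (M : ℝ) ^ (2 * κ) = (M : ℝ) ^ κ * (M : ℝ) ^ κ := by
    rw [← Real.rpow_add hMpos]; congr 1; ring
  have hzle : (z : ℝ) ≤ (M : ℝ) ^ (2 * κ) := by rw [hz]; exact Nat.floor_le (by positivity)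
  have hzgt : (M : ℝ) ^ (2 * κ) < z + 1 := by rw [hz]; exact Nat.lt_floor_add_one _
  have hzκ : (M : ℝ) ^ κ ≤ z := by nlinarith
  have hzhalf : (M : ℝ) ^ (2 * κ) / 2 ≤ z := by nlinarith
  have hz0 : (0 : ℝ) < z := by linarith
  have hzz₀ : z₀ ≤ z := by exact_mod_cast hs3.trans hzκ
  have hz3 : 3 ≤ z := hz₀.trans hzz₀
  have hzE : (z : ℝ) ^ E ≤ M := by
    calc (z : ℝ) ^ E ≤ ((M : ℝ) ^ (2 * κ)) ^ E := pow_le_pow_left₀ hz0.le hzle E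
      _ = M := by rw [← Real.rpow_natCast, ← Real.rpow_mul hMpos.le, hκE, Real.rpow_one]
  have hz1 : (1 : ℝ) ≤ z := by exact_mod_cast (by omega : 1 ≤ z)
  -- the truncated conditions
  obtain ⟨T', hT'⟩ : ∃ T' : ℕ → ℤ → Prop, ∀ p n, T' p n ↔ (T p n ∧ (p : ℝ) ≤ (M : ℝ) ^ κ) :=
    ⟨fun p n => T p n ∧ (p : ℝ) ≤ (M : ℝ) ^ κ, fun _ _ => Iff.rfl⟩
  have per' : ∀ p : ℕ, ∀ n m : ℤ, (p : ℤ) ∣ n - m → (T' p n ↔ T' p m) := by
    intro p n m h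
    rw [hT', hT', per p n m h]
  have even' : ∀ p : ℕ, ∀ n : ℤ, T' p n ↔ T' p (-n) := by
    intro p n
    rw [hT', hT', ← even p n]
  have h0' : ∀ p ∈ Pz z, ¬ T' p 0 := by
    intro p hp h
    obtain ⟨h1, h2⟩ := (hT' _ _).1 h
    exact h0 p (mem_filter.1 hp).2 h2 h1
  have hρ' : ∀ p ∈ Pz z, ((range p).filter (fun r : ℕ => T' p r)).card ≤ g := by
    intro p hp
    by_cases h : (p : ℝ) ≤ (M : ℝ) ^ κ
    · refine le_trans (card_le_card ?_) (hρ p (mem_filter.1 hp).2 h)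
      intro r hr
      rw [mem_filter] at hr ⊢
      exact ⟨hr.1, ((hT' _ _).1 hr.2).1⟩
    · have : (range p).filter (fun r : ℕ => T' p r) = ∅ := by
        apply filter_false_of_mem
        intro r _ hr
        exact h ((hT' _ _).1 hr).2
      rw [this]
      simp
  have hMz : z ^ (4 * s + 2) ≤ M := by
    have : z ^ (4 * s + 2) ≤ z ^ E := Nat.pow_le_pow_right (by omega) (by omega)
    have h2 : z ^ E ≤ M := by exact_mod_cast hzE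
    exact this.trans h2
  have hlow := H z hzz₀ M hMz T' per' even' h0' hρ' A hA
  -- upper bounds
  have hlz : 0 < Real.log z := Real.log_pos (by exact_mod_cast (by omega : 1 < z))
  have hs0 : (0 : ℝ) < s := by exact_mod_cast hs
  have hL : 0 < s * Real.log z := by positivity
  have hL0 := Lam_zero z s g (by omega) hs T' h0'
  have hup := PS_upper A (Pz z) (s * Real.log z) g ((z : ℝ) ^ (s * (g + 1))) (C * (M : ℝ) ^ (ε / 4)) T'
    (by positivity) (by rw [abs_of_nonneg hL0.1]; exact hL0.2) (by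
      rintro n hn ⟨a, ha, b, hb, hnab⟩ hgood
      have h1 := Lam_nonneg_le (Pz z) (s * Real.log z) g hL (Nat.cast_nonneg g) T' n hgood
      rw [abs_of_nonneg h1.1]
      refine h1.2.trans ((hC (Pz z) (fun p hp => (mem_filter.1 hp).2) n hn).trans ?_)
      apply mul_le_mul_of_nonneg_left _ (by linarith)
      apply Real.rpow_le_rpow (by positivity) _ (by positivity)
      have h2 : |n| ≤ (M : ℤ) := by
        have h3 := mem_Icc.1 (hA ha)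
        have h4 := mem_Icc.1 (hA hb)
        rw [hnab, abs_le]
        constructor <;> omega
      exact_mod_cast h2)
  -- the number of pairs
  obtain ⟨S1, hS1⟩ : ∃ S1 : Finset (ℕ × ℕ), ∀ a b : ℕ, (a, b) ∈ S1 ↔ (a ∈ A ∧ b ∈ A) ∧ a ≠ b ∧
      ∀ q ∈ Pz z, ¬ T' q ((b : ℤ) - a) :=
    ⟨(A ×ˢ A).filter (fun ab : ℕ × ℕ => ab.1 ≠ ab.2 ∧ ∀ q ∈ Pz z, ¬ T' q ((ab.2 : ℤ) - ab.1)),
      fun a b => by rw [mem_filter, mem_product]⟩
  specialize hup S1 hS1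
  set Nn := S1.card with hNn
  have hgood_iff : ∀ n : ℤ, (∀ q ∈ Pz z, ¬ T' q n) ↔ Gp T ((M : ℝ) ^ κ) n := by
    intro n
    constructor
    · intro h p hp hpM hT
      refine h p ?_ ((hT' _ _).2 ⟨hT, hpM⟩)
      rw [mem_filter, mem_Icc]
      exact ⟨⟨hp.pos, by exact_mod_cast hpM.trans hzκ⟩, hp⟩
    · intro h q hq h'
      obtain ⟨h1, h2⟩ := (hT' _ _).1 h'
      exact h q (mem_filter.1 hq).2 h2 h1
  have hNn2 : Nn = 2 * ((A ×ˢ A).filter (fun ab : ℕ × ℕ => ab.1 < ab.2 ∧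
      Gp T ((M : ℝ) ^ κ) ((ab.2 : ℤ) - ab.1))).card := by
    apply half_pairs A (fun n => Gp T ((M : ℝ) ^ κ) n)
    · intro n
      unfold Gp
      simp only [← even _ n]
    · intro a b
      rw [hS1, hgood_iff]
    · intro a b
      rw [mem_filter, mem_product]
  set N1 := ((A ×ˢ A).filter (fun ab : ℕ × ℕ => ab.1 < ab.2 ∧
      Gp T ((M : ℝ) ^ κ) ((ab.2 : ℤ) - ab.1))).card with hN1
  have hNR0 : (Nn : ℝ) = 2 * (N1 : ℝ) := by exact_mod_cast hNn2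
  clear_value Nn
  clear_value N1
  have hNR : (Nn : ℝ) = 2 * (N1 : ℝ) := hNR0
  obtain ⟨a, ha⟩ : ∃ a : ℝ, a = A.card := ⟨_, rfl⟩
  have ha0 : 0 ≤ a := by rw [ha]; exact Nat.cast_nonneg _
  rw [← ha] at hlow hup hAc ⊢
  rw [hNR] at hup
  have hMκ0 : 0 < (M : ℝ) ^ κ := by positivity
  have hM1κ : (M : ℝ) = (M : ℝ) ^ (1 - κ) * (M : ℝ) ^ κ := by
    rw [← Real.rpow_add hMpos, sub_add_cancel, Real.rpow_one]
  have hA1 : 12 * (M : ℝ) * a / z ≤ a ^ 2 / 32 := by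
    rw [div_le_div_iff₀ hz0 (by norm_num)]
    have h1 : 384 * (M : ℝ) ≤ a * z := by
      have h2 : (M : ℝ) ^ (1 - κ) * ((M : ℝ) ^ (2 * κ) / 2) ≤ a * z := by
        apply mul_le_mul hAc hzhalf (by positivity) ha0
      have h3 : (M : ℝ) ^ (1 - κ) * ((M : ℝ) ^ (2 * κ) / 2) = M * (M : ℝ) ^ κ / 2 := by
        rw [h2κ]
        nth_rewrite 4 [hM1κ]
        ring
      rw [h3] at h2
      nlinarith
    nlinarith
  have hA2 : ((z : ℝ) ^ (s * (g + 1))) ^ 2 * a ≤ a ^ 2 / 32 := by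
    have h1 : ((z : ℝ) ^ (s * (g + 1))) ^ 2 ≤ (M : ℝ) ^ (1 / 4 : ℝ) := by
      have h2 : (((z : ℝ) ^ (s * (g + 1))) ^ 2) ^ 4 ≤ M := by
        rw [← pow_mul, ← pow_mul]
        refine le_trans (pow_le_pow_right₀ hz1 ?_) hzE
        rw [hE]
        ring_nf
        omega
      calc ((z : ℝ) ^ (s * (g + 1))) ^ 2 = ((((z : ℝ) ^ (s * (g + 1))) ^ 2) ^ 4) ^ (1 / 4 : ℝ) := by
            rw [← Real.rpow_natCast (((z : ℝ) ^ (s * (g + 1))) ^ 2) 4, ← Real.rpow_mul (by positivity)]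
            norm_num
        _ ≤ _ := Real.rpow_le_rpow (by positivity) h2 (by norm_num)
    have h3 : 32 * (M : ℝ) ^ (1 / 4 : ℝ) ≤ a := by
      have h4 : (M : ℝ) ^ (1 / 4 : ℝ) * (M : ℝ) ^ κ ≤ (M : ℝ) ^ (1 - κ) := by
        rw [← Real.rpow_add hMpos]
        apply Real.rpow_le_rpow_of_exponent_le hM1
        linarith
      have : 0 < (M : ℝ) ^ (1 / 4 : ℝ) := by positivity
      nlinarith
    nlinarith
  have hfin : a ^ 2 / 16 ≤ (C * (M : ℝ) ^ (ε / 4)) ^ 2 * (2 * N1) := by linarith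
  have hMε : (M : ℝ) ^ (ε / 4) * (M : ℝ) ^ (ε / 4) = (M : ℝ) ^ (ε / 2) := by
    rw [← Real.rpow_add hMpos]; congr 1; ring
  have hfin2 : a ^ 2 ≤ 32 * C ^ 2 * ((M : ℝ) ^ (ε / 2)) * N1 := by
    calc a ^ 2 = 16 * (a ^ 2 / 16) := by ring
      _ ≤ 16 * ((C * (M : ℝ) ^ (ε / 4)) ^ 2 * (2 * N1)) := by linarith
      _ = 32 * C ^ 2 * ((M : ℝ) ^ (ε / 4) * (M : ℝ) ^ (ε / 4)) * N1 := by ring
      _ = _ := by rw [hMε]
  have hN10 : (0 : ℝ) ≤ N1 := Nat.cast_nonneg _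
  have hfin3 : a ^ 2 ≤ (M : ℝ) ^ ε * N1 := by
    calc a ^ 2 ≤ 32 * C ^ 2 * ((M : ℝ) ^ (ε / 2)) * N1 := hfin2
      _ ≤ (M : ℝ) ^ (ε / 2) * (M : ℝ) ^ (ε / 2) * N1 := by gcongr
      _ = _ := by rw [← Real.rpow_add hMpos]; congr 2; ring
  rw [Real.rpow_neg hMpos.le, ← div_eq_mul_inv, div_le_iff₀ (by positivity)]
  linarith

end Pool.Agent.H14.VC
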