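import Pool.Agent.H14.VC.Rough

/-!
# Almost prime pairs in residue classes and differences of arbitrary sets (helper14)
-/

set_option autoImplicit false

namespace Pool.Agent.H14.VC.Pair

open Finset Polynomial
open Pool.Agent.H14.SK (AP rho)
open Pool.Agent.H14.VC

/-- all prime factors of the natural number `m` are larger than `y` and there are at most `r` of them
(counted with multiplicity) -/
def AlmostPrime (y : ℝ) (r : ℕ) (m : ℕ) : Prop :=
  (∀ p : ℕ, p.Prime → p ∣ m → y < p) ∧ ArithmeticFunction.cardFactors m ≤ r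

lemma AP_nat (y : ℝ) (r m : ℕ) (z : ℤ) (hz : z = m) : AP y r z ↔ AlmostPrime y r m := by
  subst hz
  unfold AP AlmostPrime
  rw [Int.natAbs_natCast]
  simp only [Int.natCast_dvd_natCast]

/-- the pair of forms `q x + h`, `q x + h + d` -/
noncomputable def pf (q h d : ℕ) : Fin 2 → ℤ[X] := ![C (q : ℤ) * X + C (h : ℤ), C (q : ℤ) * X + C ((h : ℤ) + d)]

lemma pf_eval0 (q h d : ℕ) (n : ℤ) : (pf q h d 0).eval n = q * n + h := by
  simp [pf]

lemma pf_eval1 (q h d : ℕ) (n : ℤ) : (pf q h d 1).eval n = q * n + (h + d) := by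
  simp [pf]

lemma pf_deg (q h d : ℕ) : ∑ i, (pf q h d i).natDegree ≤ 2 := by
  rw [Fin.sum_univ_two]
  have h1 : (pf q h d 0).natDegree ≤ 1 := natDegree_linear_le
  have h2 : (pf q h d 1).natDegree ≤ 1 := natDegree_linear_le
  omega

lemma lin_coeff (a b Y : ℤ) (ha : |a| ≤ Y) (hb : |b| ≤ Y) (i : ℕ) : |(C a * X + C b : ℤ[X]).coeff i| ≤ Y := by
  have hY : 0 ≤ Y := (abs_nonneg _).trans ha
  have e : (C a * X + C b : ℤ[X]).coeff i = if i = 1 then a else if i = 0 then b else 0 := by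
    simp only [coeff_add, coeff_C_mul, coeff_X, coeff_C]
    rcases i with _ | _ | i
    · simp
    · simp
    · simp
  rw [e]
  split_ifs
  · exact ha
  · exact hb
  · rw [abs_zero]
    exact hY

lemma pf_coeff (q h d : ℕ) (Y : ℤ) (hq : (q : ℤ) ≤ Y) (hh : (h : ℤ) + d ≤ Y) (i : Fin 2) (j : ℕ) :
    |(pf q h d i).coeff j| ≤ Y := by
  have hq0 : (0 : ℤ) ≤ q := by positivity
  have hh0 : (0 : ℤ) ≤ h := by positivity
  have hd0 : (0 : ℤ) ≤ d := by positivity
  fin_cases i
  · exact lin_coeff _ _ _ (by rw [abs_of_nonneg hq0]; exact hq) (by rw [abs_of_nonneg hh0]; linarith) j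
  · exact lin_coeff _ _ _ (by rw [abs_of_nonneg hq0]; exact hq) (by rw [abs_of_nonneg (by positivity)]; exact hh) j

/-- no local obstruction in a class with `(a, q) = (a + d, q) = 1`, `d` even -/
lemma adm (q a d : ℕ) (hd : Even d) (h1 : Nat.Coprime a q) (h2 : Nat.Coprime (a + d) q) (p : ℕ) (hp : p.Prime) :
    ∃ n : ℤ, ∀ i, ¬ (p : ℤ) ∣ (pf q a d i).eval n := by
  have hpi : Prime (p : ℤ) := Nat.prime_iff_prime_int.1 hp
  by_cases hpq : p ∣ q
  · refine ⟨0, ?_⟩
    intro i
    fin_cases i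
    · intro hc
      change (p : ℤ) ∣ (pf q a d 0).eval 0 at hc
      rw [pf_eval0, mul_zero, zero_add, Int.natCast_dvd_natCast] at hc
      exact hp.one_lt.ne' (Nat.dvd_one.1 (h1 ▸ Nat.dvd_gcd hc hpq))
    · intro hc
      change (p : ℤ) ∣ (pf q a d 1).eval 0 at hc
      rw [pf_eval1, mul_zero, zero_add] at hc
      have hc' : p ∣ a + d := by exact_mod_cast hc
      exact hp.one_lt.ne' (Nat.dvd_one.1 (h2 ▸ Nat.dvd_gcd hc' hpq))
  · -- one of three consecutive arguments works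
    by_contra hall
    push Not at hall
    have hpq' : ¬ (p : ℤ) ∣ (q : ℤ) := by rwa [Int.natCast_dvd_natCast]
    -- two different arguments cannot hit the same form
    have key : ∀ (c : ℤ) (x y : ℤ), (p : ℤ) ∣ q * x + c → (p : ℤ) ∣ q * y + c → (p : ℤ) ∣ x - y := by
      intro c x y hx hy
      have h3 := dvd_sub hx hy
      have e : (q : ℤ) * x + c - (q * y + c) = q * (x - y) := by ring
      rw [e] at h3
      exact (hpi.dvd_or_dvd h3).resolve_left hpq'
    have h01 : ∀ n : ℤ, (p : ℤ) ∣ q * n + a ∨ (p : ℤ) ∣ q * n + (a + d) := by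
      intro n
      obtain ⟨i, hi⟩ := hall n
      fin_cases i
      · left
        change (p : ℤ) ∣ (pf q a d 0).eval n at hi
        rwa [pf_eval0] at hi
      · right
        change (p : ℤ) ∣ (pf q a d 1).eval n at hi
        rwa [pf_eval1] at hi
    rcases hp.eq_two_or_odd with h2' | hodd
    · subst h2'
      obtain ⟨e, he⟩ := hd
      have hsame : ∀ n : ℤ, ((2 : ℕ) : ℤ) ∣ q * n + a := by
        intro n
        rcases h01 n with h | h
        · exact h
        · have : (q : ℤ) * n + a = (q * n + (a + d)) - 2 * e := by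
            rw [he]; push_cast; ring
          rw [this]
          exact dvd_sub h (Dvd.intro (e : ℤ) (by norm_num))
      have h5 := key _ 1 0 (hsame 1) (hsame 0)
      norm_num at h5
    · have hp3 : 3 ≤ p := by
        have := hp.two_le
        rcases this.lt_or_eq with h | h
        · exact h
        · omega
      have no1 : ∀ x y : ℤ, 0 < x - y → x - y ≤ 2 → ¬ (p : ℤ) ∣ x - y := by
        intro x y h5 h6 h7
        have := Int.le_of_dvd h5 h7
        omega
      rcases h01 0 with h0 | h0 <;> rcases h01 1 with h1' | h1' <;> rcases h01 2 with h2' | h2'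
      · exact no1 1 0 (by norm_num) (by norm_num) (key _ _ _ h1' h0)
      · exact no1 1 0 (by norm_num) (by norm_num) (key _ _ _ h1' h0)
      · exact no1 2 0 (by norm_num) (by norm_num) (key _ _ _ h2' h0)
      · exact no1 2 1 (by norm_num) (by norm_num) (key _ _ _ h2' h1')
      · exact no1 2 1 (by norm_num) (by norm_num) (key _ _ _ h2' h1')
      · exact no1 2 0 (by norm_num) (by norm_num) (key _ _ _ h2' h0)
      · exact no1 1 0 (by norm_num) (by norm_num) (key _ _ _ h1' h0)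
      · exact no1 1 0 (by norm_num) (by norm_num) (key _ _ _ h1' h0)

open Classical in
/-- **Almost prime pairs `m, m + d` in classes to huge moduli, with `m = h + q (b - a)`.** -/
theorem pair_vc (θ : ℝ) (hθ : 0 < θ) : ∃ κ : ℝ, 0 < κ ∧ ∀ B : ℕ, ∃ r : ℕ, ∀ ε : ℝ, 0 < ε →
    ∃ N₀ : ℕ, ∀ N : ℕ, N₀ ≤ N →
    -- every shift `h` without small obstruction works for all differences and all moduli
    (∀ d q h : ℕ, d ≤ N ^ B → q ≤ N ^ B → h ≤ N ^ B →
      (∀ p : ℕ, p.Prime → (p : ℝ) ≤ (N : ℝ) ^ κ → ¬ p ∣ h ∧ ¬ p ∣ h + d) →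
      ∀ (u : ℕ) (A : Finset ℕ), A ⊆ Ioc u (u + N) → (N : ℝ) ^ (1 - κ) ≤ A.card →
        (A.card : ℝ) ^ 2 * (N : ℝ) ^ (-ε) ≤
          ((A ×ˢ A).filter (fun x : ℕ × ℕ => x.1 < x.2 ∧
            AlmostPrime ((N : ℝ) ^ κ) r (h + q * (x.2 - x.1)) ∧
            AlmostPrime ((N : ℝ) ^ κ) r (h + q * (x.2 - x.1) + d))).card) ∧
    -- and every admissible class contains such a small shift
    (∀ d q a : ℕ, Even d → d ≤ N ^ B → 1 ≤ q → q ≤ N ^ B → a ≤ q → Nat.Coprime a q → Nat.Coprime (a + d) q →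
      ∃ h : ℕ, h ≡ a [MOD q] ∧ (h : ℝ) ≤ 2 * q * (N : ℝ) ^ θ ∧
        ∀ p : ℕ, p.Prime → (p : ℝ) ≤ (N : ℝ) ^ κ → ¬ p ∣ h ∧ ¬ p ∣ h + d) := by
  obtain ⟨κ₁, hκ₁, hκ₁1, h1⟩ := poly_vc 2 2
  obtain ⟨κ₂, hκ₂, N₂, h2⟩ := rough_shift 2 θ hθ
  obtain ⟨κ, hκe⟩ : ∃ κ, κ = min κ₁ κ₂ := ⟨_, rfl⟩
  have hκ : 0 < κ := by rw [hκe]; exact lt_min hκ₁ hκ₂
  have hκl : κ ≤ κ₁ := by rw [hκe]; exact min_le_left _ _
  have hκr : κ ≤ κ₂ := by rw [hκe]; exact min_le_right _ _
  refine ⟨κ, hκ, ?_⟩
  intro B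
  obtain ⟨r, hr⟩ := h1 κ hκ hκl (B + 1)
  refine ⟨r, ?_⟩
  intro ε hε
  obtain ⟨N₀, hN₀⟩ := hr ε hε
  refine ⟨max (max N₀ N₂) 2, ?_⟩
  intro N hN
  have hN2 : 2 ≤ N := (le_max_right _ _).trans hN
  have hN1R : (1 : ℝ) ≤ N := by exact_mod_cast (by omega : 1 ≤ N)
  have hNB : N ^ B * 2 ≤ N ^ (B + 1) := by
    rw [pow_succ]
    exact Nat.mul_le_mul_left _ hN2
  constructor
  · intro d q h hd hq hh hgood u A hA hcard
    have h3 := hN₀ N ((le_max_left _ _).trans ((le_max_left _ _).trans hN)) (pf q h d) (pf_deg q h d)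
      (fun i j => pf_coeff q h d _ (by
          have : q ≤ N ^ (B + 1) := by omega
          exact_mod_cast this) (by
          have : h + d ≤ N ^ (B + 1) := by omega
          exact_mod_cast this) i j)
      0 (by simp)
      (by
        intro i p hp hpN
        fin_cases i
        · change ¬ (p : ℤ) ∣ (pf q h d 0).eval 0
          rw [pf_eval0, mul_zero, zero_add, Int.natCast_dvd_natCast]
          exact (hgood p hp hpN).1
        · change ¬ (p : ℤ) ∣ (pf q h d 1).eval 0
          rw [pf_eval1, mul_zero, zero_add]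
          have := (hgood p hp hpN).2
          intro hc
          exact this (by exact_mod_cast hc))
      u A hA hcard
    refine h3.trans ?_
    apply Nat.cast_le.2
    apply card_le_card
    rintro ⟨s, t⟩ hx
    rw [mem_filter] at hx ⊢
    obtain ⟨hx1, hlt, hx2⟩ := hx
    refine ⟨hx1, hlt, ?_⟩
    simp only at hlt hx2 ⊢
    have h4 := (hx2 0).1
    have h5 := (hx2 1).1
    rw [zero_add, pf_eval0] at h4
    rw [zero_add, pf_eval1] at h5
    constructor
    · exact (AP_nat _ _ _ _ (by rw [Nat.cast_add, Nat.cast_mul, Nat.cast_sub hlt.le]; ring)).1 h4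
    · exact (AP_nat _ _ _ _ (by rw [Nat.cast_add, Nat.cast_add, Nat.cast_mul, Nat.cast_sub hlt.le]; ring)).1 h5
  · intro d q a hd hdN hq1 hqN haq ha had
    have hadm := adm q a d hd ha had
    have hadm' : ∀ p : ℕ, p.Prime → ∃ n : ℤ, ¬ PF (pf q a d) p n := by
      intro p hp
      obtain ⟨n, hn⟩ := hadm p hp
      exact ⟨n, fun ⟨i, hi⟩ => hn i hi⟩
    obtain ⟨t, _, ht1, ht2⟩ := h2 N ((le_max_right _ _).trans ((le_max_left _ _).trans hN)) (PF (pf q a d))
      (PF_per _) (fun p hp => PF_count _ 2 (pf_deg q a d) p hp (hadm' p hp) _ (fun a ha => by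
        rw [mem_filter, mem_range] at ha
        exact ha)) hadm'
    refine ⟨a + q * t, ?_, ?_, ?_⟩
    · unfold Nat.ModEq
      rw [Nat.add_mul_mod_self_left]
    · push_cast
      have h3 : (a : ℝ) ≤ q := by exact_mod_cast haq
      have h4 : (0 : ℝ) ≤ q := Nat.cast_nonneg _
      have h5 : (1 : ℝ) ≤ (N : ℝ) ^ θ := Real.one_le_rpow hN1R hθ.le
      have h6 : (q : ℝ) * t ≤ q * (N : ℝ) ^ θ := mul_le_mul_of_nonneg_left ht1 h4
      nlinarith
    · intro p hp hpN
      have h3 := ht2 p hp (hpN.trans (Real.rpow_le_rpow_of_exponent_le hN1R hκr))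
      constructor
      · intro hc
        apply h3
        refine ⟨0, ?_⟩
        rw [pf_eval0]
        have : ((a + q * t : ℕ) : ℤ) = q * t + a := by push_cast; ring
        rw [← this]
        exact Int.natCast_dvd_natCast.2 hc
      · intro hc
        apply h3
        refine ⟨1, ?_⟩
        rw [pf_eval1]
        have : ((a + q * t + d : ℕ) : ℤ) = q * t + (a + d) := by push_cast; ring
        rw [← this]
        exact Int.natCast_dvd_natCast.2 hc

end Pool.Agent.H14.VC.Pair
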