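import Pool.Agent.H14.VC.Main
import Pool.Agent.H14.SK.Shift

/-!
# Polynomials at shifted differences of arbitrary sets, power saving (helper14)
-/

set_option autoImplicit false

namespace Pool.Agent.H14.VC

open Finset Polynomial
open Pool.Agent.H14.SK (rho AP omega_le unif_shift PV)

/-- the number of roots modulo `p` -/
lemma roots_mod (h : ℤ[X]) {p : ℕ} (hp : p.Prime) {m : ℤ} (hm : ¬ (p : ℤ) ∣ h.eval m) (T : Finset ℕ)
    (hT : ∀ a ∈ T, a < p ∧ (p : ℤ) ∣ h.eval (a : ℤ)) : T.card ≤ h.natDegree := by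
  classical
  have : Fact p.Prime := ⟨hp⟩
  have hev : ∀ a : ℤ, (h.map (Int.castRingHom (ZMod p))).eval (a : ZMod p) = ((h.eval a : ℤ) : ZMod p) := by
    intro a
    simp
  have hne : h.map (Int.castRingHom (ZMod p)) ≠ 0 := by
    intro h0
    have h1 := hev m
    rw [h0, eval_zero] at h1
    exact hm ((ZMod.intCast_zmod_eq_zero_iff_dvd _ _).1 h1.symm)
  have h2 : T.image (fun a : ℕ => (a : ZMod p)) ⊆ (h.map (Int.castRingHom (ZMod p))).roots.toFinset := by
    intro x hx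
    rw [mem_image] at hx
    obtain ⟨a, ha, rfl⟩ := hx
    rw [Multiset.mem_toFinset, mem_roots hne, IsRoot.def]
    have h3 := hev (a : ℤ)
    rw [Int.cast_natCast] at h3
    rw [h3]
    exact (ZMod.intCast_zmod_eq_zero_iff_dvd _ _).2 (hT a ha).2
  have h3 := card_le_card h2
  rw [card_image_of_injOn] at h3
  · exact h3.trans ((Multiset.toFinset_card_le _).trans ((card_roots' _).trans natDegree_map_le))
  · intro a ha b hb hab
    have h4 := (ZMod.natCast_eq_natCast_iff' a b p).1 hab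
    rwa [Nat.mod_eq_of_lt (hT a ha).1, Nat.mod_eq_of_lt (hT b hb).1] at h4

lemma eval_dvd (f : ℤ[X]) (p : ℕ) (n m : ℤ) (h : (p : ℤ) ∣ n - m) :
    (p : ℤ) ∣ f.eval n ↔ (p : ℤ) ∣ f.eval m := by
  have h1 : (p : ℤ) ∣ f.eval n - f.eval m := h.trans (Polynomial.sub_dvd_eval_sub n m f)
  constructor
  · intro h2
    have := dvd_sub h2 h1
    rwa [sub_sub_cancel] at this
  · intro h2
    have := dvd_add h1 h2
    rwa [sub_add_cancel] at this

/-- the conditions of a system at `n` -/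
def PF {K : ℕ} (f : Fin K → ℤ[X]) (p : ℕ) (n : ℤ) : Prop := ∃ i, (p : ℤ) ∣ (f i).eval n

lemma PF_per {K : ℕ} (f : Fin K → ℤ[X]) :
    ∀ p : ℕ, ∀ n m : ℤ, (p : ℤ) ∣ n - m → (PF f p n ↔ PF f p m) := by
  intro p n m h
  unfold PF
  exact exists_congr fun i => eval_dvd (f i) p n m h

lemma PF_count {K : ℕ} (f : Fin K → ℤ[X]) (D : ℕ) (hD : ∑ i, (f i).natDegree ≤ D) (p : ℕ) (hp : p.Prime)
    (hadm : ∃ n : ℤ, ¬ PF f p n) (S : Finset ℕ) (hS : ∀ a ∈ S, a < p ∧ PF f p (a : ℤ)) : S.card ≤ D := by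
  classical
  have h1 : S ⊆ (univ : Finset (Fin K)).biUnion (fun i => S.filter (fun x : ℕ => (p : ℤ) ∣ (f i).eval (x : ℤ))) := by
    intro r hr
    obtain ⟨h2, i, h3⟩ := hS r hr
    rw [mem_biUnion]
    exact ⟨i, mem_univ _, mem_filter.2 ⟨hr, h3⟩⟩
  refine (card_le_card h1).trans (card_biUnion_le.trans (le_trans ?_ hD))
  apply sum_le_sum
  intro i _
  obtain ⟨n, hn⟩ := hadm
  exact roots_mod (f i) hp (fun h => hn ⟨i, h⟩) _ fun a ha => by
    rw [mem_filter] at ha
    exact ⟨(hS a ha.1).1, ha.2⟩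

/-- a polynomial composed with `n ↦ h + s n` -/
noncomputable def comp1 (f : ℤ[X]) (h s : ℤ) : ℤ[X] := f.comp (C h + C s * X)

lemma comp1_eval (f : ℤ[X]) (h s n : ℤ) : (comp1 f h s).eval n = f.eval (h + s * n) := by
  unfold comp1
  simp [eval_comp]

lemma comp1_deg (f : ℤ[X]) (h s : ℤ) : (comp1 f h s).natDegree ≤ f.natDegree := by
  unfold comp1
  refine natDegree_comp_le.trans ?_
  have h1 : (C h + C s * X : ℤ[X]).natDegree ≤ 1 := by
    refine (natDegree_add_le _ _).trans ?_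
    rw [natDegree_C]
    have := natDegree_C_mul_le s (X : ℤ[X])
    have h2 : (X : ℤ[X]).natDegree ≤ 1 := natDegree_X_le
    exact max_le (by norm_num) (this.trans h2)
  calc f.natDegree * (C h + C s * X : ℤ[X]).natDegree ≤ f.natDegree * 1 := Nat.mul_le_mul_left _ h1
    _ = _ := mul_one _

lemma eval_bound (f : ℤ[X]) (D : ℕ) (hD : f.natDegree ≤ D) (Y Z : ℤ) (hZ : 1 ≤ Z)
    (hc : ∀ j, |f.coeff j| ≤ Y) (n : ℤ) (hn : |n| ≤ Z) : |f.eval n| ≤ (D + 1) * (Y * Z ^ D) := by
  have hY : 0 ≤ Y := (abs_nonneg _).trans (hc 0)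
  rw [eval_eq_sum_range' (n := D + 1) (by omega)]
  refine (abs_sum_le_sum_abs _ _).trans ?_
  have h1 : ∀ j ∈ range (D + 1), |f.coeff j * n ^ j| ≤ Y * Z ^ D := by
    intro j hj
    rw [mem_range] at hj
    rw [abs_mul, abs_pow]
    apply mul_le_mul (hc j) _ (by positivity) hY
    calc |n| ^ j ≤ Z ^ j := pow_le_pow_left₀ (abs_nonneg _) hn j
      _ ≤ Z ^ D := pow_le_pow_right₀ hZ (by omega)
  refine (sum_le_sum h1).trans (le_of_eq ?_)
  rw [sum_const, card_range, nsmul_eq_mul]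
  push_cast
  ring

open Classical in
/-- **Power saving, polynomials, at every admissible shift.** -/
theorem poly_vc (K D : ℕ) : ∃ κ : ℝ, 0 < κ ∧ κ ≤ 1 ∧ ∀ κ' : ℝ, 0 < κ' → κ' ≤ κ → ∀ B : ℕ, ∃ r : ℕ,
    ∀ ε : ℝ, 0 < ε → ∃ N₀ : ℕ,
    ∀ N : ℕ, N₀ ≤ N → ∀ f : Fin K → ℤ[X], ∑ i, (f i).natDegree ≤ D → (∀ i j, |(f i).coeff j| ≤ (N : ℤ) ^ B) →
    ∀ h : ℤ, |h| ≤ (N : ℤ) ^ B → (∀ i, ∀ p : ℕ, p.Prime → (p : ℝ) ≤ (N : ℝ) ^ κ' → ¬ (p : ℤ) ∣ (f i).eval h) →
    ∀ (u : ℕ) (A : Finset ℕ), A ⊆ Ioc u (u + N) → (N : ℝ) ^ (1 - κ') ≤ A.card →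
      (A.card : ℝ) ^ 2 * (N : ℝ) ^ (-ε) ≤
        ((A ×ˢ A).filter (fun x : ℕ × ℕ => x.1 < x.2 ∧ ∀ i,
          AP ((N : ℝ) ^ κ') r ((f i).eval (h + ((x.2 : ℤ) - x.1))) ∧
          AP ((N : ℝ) ^ κ') r ((f i).eval (h - ((x.2 : ℤ) - x.1))))).card := by
  obtain ⟨κ, hκ, hκ1, hS⟩ := sym (2 * D + 1) (by omega)
  refine ⟨κ, hκ, hκ1, ?_⟩
  intro κ' hκ' hκκ B
  obtain ⟨r, hr⟩ : ∃ r : ℕ, ((D + 2 + B + (B + 1) * D + D : ℕ) : ℝ) / κ' ≤ r := exists_nat_ge _
  refine ⟨r, ?_⟩
  intro ε hε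
  obtain ⟨M₀, hM₀⟩ := hS ε hε
  obtain ⟨N₁, hN₁⟩ := exists_nat_ge ((2 : ℝ) ^ (1 / κ'))
  refine ⟨max (max M₀ 3) N₁, ?_⟩
  intro N hN f hD hcoef h hh hgood u A hA hcard
  have hNM : M₀ ≤ N := (le_max_left _ _).trans ((le_max_left _ _).trans hN)
  have hN3 : 3 ≤ N := (le_max_right _ _).trans ((le_max_left _ _).trans hN)
  have hNN1 : N₁ ≤ N := (le_max_right _ _).trans hN
  have hN0 : (0 : ℝ) < N := by exact_mod_cast (by omega : 0 < N)
  have hN1R : (1 : ℝ) ≤ N := by exact_mod_cast (by omega : 1 ≤ N)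
  have h2κ : (2 : ℝ) ≤ (N : ℝ) ^ κ' := by
    have h3 : (2 : ℝ) ^ (1 / κ') ≤ (N : ℝ) := hN₁.trans (by exact_mod_cast hNN1)
    calc (2 : ℝ) = ((2 : ℝ) ^ (1 / κ')) ^ κ' := by
          rw [← Real.rpow_mul (by norm_num), one_div_mul_cancel hκ'.ne', Real.rpow_one]
      _ ≤ _ := Real.rpow_le_rpow (by positivity) h3 hκ'.le
  -- the conditions
  obtain ⟨T, hT⟩ : ∃ T : ℕ → ℤ → Prop, ∀ p n, T p n ↔
      ((PF f p (h + n) ∨ PF f p (h - n)) ∧ (p : ℝ) ≤ (N : ℝ) ^ κ') := ⟨_, fun _ _ => Iff.rfl⟩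
  have per : ∀ p : ℕ, ∀ n m : ℤ, (p : ℤ) ∣ n - m → (T p n ↔ T p m) := by
    intro p n m hd
    rw [hT, hT, PF_per f p (h + n) (h + m) (by have e : h + n - (h + m) = n - m := by ring
                                               rwa [e]),
      PF_per f p (h - n) (h - m) (by have e : h - n - (h - m) = -(n - m) := by ring
                                     rw [e]; exact hd.neg_right)]
  have even : ∀ p : ℕ, ∀ n : ℤ, T p n ↔ T p (-n) := by
    intro p n
    rw [hT, hT, sub_neg_eq_add, ← sub_eq_add_neg, or_comm]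
  have h0 : ∀ p : ℕ, p.Prime → ¬ T p 0 := by
    intro p hp hc
    rw [hT, add_zero, sub_zero, or_self] at hc
    obtain ⟨⟨i, hi⟩, hpN⟩ := hc
    exact hgood i p hp hpN hi
  have hρ : ∀ p : ℕ, p.Prime → ((range p).filter (fun r : ℕ => T p r)).card ≤ 2 * D + 1 := by
    intro p hp
    by_cases hpN : (p : ℝ) ≤ (N : ℝ) ^ κ'
    · have hsub : (range p).filter (fun r : ℕ => T p r) ⊆
          (range p).filter (fun r : ℕ => PF f p (h + r)) ∪ (range p).filter (fun r : ℕ => PF f p (h - r)) := by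
        intro x hx
        rw [mem_union, mem_filter, mem_filter]
        obtain ⟨h1, h2⟩ := mem_filter.1 hx
        rcases ((hT _ _).1 h2).1 with h3 | h3
        · left; exact ⟨h1, h3⟩
        · right; exact ⟨h1, h3⟩
      have hcnt : ∀ s : ℤ, (s = 1 ∨ s = -1) → ((range p).filter (fun r : ℕ => PF f p (h + s * r))).card ≤ D := by
        intro s _
        apply PF_count (fun i => comp1 (f i) h s) D (le_trans (sum_le_sum fun i _ => comp1_deg (f i) h s) hD) p hp
        · refine ⟨0, ?_⟩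
          rintro ⟨i, hi⟩
          rw [comp1_eval, mul_zero, add_zero] at hi
          exact hgood i p hp hpN hi
        · intro a ha
          rw [mem_filter, mem_range] at ha
          refine ⟨ha.1, ?_⟩
          obtain ⟨i, hi⟩ := ha.2
          exact ⟨i, by rw [comp1_eval]; exact hi⟩
      have e1 := hcnt 1 (Or.inl rfl)
      have e2 := hcnt (-1) (Or.inr rfl)
      have e3 : (range p).filter (fun r : ℕ => PF f p (h + 1 * r)) = (range p).filter (fun r : ℕ => PF f p (h + r)) := by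
        apply filter_congr
        intro x _
        rw [one_mul]
      have e4 : (range p).filter (fun r : ℕ => PF f p (h + -1 * r)) = (range p).filter (fun r : ℕ => PF f p (h - r)) := by
        apply filter_congr
        intro x _
        rw [show h + -1 * (x : ℤ) = h - x by ring]
      rw [e3] at e1
      rw [e4] at e2
      have := (card_le_card hsub).trans (card_union_le _ _)
      omega
    · have : (range p).filter (fun r : ℕ => T p r) = ∅ := by
        apply filter_false_of_mem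
        intro x _ hx
        exact hpN ((hT _ _).1 hx).2
      rw [this]
      simp
  -- translate the set
  have hinj : Set.InjOn (fun a : ℕ => a - u) (A : Set ℕ) := by
    intro a ha b hb hab
    have h1 := mem_Ioc.1 (hA ha)
    have h2 := mem_Ioc.1 (hA hb)
    simp only at hab
    omega
  set A' := A.image (fun a => a - u) with hA'
  have hA'c : A'.card = A.card := card_image_of_injOn hinj
  have hA's : A' ⊆ Icc 1 N := by
    intro x hx
    obtain ⟨a, ha, rfl⟩ := mem_image.1 hx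
    have h1 := mem_Ioc.1 (hA ha)
    rw [mem_Icc]
    omega
  have hκpow : (N : ℝ) ^ (1 - κ) ≤ (N : ℝ) ^ (1 - κ') :=
    Real.rpow_le_rpow_of_exponent_le hN1R (by linarith)
  have hmain := hM₀ N hNM T per even (fun p hp _ => h0 p hp) (fun p hp _ => hρ p hp) A' hA's
    (by rw [hA'c]; exact hκpow.trans hcard)
  rw [hA'c] at hmain
  refine hmain.trans ?_
  apply Nat.cast_le.2
  -- injection of the pairs
  apply card_le_card_of_injOn (fun x : ℕ × ℕ => (x.1 + u, x.2 + u))
  · rintro ⟨a', b'⟩ hx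
    rw [mem_coe, mem_filter, mem_product] at hx
    obtain ⟨⟨ha, hb⟩, hlt, hG⟩ := hx
    obtain ⟨a, haA, rfl⟩ := mem_image.1 ha
    obtain ⟨b, hbA, rfl⟩ := mem_image.1 hb
    have hua := mem_Ioc.1 (hA haA)
    have hub := mem_Ioc.1 (hA hbA)
    simp only at hlt hG ⊢
    have ea : a - u + u = a := by omega
    have eb : b - u + u = b := by omega
    have hd : (((b - u : ℕ) : ℤ) - ((a - u : ℕ) : ℤ)) = (b : ℤ) - a := by
      rw [Nat.cast_sub (by omega), Nat.cast_sub (by omega)]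
      ring
    rw [hd] at hG
    rw [ea, eb, mem_coe, mem_filter, mem_product]
    refine ⟨⟨haA, hbA⟩, by simp only; omega, ?_⟩
    intro i
    have hrough : ∀ m : ℤ, (m = h + ((b : ℤ) - a) ∨ m = h - ((b : ℤ) - a)) →
        AP ((N : ℝ) ^ κ') r ((f i).eval m) := by
      intro m hm
      have h1 : ∀ p : ℕ, p.Prime → (p : ℤ) ∣ (f i).eval m → (N : ℝ) ^ κ' < p := by
        intro p hp hpd
        by_contra hc
        push Not at hc
        apply hG p hp (hc.trans (Real.rpow_le_rpow_of_exponent_le hN1R hκκ))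
        rw [hT]
        refine ⟨?_, hc⟩
        rcases hm with rfl | rfl
        · left; exact ⟨i, hpd⟩
        · right; exact ⟨i, hpd⟩
      have hne : (f i).eval m ≠ 0 := by
        intro h0'
        have := h1 2 Nat.prime_two (by rw [h0']; exact dvd_zero _)
        push_cast at this
        linarith
      refine ⟨h1, ?_⟩
      have hmb : |m| ≤ 2 * (N : ℤ) ^ (B + 1) := by
        have hNz : (1 : ℤ) ≤ (N : ℤ) ^ B := by
          apply one_le_pow₀
          omega
        have hba : |(b : ℤ) - a| ≤ N := by rw [abs_le]; constructor <;> omega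
        have hab : |m| ≤ |h| + |(b : ℤ) - a| := by
          rcases hm with rfl | rfl
          · exact abs_add_le _ _
          · exact abs_sub _ _
        have hp1 : (N : ℤ) ^ (B + 1) = (N : ℤ) ^ B * N := pow_succ _ _
        rw [hp1]
        nlinarith
      have hfd : (f i).natDegree ≤ D := (single_le_sum (f := fun i => (f i).natDegree) (fun _ _ => Nat.zero_le _)
        (mem_univ i)).trans hD
      have hev := eval_bound (f i) D hfd ((N : ℤ) ^ B) (2 * (N : ℤ) ^ (B + 1))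
        (by
          have : (1 : ℤ) ≤ (N : ℤ) ^ (B + 1) := by apply one_le_pow₀; omega
          linarith) (hcoef i) m hmb
      have hfin : ((f i).eval m).natAbs ≤ N ^ (D + 2 + B + (B + 1) * D + D) := by
        have e1 : ((D + 1 : ℕ) : ℤ) ≤ (N : ℤ) ^ (D + 1) := by
          have : D + 1 ≤ N ^ (D + 1) := by
            calc D + 1 ≤ 2 ^ (D + 1) := Nat.lt_two_pow_self.le
              _ ≤ N ^ (D + 1) := Nat.pow_le_pow_left (by omega) _
          exact_mod_cast this
        have e2 : (2 : ℤ) ^ D ≤ (N : ℤ) ^ D := pow_le_pow_left₀ (by norm_num) (by omega) D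
        have e3 : |(f i).eval m| ≤ (N : ℤ) ^ (D + 2 + B + (B + 1) * D + D) := by
          calc |(f i).eval m| ≤ ((D : ℤ) + 1) * ((N : ℤ) ^ B * (2 * (N : ℤ) ^ (B + 1)) ^ D) := hev
            _ = ((D + 1 : ℕ) : ℤ) * ((N : ℤ) ^ B * (2 ^ D * (N : ℤ) ^ ((B + 1) * D))) := by
                rw [mul_pow, ← pow_mul]; push_cast; ring
            _ ≤ (N : ℤ) ^ (D + 1) * ((N : ℤ) ^ B * ((N : ℤ) ^ D * (N : ℤ) ^ ((B + 1) * D))) := by gcongr
            _ = (N : ℤ) ^ (D + 1 + (B + (D + (B + 1) * D))) := by rw [← pow_add, ← pow_add, ← pow_add]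
            _ ≤ _ := by
                apply pow_le_pow_right₀ (by omega)
                omega
        have e4 : (((f i).eval m).natAbs : ℤ) ≤ ((N ^ (D + 2 + B + (B + 1) * D + D) : ℕ) : ℤ) := by
          rw [Int.natCast_natAbs]
          push_cast
          exact e3
        exact_mod_cast e4
      have h5 := omega_le κ' hκ' N (D + 2 + B + (B + 1) * D + D) ((f i).eval m).natAbs (by omega)
        (Int.natAbs_ne_zero.2 hne) hfin (fun p hp hpd => h1 p hp (Int.natCast_dvd.2 hpd))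
      exact_mod_cast h5.trans hr
    exact ⟨hrough _ (Or.inl rfl), hrough _ (Or.inr rfl)⟩
  · rintro ⟨a, b⟩ _ ⟨c, d⟩ _ h'
    simp only [Prod.mk.injEq] at h' ⊢
    omega

end Pool.Agent.H14.VC
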