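import Pool.Agent.H14.VC.Poly

/-!
# Small shifts without small prime factors, and the difference theorem for admissible systems (helper14)
-/

set_option autoImplicit false

namespace Pool.Agent.H14.VC

open Finset Polynomial
open Pool.Agent.H14.SK (rho AP omega_le unif_shift PV)

open Classical in
/-- small integers avoiding all the classes of a sieve condition -/
theorem rough_shift (g : ℕ) (θ : ℝ) (hθ : 0 < θ) : ∃ κ : ℝ, 0 < κ ∧ ∃ N₀ : ℕ, ∀ N : ℕ, N₀ ≤ N →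
    ∀ T : ℕ → ℤ → Prop, (∀ p : ℕ, ∀ n m : ℤ, (p : ℤ) ∣ n - m → (T p n ↔ T p m)) →
      (∀ p : ℕ, p.Prime → rho T p ≤ g) → (∀ p : ℕ, p.Prime → ∃ n : ℤ, ¬ T p n) →
      ∃ h : ℕ, 0 < h ∧ (h : ℝ) ≤ (N : ℝ) ^ θ ∧ ∀ p : ℕ, p.Prime → (p : ℝ) ≤ (N : ℝ) ^ κ → ¬ T p h := by
  obtain ⟨κ, hκ, hU⟩ := unif_shift g
  obtain ⟨C, H₀, hC, hH₀⟩ := hU (1 / 2) (by norm_num)
  refine ⟨κ * (θ / 2), by positivity, ?_⟩
  have t1 : Filter.Tendsto (fun N : ℕ => (N : ℝ) ^ (θ / 2)) Filter.atTop Filter.atTop :=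
    (tendsto_rpow_atTop (show (0 : ℝ) < θ / 2 by positivity)).comp tendsto_natCast_atTop_atTop
  obtain ⟨N₁, hN₁⟩ := Filter.eventually_atTop.1 (t1.eventually_ge_atTop
    (max (max 4 (2 * (H₀ : ℝ) + 2)) (max (2 * Real.exp C) 10)))
  refine ⟨max N₁ 1, ?_⟩
  intro N hN T hT hρ hadm
  have h1 := hN₁ N ((le_max_left _ _).trans hN)
  have hN0 : (0 : ℝ) < N := by exact_mod_cast (le_max_right N₁ 1).trans hN
  obtain ⟨y, hy⟩ : ∃ y : ℝ, y = (N : ℝ) ^ (θ / 2) := ⟨_, rfl⟩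
  rw [← hy] at h1
  have hy4 : 4 ≤ y := (le_max_left _ _).trans ((le_max_left _ _).trans h1)
  have hyH : 2 * (H₀ : ℝ) + 2 ≤ y := (le_max_right _ _).trans ((le_max_left _ _).trans h1)
  have hyC : 2 * Real.exp C ≤ y := (le_max_left _ _).trans ((le_max_right _ _).trans h1)
  have hy10 : 10 ≤ y := (le_max_right _ _).trans ((le_max_right _ _).trans h1)
  have hyy : (N : ℝ) ^ θ = y * y := by
    rw [hy, ← Real.rpow_add hN0]
    congr 1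
    ring
  obtain ⟨H, hH⟩ : ∃ H : ℕ, H = ⌊y * y / 2⌋₊ := ⟨_, rfl⟩
  have hHu : (H : ℝ) ≤ y * y / 2 := by rw [hH]; exact Nat.floor_le (by positivity)
  have hHl : y * y / 2 - 1 < H := by
    rw [hH]
    have := Nat.lt_floor_add_one (y * y / 2)
    linarith
  have hyH2 : y ≤ H := by nlinarith
  have hHH : H₀ ≤ H := by
    have : (H₀ : ℝ) ≤ H := by
      have : (0 : ℝ) ≤ H₀ := Nat.cast_nonneg _
      linarith
    exact_mod_cast this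
  have hlog : 1 ≤ Real.log H := by
    rw [Real.le_log_iff_exp_le (by linarith)]
    have := Real.exp_one_lt_d9
    linarith
  obtain ⟨h₀, h2, h3⟩ := hH₀ H hHH T hT hρ hadm 1 one_pos
    (by
      apply Real.rpow_le_one_of_one_le_of_nonpos hlog
      norm_num)
  have h4 := h3 (Icc 1 H) (le_refl _) (by rw [one_mul, Nat.card_Icc, Nat.add_sub_cancel])
  rw [Real.one_rpow, mul_one] at h2 h4
  have hPV : 0 < PV T (2 * g) H := by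
    unfold PV
    apply prod_pos
    intro p hp
    obtain ⟨hp1, hp2⟩ := mem_filter.1 hp
    have h5 := hρ p hp2
    have h6 := (mem_Ioc.1 hp1).1
    have h7 : (0 : ℝ) < p := by exact_mod_cast hp2.pos
    rw [sub_pos, div_lt_one h7]
    have : rho T p < p := by omega
    exact_mod_cast this
  have h5 : 0 < (((Icc 1 H ×ˢ Icc 1 H).filter (fun a => a.1 < a.2 ∧
          ∀ p : ℕ, p.Prime → (p : ℝ) ≤ (H : ℝ) ^ κ → ¬ T p ((a.2 : ℤ) - a.1 + h₀))).card : ℝ) := by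
    refine lt_of_lt_of_le ?_ h4
    have : (0 : ℝ) < H := by linarith
    positivity
  have h6 : 0 < ((Icc 1 H ×ˢ Icc 1 H).filter (fun a => a.1 < a.2 ∧
          ∀ p : ℕ, p.Prime → (p : ℝ) ≤ (H : ℝ) ^ κ → ¬ T p ((a.2 : ℤ) - a.1 + h₀))).card := by exact_mod_cast h5
  obtain ⟨⟨a, b⟩, hab⟩ := card_pos.1 h6
  rw [mem_filter, mem_product, mem_Icc, mem_Icc] at hab
  obtain ⟨⟨ha, hb⟩, hlt, hgood⟩ := hab
  simp only at ha hb hlt hgood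
  refine ⟨b - a + h₀, by omega, ?_, ?_⟩
  · have e1 : ((b - a + h₀ : ℕ) : ℝ) ≤ H + h₀ := by
      have : b - a + h₀ ≤ H + h₀ := by omega
      exact_mod_cast this
    rw [hyy]
    nlinarith
  · intro p hp hpN
    have e2 : ((b - a + h₀ : ℕ) : ℤ) = (b : ℤ) - a + h₀ := by
      rw [Nat.cast_add, Nat.cast_sub hlt.le]
    rw [e2]
    apply hgood p hp
    refine hpN.trans ?_
    rw [mul_comm, Real.rpow_mul hN0.le, ← hy]
    exact Real.rpow_le_rpow (by linarith) hyH2 hκ.le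

open Classical in
/-- **The difference theorem with power saving for every admissible system of polynomials.** -/
theorem sys_vc (K D : ℕ) (θ : ℝ) (hθ : 0 < θ) (hθ1 : θ ≤ 1) : ∃ κ : ℝ, 0 < κ ∧ κ ≤ 1 ∧ ∀ B : ℕ, ∃ r : ℕ,
    ∀ ε : ℝ, 0 < ε → ∃ N₀ : ℕ,
    ∀ N : ℕ, N₀ ≤ N → ∀ f : Fin K → ℤ[X], ∑ i, (f i).natDegree ≤ D → (∀ i j, |(f i).coeff j| ≤ (N : ℤ) ^ B) →
    (∀ p : ℕ, p.Prime → ∃ n : ℤ, ∀ i, ¬ (p : ℤ) ∣ (f i).eval n) →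
    ∃ h : ℕ, 0 < h ∧ (h : ℝ) ≤ (N : ℝ) ^ θ ∧ (∀ i, ∀ p : ℕ, p.Prime → (p : ℝ) ≤ (N : ℝ) ^ κ → ¬ (p : ℤ) ∣ (f i).eval (h : ℤ)) ∧
    ∀ (u : ℕ) (A : Finset ℕ), A ⊆ Ioc u (u + N) → (N : ℝ) ^ (1 - κ) ≤ A.card →
      (A.card : ℝ) ^ 2 * (N : ℝ) ^ (-ε) ≤
        ((A ×ˢ A).filter (fun x : ℕ × ℕ => x.1 < x.2 ∧ ∀ i,
          AP ((N : ℝ) ^ κ) r ((f i).eval ((h : ℤ) + ((x.2 : ℤ) - x.1))) ∧
          AP ((N : ℝ) ^ κ) r ((f i).eval ((h : ℤ) - ((x.2 : ℤ) - x.1))))).card := by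
  obtain ⟨κ₁, hκ₁, hκ₁1, h1⟩ := poly_vc K D
  obtain ⟨κ₂, hκ₂, N₂, h2⟩ := rough_shift D θ hθ
  have hκ : 0 < min κ₁ κ₂ := lt_min hκ₁ hκ₂
  refine ⟨min κ₁ κ₂, hκ, (min_le_left _ _).trans hκ₁1, ?_⟩
  intro B
  obtain ⟨r, hr⟩ := h1 (min κ₁ κ₂) hκ (min_le_left _ _) (B + 1)
  refine ⟨r, ?_⟩
  intro ε hε
  obtain ⟨N₀, hN₀⟩ := hr ε hε
  refine ⟨max (max N₀ N₂) 1, ?_⟩
  intro N hN f hD hcoef hadm
  have hN1 : 1 ≤ N := (le_max_right _ _).trans hN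
  have hN1R : (1 : ℝ) ≤ N := by exact_mod_cast hN1
  have hadm' : ∀ p : ℕ, p.Prime → ∃ n : ℤ, ¬ PF f p n := by
    intro p hp
    obtain ⟨n, hn⟩ := hadm p hp
    exact ⟨n, fun ⟨i, hi⟩ => hn i hi⟩
  obtain ⟨h, hh0, hh1, hh2⟩ := h2 N ((le_max_right _ _).trans ((le_max_left _ _).trans hN)) (PF f) (PF_per f)
    (fun p hp => PF_count f D hD p hp (hadm' p hp) _ (fun a ha => by
      rw [mem_filter, mem_range] at ha
      exact ha)) hadm'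
  have hgood : ∀ i, ∀ p : ℕ, p.Prime → (p : ℝ) ≤ (N : ℝ) ^ min κ₁ κ₂ → ¬ (p : ℤ) ∣ (f i).eval (h : ℤ) := by
    intro i p hp hpN hd
    exact hh2 p hp (hpN.trans (Real.rpow_le_rpow_of_exponent_le hN1R (min_le_right _ _))) ⟨i, hd⟩
  refine ⟨h, hh0, hh1, hgood, ?_⟩
  have hNB : (N : ℤ) ^ B ≤ (N : ℤ) ^ (B + 1) := pow_le_pow_right₀ (by exact_mod_cast hN1) (Nat.le_succ B)
  apply hN₀ N ((le_max_left _ _).trans ((le_max_left _ _).trans hN)) f hD (fun i j => (hcoef i j).trans hNB) h _ hgood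
  have h5 : (h : ℝ) ≤ N := hh1.trans (by
    calc (N : ℝ) ^ θ ≤ (N : ℝ) ^ (1 : ℝ) := Real.rpow_le_rpow_of_exponent_le hN1R hθ1
      _ = N := Real.rpow_one _)
  have h6 : h ≤ N := by exact_mod_cast h5
  have h7 : |(h : ℤ)| = h := abs_of_nonneg (by positivity)
  rw [h7]
  calc (h : ℤ) ≤ N := by exact_mod_cast h6
    _ = (N : ℤ) ^ 1 := (pow_one _).symm
    _ ≤ (N : ℤ) ^ (B + 1) := pow_le_pow_right₀ (by exact_mod_cast hN1) (by omega)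

end Pool.Agent.H14.VC
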