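import Pool.Agent.H14.VC.Far

/-!
# The lower bound for the pair sum of the weight (helper14)
-/

set_option autoImplicit false

namespace Pool.Agent.H14.VC

open Finset
open Pool.Agent.Helper112 (ee ls_ee_zero ls_ee_add ls_ee_int lsSep)

/-- primes up to `z` -/
abbrev Pz (z : ℕ) : Finset ℕ := (Icc 1 z).filter Nat.Prime

open Classical in
theorem total (g : ℕ) (hg : 1 ≤ g) : ∃ s z₀ : ℕ, 1 ≤ s ∧ 3 ≤ z₀ ∧ ∀ z : ℕ, z₀ ≤ z → ∀ M : ℕ, z ^ (4 * s + 2) ≤ M →
    ∀ T : ℕ → ℤ → Prop, (∀ p : ℕ, ∀ n m : ℤ, (p : ℤ) ∣ n - m → (T p n ↔ T p m)) →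
      (∀ p : ℕ, ∀ n : ℤ, T p n ↔ T p (-n)) → (∀ p ∈ Pz z, ¬ T p 0) →
      (∀ p ∈ Pz z, ((range p).filter (fun r : ℕ => T p r)).card ≤ g) →
      ∀ A ⊆ Icc 1 M, (A.card : ℝ) ^ 2 / 8 - 12 * M * A.card / z ≤
        PS A (wt (Pz z) (s * Real.log z) g T) := by
  obtain ⟨C1, hC1⟩ := Pool.Agent.Helper256.KM.Mert.mertens_log
  obtain ⟨C2, hC2⟩ := Pool.Agent.Helper256.KM.Mert.mertens_inv
  have hC10 : 0 ≤ C1 := (abs_nonneg _).trans (hC1 1 le_rfl)
  have hC20 : 0 ≤ C2 := (abs_nonneg _).trans (hC2 3 le_rfl)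
  have hgR : (1 : ℝ) ≤ g := by exact_mod_cast hg
  obtain ⟨G, hG⟩ : ∃ G : ℕ, G = g ^ 2 + 3 * g := ⟨_, rfl⟩
  obtain ⟨K, hK⟩ : ∃ K : ℕ, K = 2 * (g + G + 2) := ⟨_, rfl⟩
  have hGR : (G : ℝ) = (g : ℝ) ^ 2 + 3 * g := by rw [hG]; push_cast; ring
  obtain ⟨s, hs⟩ : ∃ s : ℕ, 2 * (2 * ((g : ℝ) ^ 2 + g) * (1 + C1) + K + 3) + 16 * (g * (1 + C1) + K) ≤ s :=
    exists_nat_ge _
  have hK0 : (0 : ℝ) ≤ K := Nat.cast_nonneg _
  have hs1 : 2 * (2 * ((g : ℝ) ^ 2 + g) * (1 + C1) + K + 3) ≤ s := by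
    have : 0 ≤ 16 * ((g : ℝ) * (1 + C1) + K) := by positivity
    linarith
  have hsR : (1 : ℝ) ≤ s := by
    have : 0 ≤ 2 * ((g : ℝ) ^ 2 + g) * (1 + C1) := by positivity
    linarith
  have hs2 : 16 * ((g : ℝ) * (1 + C1) + K) ≤ (s : ℝ) ^ 2 := by
    have h1 : 16 * ((g : ℝ) * (1 + C1) + K) ≤ s := by
      have : 0 ≤ 2 * (2 * ((g : ℝ) ^ 2 + g) * (1 + C1) + K + 3) := by positivity
      linarith
    nlinarith
  have hsn : 1 ≤ s := by exact_mod_cast hsR
  obtain ⟨z₀, hz₀⟩ : ∃ z₀ : ℕ, Real.exp ((g + G) * C2) * (2 * G) ^ (4 * G ^ 2) ≤ z₀ := exists_nat_ge _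
  refine ⟨s, max z₀ 3, hsn, le_max_right _ _, ?_⟩
  intro z hz M hM T per even h0 hρ A hA
  have hz3 : 3 ≤ z := (le_max_right _ _).trans hz
  have hzz : z₀ ≤ z := (le_max_left _ _).trans hz
  have hz3R : (3 : ℝ) ≤ z := by exact_mod_cast hz3
  have hl : 1 ≤ Real.log z := by
    rw [Real.le_log_iff_exp_le (by linarith)]
    linarith [Real.exp_one_lt_d9]
  have hl0 : 0 < Real.log z := by linarith
  have hL : 0 < s * Real.log z := by positivity
  set P := Pz z with hPdef
  have hP : ∀ p ∈ P, p.Prime := fun p hp => (mem_filter.1 hp).2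
  have hPz : ∀ p ∈ P, p ≤ z := fun p hp => (mem_Icc.1 (mem_filter.1 hp).1).2
  have hT : ∀ p ∈ P, cT (T p) p 0 ≤ g := by
    intro p hp
    rw [cT_zero]
    exact_mod_cast hρ p hp
  obtain ⟨X, hX1, hX2, hX3, hX4⟩ := exists_X P hP
  have hid := pairs_id A P hP (s * Real.log z) g T per even h0 X hX4
  have hid2 : PS A (wt P (s * Real.log z) g T) = ∑ x ∈ X, Cf P (s * Real.log z) g T x * En A P x := hid
  rw [hid2]
  -- Mertens
  have hm1 : ∑ p ∈ P, Real.log p / p ≤ (1 + C1) * Real.log z := by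
    have := (abs_le.1 (hC1 z (by omega))).2
    nlinarith
  have hm2 : ∑ p ∈ P, 1 / (p : ℝ) ≤ Real.log z + C2 := by
    have h1 := (abs_le.1 (hC2 z hz3)).2
    have h2 := Real.log_le_sub_one_of_pos hl0
    linarith
  -- restriction to small denominators
  set R := z ^ (2 * s + 1) with hR
  have hR1 : 1 ≤ R := Nat.one_le_pow _ _ (by omega)
  have hsplit : ∑ x ∈ X, Cf P (s * Real.log z) g T x * En A P x =
      ∑ x ∈ X.filter (fun x => qx P x ≤ R), Cf P (s * Real.log z) g T x * En A P x := by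
    rw [sum_filter]
    apply sum_congr rfl
    intro x _
    split_ifs with h
    · rfl
    · rw [Cf_zero P hP T g x z s (by omega) hsn hPz (by omega), zero_mul]
  rw [hsplit]
  have hAc : (0 : ℝ) ≤ A.card := Nat.cast_nonneg _
  have hls := large A P hP M R hA hR1 (X.filter (fun x => qx P x ≤ R))
    (fun x hx => hX1 x (mem_filter.1 hx).1) (fun x hx => hX2 x (mem_filter.1 hx).1)
    (fun x hx => (mem_filter.1 hx).2)
  have hEn : ∀ x, 0 ≤ En A P x := fun x => by unfold En; positivity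
  have hJ0 : ∀ x, 0 ≤ ∏ p ∈ P, Jf (g : ℝ) T x p := fun x => prod_nonneg (J_nn P hP T g hgR hT x)
  have hpt : ∀ x ∈ X.filter (fun x => qx P x ≤ R),
      (if x = (fun _ => 0) then (A.card : ℝ) ^ 2 / 8 else 0) - 1 / z * En A P x ≤
      Cf P (s * Real.log z) g T x * En A P x := by
    intro x hx
    have hen := hEn x
    have hz0 : 0 ≤ 1 / (z : ℝ) * En A P x := by positivity
    by_cases hq : qx P x ≤ z ^ K
    · have hlog : Real.log (qx P x : ℕ) ≤ (K : ℝ) * Real.log z := by
        rw [← Real.log_pow]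
        apply Real.log_le_log
        · exact_mod_cast qx_pos P hP x
        · exact_mod_cast hq
      have hnear := near P hP T g hgR hT x z s hz3 hPz C1 K hm1 hs1 hs2 hlog
      by_cases hx0 : x = fun _ => 0
      · rw [if_pos hx0]
        have hJ1 : 1 ≤ ∏ p ∈ P, Jf (g : ℝ) T x p := by
          calc (1 : ℝ) = ∏ _p ∈ P, (1 : ℝ) := by simp
            _ ≤ _ := by
              apply Finset.prod_le_prod
              · intro _ _; norm_num
              · intro p hp
                exact (J_one P hP T g hgR hT x p hp (by rw [hx0])).1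
        have hEn0 : En A P x = (A.card : ℝ) ^ 2 := by
          unfold En
          have : xi P x = 0 := by
            unfold xi
            rw [hx0]
            simp
          rw [this]
          simp [ls_ee_zero]
        have h1 : (1 : ℝ) / 8 ≤ Cf P (s * Real.log z) g T x := by linarith
        rw [hEn0] at hz0 ⊢
        have : 0 ≤ (A.card : ℝ) ^ 2 := sq_nonneg _
        nlinarith
      · rw [if_neg hx0]
        have h1 : 0 ≤ Cf P (s * Real.log z) g T x := by
          have := hJ0 x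
          linarith
        have := mul_nonneg h1 hen
        linarith
    · push Not at hq
      have hx0 : x ≠ fun _ => 0 := by
        intro h
        rw [h] at hq
        have : qx P (fun _ => 0) = 1 := by
          unfold qx
          simp
        rw [this] at hq
        have := Nat.one_le_pow K z (by omega)
        omega
      rw [if_neg hx0]
      have hfar := far P hP T g hgR hT x (s * Real.log z) G (Real.log z + C2) (4 * G ^ 2) hL hGR
        (by push_cast; exact le_rfl) hm2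
      have hsq : (z : ℝ) ^ (g + G + 2) ≤ Real.sqrt (qx P x : ℕ) := by
        apply Real.le_sqrt_of_sq_le
        rw [← pow_mul]
        have : (g + G + 2) * 2 = K := by rw [hK]; ring
        rw [this]
        exact_mod_cast hq.le
      have hzpow : 0 < (z : ℝ) ^ (g + G + 2) := by positivity
      have hexp : Real.exp (((g : ℝ) + G) * (Real.log z + C2)) = (z : ℝ) ^ (g + G) * Real.exp ((g + G) * C2) := by
        rw [mul_add, Real.exp_add]
        congr 1
        have : ((g : ℝ) + G) * Real.log z = ((g + G : ℕ) : ℝ) * Real.log z := by push_cast; ring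
        rw [this, ← Real.log_pow, Real.exp_log (by positivity)]
      have hcf : |Cf P (s * Real.log z) g T x| ≤ 1 / z := by
        refine hfar.trans ?_
        rw [hexp]
        have hsq0 : 0 < Real.sqrt (qx P x : ℕ) := lt_of_lt_of_le hzpow hsq
        rw [div_le_div_iff₀ hsq0 (by linarith), one_mul]
        refine le_trans ?_ hsq
        have h5 : Real.exp ((g + G) * C2) * (2 * (G : ℝ)) ^ (4 * G ^ 2) ≤ z := hz₀.trans (by exact_mod_cast hzz)
        calc (z : ℝ) ^ (g + G) * Real.exp ((g + G) * C2) * (2 * (G : ℝ)) ^ (4 * G ^ 2) * z =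
            (z : ℝ) ^ (g + G) * (Real.exp ((g + G) * C2) * (2 * (G : ℝ)) ^ (4 * G ^ 2)) * z := by ring
          _ ≤ (z : ℝ) ^ (g + G) * z * z := by gcongr
          _ = _ := by ring
      have h6 := (abs_le.1 hcf).1
      nlinarith
  calc (A.card : ℝ) ^ 2 / 8 - 12 * M * A.card / z ≤
      (A.card : ℝ) ^ 2 / 8 - 1 / z * (6 * ((M : ℝ) + (R : ℝ) ^ 2) * A.card) := by
        have hRM : (R : ℝ) ^ 2 ≤ M := by
          have : R ^ 2 ≤ M := by
            rw [hR, ← pow_mul]
            refine le_trans (le_of_eq ?_) hM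
            congr 1
            ring
          exact_mod_cast this
        have h7 : 1 / (z : ℝ) * (6 * ((M : ℝ) + (R : ℝ) ^ 2) * A.card) ≤ 1 / z * (6 * ((M : ℝ) + M) * A.card) := by
          apply mul_le_mul_of_nonneg_left _ (by positivity)
          apply mul_le_mul_of_nonneg_right _ hAc
          linarith
        have h8 : 1 / (z : ℝ) * (6 * ((M : ℝ) + M) * A.card) = 12 * M * A.card / z := by
          ring
        linarith
    _ ≤ (A.card : ℝ) ^ 2 / 8 - 1 / z * ∑ x ∈ X.filter (fun x => qx P x ≤ R), En A P x := by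
        have : 1 / (z : ℝ) * ∑ x ∈ X.filter (fun x => qx P x ≤ R), En A P x ≤
            1 / z * (6 * ((M : ℝ) + (R : ℝ) ^ 2) * A.card) := mul_le_mul_of_nonneg_left hls (by positivity)
        linarith
    _ = ∑ x ∈ X.filter (fun x => qx P x ≤ R),
        ((if x = (fun _ => 0) then (A.card : ℝ) ^ 2 / 8 else 0) - 1 / z * En A P x) := by
        rw [sum_sub_distrib, ← mul_sum, sum_ite_eq' (X.filter (fun x => qx P x ≤ R)) (fun _ => 0)
          (fun _ => (A.card : ℝ) ^ 2 / 8), if_pos]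
        rw [mem_filter]
        refine ⟨hX3, ?_⟩
        have : qx P (fun _ => 0) = 1 := by
          unfold qx
          simp
        rw [this]
        exact hR1
    _ ≤ _ := sum_le_sum hpt

end Pool.Agent.H14.VC
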