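import Pool.Agent.H14.VC.Lin

/-!
# Linear forms in short windows, power saving (helper14)
-/

set_option autoImplicit false

namespace Pool.Agent.H14.VC

open Finset
open Pool.Agent.H14.SK (AP)

open Classical in
/-- **Systems of linear forms in short windows `M ≥ N ^ η`.** -/
theorem lin_vc_win (K : ℕ) (θ η : ℝ) (hθ : 0 < θ) (hθ1 : θ ≤ 1) (hη : 0 < η) (D : ℕ) : ∃ (κ : ℝ) (r : ℕ), 0 < κ ∧
    ∀ ε : ℝ, 0 < ε → ∃ N₀ : ℕ,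
    ∀ N M : ℕ, N₀ ≤ N → (N : ℝ) ^ η ≤ M → ∀ a b : Fin K → ℤ, (∀ i, |a i| ≤ (N : ℤ) ^ D ∧ |b i| ≤ (N : ℤ) ^ D) →
    (∀ p : ℕ, p.Prime → ∃ n : ℤ, ∀ i, ¬ (p : ℤ) ∣ a i * n + b i) →
    ∃ h : ℕ, (h : ℝ) ≤ (M : ℝ) ^ θ ∧
    ∀ (v : ℕ) (A : Finset ℕ), A ⊆ Ioc v (v + M) → (M : ℝ) ^ (1 - κ) ≤ A.card →
      (A.card : ℝ) ^ 2 * (M : ℝ) ^ (-ε) ≤
        ((A ×ˢ A).filter (fun x : ℕ × ℕ => x.1 < x.2 ∧ ∀ i,
          AP ((N : ℝ) ^ κ) r (a i * ((x.2 : ℤ) - x.1 + h) + b i) ∧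
          AP ((N : ℝ) ^ κ) r (a i * (h - ((x.2 : ℤ) - x.1)) + b i))).card := by
  obtain ⟨κ, hκ, hκ1, h1⟩ := lin_vc K θ hθ hθ1
  obtain ⟨B, hB⟩ : ∃ B : ℕ, D / η ≤ B := exists_nat_ge _
  obtain ⟨r, hr⟩ := h1 B
  refine ⟨min κ (η * κ), r, by positivity, ?_⟩
  intro ε hε
  obtain ⟨M₀, hM₀⟩ := hr ε hε
  obtain ⟨N₂, hN₂⟩ := Filter.eventually_atTop.1
    (((tendsto_rpow_atTop hη).comp tendsto_natCast_atTop_atTop).eventually_ge_atTop ((max M₀ 1 : ℕ) : ℝ))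
  refine ⟨max N₂ 1, ?_⟩
  intro N M hN hM a b hab hadm
  have hN1 : 1 ≤ N := (le_max_right _ _).trans hN
  have hN1R : (1 : ℝ) ≤ N := by exact_mod_cast hN1
  have hM1 : ((max M₀ 1 : ℕ) : ℝ) ≤ M := (hN₂ N ((le_max_left _ _).trans hN)).trans hM
  have hM2 : max M₀ 1 ≤ M := by exact_mod_cast hM1
  have hM3 : (1 : ℝ) ≤ M := by exact_mod_cast (le_max_right _ _).trans hM2
  have hDB : (N : ℤ) ^ D ≤ (M : ℤ) ^ B := by
    have : (N : ℝ) ^ D ≤ (M : ℝ) ^ B := by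
      rw [div_le_iff₀ hη] at hB
      calc (N : ℝ) ^ D = (N : ℝ) ^ (D : ℝ) := (Real.rpow_natCast _ _).symm
        _ ≤ (N : ℝ) ^ (η * B) := Real.rpow_le_rpow_of_exponent_le hN1R (by linarith)
        _ = ((N : ℝ) ^ η) ^ B := by rw [Real.rpow_mul (by linarith), Real.rpow_natCast]
        _ ≤ (M : ℝ) ^ B := by
            apply pow_le_pow_left₀ (by positivity) hM
    exact_mod_cast this
  obtain ⟨h, _, hh1, hA⟩ := hM₀ M ((le_max_left _ _).trans hM2) a b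
    (fun i => ⟨(hab i).1.trans hDB, (hab i).2.trans hDB⟩) hadm
  refine ⟨h, hh1, ?_⟩
  intro v A hAu hcard
  have hcard' : (M : ℝ) ^ (1 - κ) ≤ A.card := by
    refine le_trans ?_ hcard
    apply Real.rpow_le_rpow_of_exponent_le hM3
    have := min_le_left κ (η * κ)
    linarith
  refine (hA v A hAu hcard').trans ?_
  have hNM : (N : ℝ) ^ min κ (η * κ) ≤ (M : ℝ) ^ κ := by
    calc (N : ℝ) ^ min κ (η * κ) ≤ (N : ℝ) ^ (η * κ) :=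
          Real.rpow_le_rpow_of_exponent_le hN1R (min_le_right _ _)
      _ = ((N : ℝ) ^ η) ^ κ := by rw [Real.rpow_mul (by linarith)]
      _ ≤ (M : ℝ) ^ κ := Real.rpow_le_rpow (by positivity) hM hκ.le
  apply Nat.cast_le.2
  apply card_le_card
  intro x hx
  rw [mem_filter] at hx ⊢
  exact ⟨hx.1, hx.2.1, fun i => ⟨AP_mono hNM (hx.2.2 i).1, AP_mono hNM (hx.2.2 i).2⟩⟩

end Pool.Agent.H14.VC
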