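import Pool.Agent.H14.VC.LS

/-!
# The weight and its pair sums (helper14)
-/

set_option autoImplicit false

namespace Pool.Agent.H14.VC

open Finset
open Pool.Agent.Helper112 (ee ls_ee_zero ls_ee_add ls_ee_int lsSep)

/-- pair sums -/
noncomputable def PS (A : Finset ℕ) (F : ℤ → ℝ) : ℝ := ∑ a ∈ A, ∑ b ∈ A, F ((b : ℤ) - a)

lemma PS_sum (A : Finset ℕ) {ι : Type*} (s : Finset ι) (F : ι → ℤ → ℝ) :
    PS A (fun n => ∑ i ∈ s, F i n) = ∑ i ∈ s, PS A (F i) := by
  unfold PS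
  rw [sum_congr rfl fun a _ => sum_comm, sum_comm]

lemma PS_mul (A : Finset ℕ) (c : ℝ) (F : ℤ → ℝ) : PS A (fun n => c * F n) = c * PS A F := by
  unfold PS
  rw [mul_sum]
  exact sum_congr rfl fun a _ => (mul_sum _ _ _).symm

lemma PS_sub (A : Finset ℕ) (F G : ℤ → ℝ) : PS A (fun n => F n - G n) = PS A F - PS A G := by
  unfold PS
  rw [← sum_sub_distrib]
  exact sum_congr rfl fun a _ => sum_sub_distrib _ _

lemma PS_double (A : Finset ℕ) (S : Finset (Finset ℕ)) (X : Finset (ℕ → ℕ)) (c : Finset ℕ → Finset ℕ → ℝ)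
    (F : Finset ℕ → Finset ℕ → ℤ → ℝ) (K : Finset ℕ → Finset ℕ → (ℕ → ℕ) → ℝ) (E : (ℕ → ℕ) → ℝ)
    (h : ∀ U ∈ S, ∀ V ∈ S, PS A (F U V) = ∑ x ∈ X, K U V x * E x) :
    PS A (fun n => ∑ U ∈ S, ∑ V ∈ S, c U V * F U V n) =
      ∑ x ∈ X, (∑ U ∈ S, ∑ V ∈ S, c U V * K U V x) * E x := by
  have e1 : ∑ x ∈ X, (∑ U ∈ S, ∑ V ∈ S, c U V * K U V x) * E x =
      ∑ U ∈ S, ∑ x ∈ X, (∑ V ∈ S, c U V * K U V x) * E x := by
    rw [sum_comm]
    exact sum_congr rfl fun x _ => sum_mul _ _ _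
  rw [e1, PS_sum]
  apply sum_congr rfl
  intro U hU
  have e2 : ∑ x ∈ X, (∑ V ∈ S, c U V * K U V x) * E x =
      ∑ V ∈ S, ∑ x ∈ X, c U V * K U V x * E x := by
    rw [sum_comm]
    exact sum_congr rfl fun x _ => sum_mul _ _ _
  rw [e2, PS_sum]
  apply sum_congr rfl
  intro V hV
  rw [PS_mul, h U hU V hV, mul_sum]
  exact sum_congr rfl fun x _ => by ring

/-- the local functions of a pair of sets -/
noncomputable def cc (g : ℝ) (U V : Finset ℕ) (p : ℕ) : ℝ × ℝ × ℝ :=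
  if p ∈ U then (if p ∈ V then (0, g ^ 2, 1) else (0, g, -1)) else (if p ∈ V then (0, g, -1) else (1, 0, 0))

/-- the basic local function -/
noncomputable def hn (g : ℝ) (T : ℕ → ℤ → Prop) (n : ℤ) (p : ℕ) : ℝ := ev (0, g, -1) (T p) p n

/-- the basic sum -/
noncomputable def Lam (P : Finset ℕ) (L g : ℝ) (T : ℕ → ℤ → Prop) (n : ℤ) : ℝ :=
  ∑ U ∈ P.powerset, th L U * ∏ p ∈ U, hn g T n p

open Classical in
/-- the weight -/
noncomputable def wt (P : Finset ℕ) (L g : ℝ) (T : ℕ → ℤ → Prop) (n : ℤ) : ℝ :=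
  Lam P L g T n ^ 2 * (1 - ∑ q ∈ P, (if T q n then (1 : ℝ) else 0))

lemma ev_cc (g : ℝ) (T : ℕ → ℤ → Prop) (n : ℤ) (U V : Finset ℕ) (p : ℕ)
    (hd : ¬ ((p : ℤ) ∣ n ∧ T p n)) :
    ev (cc g U V p) (T p) p n = (if p ∈ U then hn g T n p else 1) * (if p ∈ V then hn g T n p else 1) := by
  unfold cc hn ev
  by_cases h1 : (p : ℤ) ∣ n
  · have h2 : ¬ T p n := fun h => hd ⟨h1, h⟩
    split_ifs <;> simp <;> ring
  · by_cases h2 : T p n
    · split_ifs <;> simp
    · split_ifs <;> simp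

lemma prod_if (P U : Finset ℕ) (hU : U ⊆ P) (f : ℕ → ℝ) : ∏ p ∈ P, (if p ∈ U then f p else 1) = ∏ p ∈ U, f p := by
  classical
  rw [prod_ite_mem, inter_eq_right.2 hU]

lemma prod_cc (P : Finset ℕ) (g : ℝ) (T : ℕ → ℤ → Prop) (n : ℤ) (hd : ∀ p ∈ P, ¬ ((p : ℤ) ∣ n ∧ T p n))
    (U V : Finset ℕ) (hU : U ⊆ P) (hV : V ⊆ P) :
    ∏ p ∈ P, ev (cc g U V p) (T p) p n = (∏ p ∈ U, hn g T n p) * ∏ p ∈ V, hn g T n p := by
  rw [prod_congr rfl fun p hp => ev_cc g T n U V p (hd p hp), prod_mul_distrib, prod_if P U hU,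
    prod_if P V hV]

lemma wt_id (P : Finset ℕ) (L g : ℝ) (T : ℕ → ℤ → Prop) (n : ℤ)
    (hd : ∀ p ∈ P, ¬ ((p : ℤ) ∣ n ∧ T p n)) :
    wt P L g T n = ∑ U ∈ P.powerset, ∑ V ∈ P.powerset, th L U * th L V *
        ∏ p ∈ P, ev (cc g U V p) (T p) p n -
      ∑ q ∈ P, ∑ U ∈ (P.erase q).powerset, ∑ V ∈ (P.erase q).powerset,
        (th L U - th L (insert q U)) * (th L V - th L (insert q V)) *
        ∏ p ∈ P, ev (if p = q then (0, 0, 1) else cc g U V p) (T p) p n := by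
  classical
  have h1 : Lam P L g T n ^ 2 = ∑ U ∈ P.powerset, ∑ V ∈ P.powerset, th L U * th L V *
        ∏ p ∈ P, ev (cc g U V p) (T p) p n := by
    unfold Lam
    rw [sq, sum_mul_sum]
    apply sum_congr rfl
    intro U hU
    apply sum_congr rfl
    intro V hV
    rw [prod_cc P g T n hd U V (mem_powerset.1 hU) (mem_powerset.1 hV)]
    ring
  unfold wt
  rw [mul_sub, mul_one, ← h1]
  congr 1
  rw [mul_sum]
  apply sum_congr rfl
  intro q hq
  have h2 : ∀ U ∈ (P.erase q).powerset, ∀ V ∈ (P.erase q).powerset,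
      (th L U - th L (insert q U)) * (th L V - th L (insert q V)) *
        ∏ p ∈ P, ev (if p = q then (0, 0, 1) else cc g U V p) (T p) p n =
      (if T q n then (1 : ℝ) else 0) * (((th L U - th L (insert q U)) * ∏ p ∈ U, hn g T n p) *
        ((th L V - th L (insert q V)) * ∏ p ∈ V, hn g T n p)) := by
    intro U hU V hV
    have hUs := mem_powerset.1 hU
    have hVs := mem_powerset.1 hV
    rw [← mul_prod_erase P _ hq]
    have e1 : ev (if q = q then ((0, 0, 1) : ℝ × ℝ × ℝ) else cc g U V q) (T q) q n =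
        (if T q n then (1 : ℝ) else 0) := by
      rw [if_pos rfl]
      unfold ev
      simp
    have e2 : ∏ p ∈ P.erase q, ev (if p = q then ((0, 0, 1) : ℝ × ℝ × ℝ) else cc g U V p) (T p) p n =
        (∏ p ∈ U, hn g T n p) * ∏ p ∈ V, hn g T n p := by
      rw [← prod_cc (P.erase q) g T n (fun p hp => hd p (mem_of_mem_erase hp)) U V hUs hVs]
      apply prod_congr rfl
      intro p hp
      rw [if_neg (ne_of_mem_erase hp)]
    rw [e1, e2]
    ring
  rw [sum_congr rfl fun U hU => sum_congr rfl (h2 U hU)]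
  by_cases hT : T q n
  · simp only [if_pos hT, mul_one, one_mul]
    rw [← sum_mul_sum]
    have h3 : Lam P L g T n = ∑ U ∈ (P.erase q).powerset, (th L U - th L (insert q U)) * ∏ p ∈ U, hn g T n p := by
      unfold Lam
      conv_lhs => rw [← insert_erase hq]
      rw [sum_powerset_insert (notMem_erase q P), ← sum_add_distrib]
      apply sum_congr rfl
      intro U hU
      have hqU : q ∉ U := fun h => (notMem_erase q P) (mem_powerset.1 hU h)
      rw [prod_insert hqU]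
      have h4 : hn g T n q = -1 := by
        have h5 : ¬ (q : ℤ) ∣ n := fun h => hd q hq ⟨h, hT⟩
        unfold hn ev
        rw [if_neg h5, if_pos hT]
        simp
      rw [h4]
      ring
    rw [← h3, sq]
  · simp [hT]

lemma mm_LC (g : ℝ) (T : ℕ → ℤ → Prop) (x : ℕ → ℕ) (U V : Finset ℕ) (p : ℕ) :
    LC (cc g U V p) (T p) p (x p) = mm (fun p => LC (1, 0, 0) (T p) p (x p)) (fun p => LC (0, g, -1) (T p) p (x p))
      (fun p => LC (0, g ^ 2, 1) (T p) p (x p)) U V p := by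
  unfold cc mm
  split_ifs <;> rfl

lemma pairs_id (A P : Finset ℕ) (hP : ∀ p ∈ P, p.Prime) (L g : ℝ) (T : ℕ → ℤ → Prop)
    (per : ∀ p : ℕ, ∀ n m : ℤ, (p : ℤ) ∣ n - m → (T p n ↔ T p m)) (even : ∀ p : ℕ, ∀ n : ℤ, T p n ↔ T p (-n))
    (h0 : ∀ p ∈ P, ¬ T p 0)
    (X : Finset (ℕ → ℕ))
    (hX : ∀ f : ℕ → ℕ → ℂ, ∏ p ∈ P, ∑ j ∈ range p, f p j = ∑ x ∈ X, ∏ p ∈ P, f p (x p)) :
    PS A (wt P L g T) = ∑ x ∈ X, CC P L (fun p => LC (0, 0, 1) (T p) p (x p))
      (fun p => LC (1, 0, 0) (T p) p (x p)) (fun p => LC (0, g, -1) (T p) p (x p))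
      (fun p => LC (0, g ^ 2, 1) (T p) p (x p)) * En A P x := by
  classical
  have hd : ∀ n : ℤ, ∀ p ∈ P, ¬ ((p : ℤ) ∣ n ∧ T p n) := by
    rintro n p hp ⟨h1, h2⟩
    exact h0 p hp ((per p n 0 (by simpa using h1)).1 h2)
  have h1 : wt P L g T = fun n => (∑ U ∈ P.powerset, ∑ V ∈ P.powerset, th L U * th L V *
        ∏ p ∈ P, ev (cc g U V p) (T p) p n) -
      ∑ q ∈ P, ∑ U ∈ (P.erase q).powerset, ∑ V ∈ (P.erase q).powerset,
        (th L U - th L (insert q U)) * (th L V - th L (insert q V)) *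
        ∏ p ∈ P, ev (if p = q then (0, 0, 1) else cc g U V p) (T p) p n := by
    funext n
    exact wt_id P L g T n (hd n)
  have hprod : ∀ c : ℕ → ℝ × ℝ × ℝ, PS A (fun n => ∏ p ∈ P, ev (c p) (T p) p n) =
      ∑ x ∈ X, (∏ p ∈ P, LC (c p) (T p) p (x p)) * En A P x :=
    fun c => prod_ev_pairs A P hP T per even X hX c
  rw [h1, PS_sub]
  have e1 : PS A (fun n => ∑ U ∈ P.powerset, ∑ V ∈ P.powerset, th L U * th L V *
        ∏ p ∈ P, ev (cc g U V p) (T p) p n) =
      ∑ x ∈ X, BB P (th L) (fun p => LC (1, 0, 0) (T p) p (x p)) (fun p => LC (0, g, -1) (T p) p (x p))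
        (fun p => LC (0, g ^ 2, 1) (T p) p (x p)) * En A P x := by
    unfold BB
    apply PS_double
    intro U _ V _
    rw [hprod]
    apply sum_congr rfl
    intro x _
    rw [prod_congr rfl fun p _ => mm_LC g T x U V p]
  have e2 : PS A (fun n => ∑ q ∈ P, ∑ U ∈ (P.erase q).powerset, ∑ V ∈ (P.erase q).powerset,
        (th L U - th L (insert q U)) * (th L V - th L (insert q V)) *
        ∏ p ∈ P, ev (if p = q then (0, 0, 1) else cc g U V p) (T p) p n) =
      ∑ x ∈ X, (∑ q ∈ P, LC (0, 0, 1) (T q) q (x q) * BB (P.erase q) (fun U => th L U - th L (insert q U))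
        (fun p => LC (1, 0, 0) (T p) p (x p)) (fun p => LC (0, g, -1) (T p) p (x p))
        (fun p => LC (0, g ^ 2, 1) (T p) p (x p))) * En A P x := by
    have e0 : ∑ x ∈ X, (∑ q ∈ P, LC (0, 0, 1) (T q) q (x q) * BB (P.erase q) (fun U => th L U - th L (insert q U))
        (fun p => LC (1, 0, 0) (T p) p (x p)) (fun p => LC (0, g, -1) (T p) p (x p))
        (fun p => LC (0, g ^ 2, 1) (T p) p (x p))) * En A P x =
        ∑ q ∈ P, ∑ x ∈ X, LC (0, 0, 1) (T q) q (x q) * BB (P.erase q) (fun U => th L U - th L (insert q U))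
        (fun p => LC (1, 0, 0) (T p) p (x p)) (fun p => LC (0, g, -1) (T p) p (x p))
        (fun p => LC (0, g ^ 2, 1) (T p) p (x p)) * En A P x := by
      rw [sum_comm]
      exact sum_congr rfl fun x _ => sum_mul _ _ _
    rw [e0, PS_sum]
    apply sum_congr rfl
    intro q hq
    rw [PS_double A (P.erase q).powerset X
      (fun U V => (th L U - th L (insert q U)) * (th L V - th L (insert q V)))
      (fun U V n => ∏ p ∈ P, ev (if p = q then (0, 0, 1) else cc g U V p) (T p) p n)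
      (fun U V x => LC (0, 0, 1) (T q) q (x q) * ∏ p ∈ P.erase q,
        mm (fun p => LC (1, 0, 0) (T p) p (x p)) (fun p => LC (0, g, -1) (T p) p (x p))
          (fun p => LC (0, g ^ 2, 1) (T p) p (x p)) U V p) (En A P) (by
        intro U _ V _
        rw [hprod]
        apply sum_congr rfl
        intro x _
        rw [← mul_prod_erase P (fun p => LC (if p = q then ((0, 0, 1) : ℝ × ℝ × ℝ) else cc g U V p) (T p) p (x p)) hq,
          if_pos rfl]
        congr 2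
        apply prod_congr rfl
        intro p hp
        rw [if_neg (ne_of_mem_erase hp), mm_LC])]
    apply sum_congr rfl
    intro x _
    unfold BB
    rw [mul_sum]
    congr 1
    apply sum_congr rfl
    intro U _
    rw [mul_sum]
    apply sum_congr rfl
    intro V _
    ring
  rw [e1, e2, ← sum_sub_distrib]
  apply sum_congr rfl
  intro x _
  unfold CC
  ring

end Pool.Agent.H14.VC
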